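import Pool.Agent.Work.MP_c48073_ag.DualityMain

/-!
Sanity check for the definitions: the Koszul maps form a complex, so that `cohomologyDim` in the
definition of `kPQ` is the dimension of the cohomology of a complex at its middle term.
-/

namespace Pool.Agent.Work.MP_c48073_ag

/-- Two consecutive Koszul differentials compose to zero. -/
theorem koszulDiff_koszulDiff (n d p m : ℕ)
    (z : TensorProduct ℂ (⋀[ℂ]^(p + 1 + 1) (Forms n d)) (Forms n m)) :
    koszulDiff (mulForms n d (m + d)) p (koszulDiff (mulForms n d m) (p + 1) z) = 0 := by
  apply coordE_injective (monoBasis n d) p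
  rw [coordE_koszulDiff, coordE_koszulDiff, map_zero]
  apply kd_kd
  intro i j x
  apply Subtype.ext
  change x.1 * (monoBasis n d j).1 * (monoBasis n d i).1 =
    x.1 * (monoBasis n d i).1 * (monoBasis n d j).1
  ring

/-- The image of the incoming map lies in the kernel of the outgoing map, for the two maps in the
definition of `k_{p,q+1}(P^n, O(d))`. -/
theorem koszulOut_koszulDiff (n d p q : ℕ)
    (z : TensorProduct ℂ (⋀[ℂ]^(p + 1) (Forms n d)) (Forms n (d * q))) :
    koszulOut (mulForms n d (d * (q + 1))) p (koszulDiff (mulForms n d (d * q)) p z) = 0 := by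
  cases p with
  | zero => rfl
  | succ p => exact koszulDiff_koszulDiff n d p (d * q) z

end Pool.Agent.Work.MP_c48073_ag
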