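import Pool.Agent.Work.MP_c48073_ag.Duality

namespace Pool.Agent.Work.MP_c48073_ag

open Finset MvPolynomial

/-- an arbitrary linear order on the monomials -/
noncomputable instance (n m : ℕ) : LinearOrder (Mon n m) :=
  LinearOrder.lift' (Fintype.equivFin (Mon n m)) (Fintype.equivFin (Mon n m)).injective

/-- Duality for the last row: `k_{p,n}` is the dimension of the space of Koszul cycles
`ker (⋀^(s+1) V ⊗ S_k → ⋀^s V ⊗ S_{k+d})`, where `k = d - n - 1` and `s + 1 = r - n - p`. -/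
theorem duality {n q d k s p : ℕ} (hq : n = q + 1) (hk : k + n + 1 = d)
    (hP : p + 1 + (n + 1) + (s + 1) = (n + d).choose n) :
    kPQ n d ((p + 1 : ℕ) : ℤ) n =
      Module.finrank ℂ (LinearMap.ker (koszulDiff (mulForms n d k) s)) := by
  have ha : ∀ i : Mon n d, (i.1).degree = d := fun i => i.2
  have hb : ∀ i : Mon n d, (monoBasis n d i : MvPolynomial (Fin (n + 1)) ℂ) = monomial i.1 1 :=
    fun i => monoBasis_apply n d i
  have hsum : ∀ i : Mon n d, ∑ j, toZ i.1 j = (d : ℤ) := fun i => by rw [sum_toZ, ha i]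
  have hi : ∀ (j : ℕ) (hj : j < n + 1), ∃ i0 : Mon n d,
      toZ i0.1 = Pi.single ⟨j, hj⟩ (d : ℤ) := by
    intro j hj
    refine ⟨⟨Finsupp.single ⟨j, hj⟩ d, by simp [Finsupp.degree_single]⟩, ?_⟩
    ext t
    simp only [toZ]
    by_cases ht : t = ⟨j, hj⟩
    · subst ht; simp
    · rw [Pi.single_eq_of_ne ht, Finsupp.single_eq_of_ne ht]; simp
  rw [finrank_ker_koszulDiff (monoBasis n d) (fun i : Mon n d => i.1) hb s k]
  rw [← HA_negative (a := fun i : Mon n d => i.1) d s k (p + 1 + (n + 1)) ha hk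
    (by rw [card_Mon]; exact hP)]
  have h1 := cohomologyDim_eq_HA (monoBasis n d) (fun i : Mon n d => i.1) hb p q
  rw [← hq] at h1
  rw [h1, HA_iterate (fun i => toZ_nonneg _) hsum hi (p + 1) _ (n + 1) le_rfl]
  congr 1
  push_cast
  ring

end Pool.Agent.Work.MP_c48073_ag
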