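import Pool.Agent.Work.MP_c48073_ag.Lam
import Pool.Agent.Work.MP_c48073_ag.DualityMain

/-!
The special basis of `S_d` and the block constraint for leading terms of Koszul cycles.
-/

namespace Pool.Agent.Work.MP_c48073_ag

open Finset MvPolynomial

section Block

variable {n : ℕ} (grp : Fin (n + 1) → Fin 3)

/-- the monomials of the block `τ` -/
def inM (e : ℕ) (τ : Fin 3) (β : Fin (n + 1) →₀ ℕ) : Prop :=
  gdeg grp τ β = 0 ∧ ∀ t, t ≠ τ → gdeg grp t β = e

lemma inM_unique {e : ℕ} (he : 1 ≤ e) {τ τ' : Fin 3} {β : Fin (n + 1) →₀ ℕ}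
    (h : inM grp e τ β) (h' : inM grp e τ' β) : τ = τ' := by
  by_contra hne
  have h1 := h'.2 τ hne
  have h2 := h.1
  omega

lemma wt_of_inM {e : ℕ} {τ : Fin 3} {β γ : Fin (n + 1) →₀ ℕ}
    (h : inM grp e τ β) (h' : inM grp e τ γ) : wt grp τ β = wt grp τ γ := by
  have key : ∀ β : Fin (n + 1) →₀ ℕ, gdeg grp τ β = 0 → ∀ i, grp i = τ → β i = 0 := by
    intro β h0 i hi
    unfold gdeg at h0
    rw [Finset.sum_eq_zero_iff] at h0
    have := h0 i (Finset.mem_univ _)
    rwa [if_pos hi] at this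
  ext i
  unfold wt
  split_ifs with hi
  · rw [key β h.1 i hi, key γ h'.1 i hi]
  · rw [h.2 _ hi, h'.2 _ hi]

/-- genericity of a family of points indexed by monomials -/
def GenericPts {I : Type} (x : I → Fin (n + 1) → ℂ) (U : Finset (Fin (n + 1) →₀ ℕ)) : Prop :=
  ∀ M ⊆ U, ∀ T : Finset I, M.card ≤ T.card → ∀ c : (Fin (n + 1) →₀ ℕ) → ℂ,
      (∀ i ∈ T, ∑ β ∈ M, c β * mev (x i) β = 0) → ∀ β ∈ M, c β = 0

theorem exists_GenericPts (n d : ℕ) (U : Finset (Fin (n + 1) →₀ ℕ)) :
    ∃ x : Mon n d → Fin (n + 1) → ℂ, GenericPts x U := by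
  classical
  obtain ⟨x, hx⟩ := generic_points U (Fintype.card (Mon n d))
  let e := Fintype.equivFin (Mon n d)
  refine ⟨fun i => x (e i), ?_⟩
  intro M hM T hT c hc
  refine hx M hM (T.image (fun i => (e i : ℕ))) ?_ ?_ c ?_
  · intro j hj
    obtain ⟨i, _, rfl⟩ := Finset.mem_image.1 hj
    exact Finset.mem_range.2 (e i).2
  · rw [Finset.card_image_of_injective]
    · exact hT
    · intro i j hij
      exact e.injective (Fin.ext hij)
  · intro j hj
    obtain ⟨i, hi, rfl⟩ := Finset.mem_image.1 hj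
    exact hc i hi

/-- A basis of `S_d` adapted to the points. -/
def GoodBasis {I : Type} {d : ℕ} (e : ℕ) (a : I → Fin (n + 1) →₀ ℕ) (x : I → Fin (n + 1) → ℂ)
    (b : Module.Basis I ℂ (Forms n d)) : Prop :=
  ∀ (τ : Fin 3) (i : I), inM grp e τ (a i) →
    (∀ β, coeff β (b i : MvPolynomial (Fin (n + 1)) ℂ) ≠ 0 → inM grp e τ β) ∧
    eval (x i) (b i : MvPolynomial (Fin (n + 1)) ℂ) = 1 ∧
    ∀ j : I, inM grp e τ (a j) → j ≠ i →
      eval (x j) (b i : MvPolynomial (Fin (n + 1)) ℂ) = 0

open Classical in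
/-- coordinates -/
noncomputable def coordMap {d : ℕ} (e : ℕ) (x : Mon n d → Fin (n + 1) → ℂ) :
    Forms n d →ₗ[ℂ] (Mon n d → ℂ) where
  toFun g i := if ∃ τ, inM grp e τ i.1 then
      ∑ β ∈ (univ.filter (fun β : Mon n d => ∃ τ, inM grp e τ i.1 ∧ inM grp e τ β.1)),
        coeff β.1 g.1 * mev (x i) β.1
    else coeff i.1 g.1
  map_add' f g := by
    ext i
    by_cases h : ∃ τ, inM grp e τ i.1
    · simp only [if_pos h, Pi.add_apply, ← Finset.sum_add_distrib]
      apply Finset.sum_congr rfl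
      intro β _
      rw [Submodule.coe_add, coeff_add, add_mul]
    · simp only [if_neg h, Pi.add_apply, Submodule.coe_add, coeff_add]
  map_smul' a g := by
    ext i
    by_cases h : ∃ τ, inM grp e τ i.1
    · simp only [if_pos h, Pi.smul_apply, RingHom.id_apply, Finset.smul_sum]
      apply Finset.sum_congr rfl
      intro β _
      rw [Submodule.coe_smul, coeff_smul, smul_mul_assoc]
    · simp only [if_neg h, Pi.smul_apply, RingHom.id_apply, Submodule.coe_smul, coeff_smul]

open Classical in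
lemma coordMap_of {d e : ℕ} (he : 1 ≤ e) (x : Mon n d → Fin (n + 1) → ℂ) (g : Forms n d)
    {τ : Fin 3} {i : Mon n d} (hi : inM grp e τ i.1) :
    coordMap grp e x g i =
      ∑ β ∈ (univ.filter (fun β : Mon n d => inM grp e τ β.1)), coeff β.1 g.1 * mev (x i) β.1 := by
  simp only [coordMap, LinearMap.coe_mk, AddHom.coe_mk]
  rw [if_pos ⟨τ, hi⟩]
  apply Finset.sum_congr _ (fun _ _ => rfl)
  ext β
  simp only [mem_filter, mem_univ, true_and]
  constructor
  · rintro ⟨τ', h1, h2⟩
    rw [inM_unique grp he hi h1]; exact h2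
  · intro h
    exact ⟨τ, hi, h⟩

lemma coordMap_rest {d e : ℕ} (x : Mon n d → Fin (n + 1) → ℂ) (g : Forms n d)
    {i : Mon n d} (hi : ¬ ∃ τ, inM grp e τ i.1) :
    coordMap grp e x g i = coeff i.1 g.1 := by
  simp only [coordMap, LinearMap.coe_mk, AddHom.coe_mk]
  rw [if_neg hi]

lemma block_zero {d e : ℕ} (he : 1 ≤ e) {x : Mon n d → Fin (n + 1) → ℂ}
    {U : Finset (Fin (n + 1) →₀ ℕ)} (hx : GenericPts x U)
    (hU : ∀ β : Fin (n + 1) →₀ ℕ, β.degree = d → β ∈ U) (g : Forms n d) (τ : Fin 3)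
    (h0 : ∀ i : Mon n d, inM grp e τ i.1 → coordMap grp e x g i = 0) (β : Mon n d)
    (hβ : inM grp e τ β.1) : coeff β.1 g.1 = 0 := by
  classical
  set T := (univ.filter (fun β : Mon n d => inM grp e τ β.1)) with hT
  have h1 := hx (T.map (Function.Embedding.subtype _)) (by
      intro γ hγ
      obtain ⟨γ', _, rfl⟩ := Finset.mem_map.1 hγ
      exact hU _ γ'.2) T (by rw [Finset.card_map]) (fun γ => coeff γ g.1) (by
      intro i hi
      rw [Finset.sum_map]
      rw [hT, mem_filter] at hi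
      have := h0 i hi.2
      rw [coordMap_of grp he x g hi.2] at this
      exact this)
  apply h1 β.1
  rw [Finset.mem_map]
  exact ⟨β, by rw [hT, mem_filter]; exact ⟨mem_univ _, hβ⟩, rfl⟩

theorem exists_GoodBasis {d e : ℕ} (he : 1 ≤ e) {x : Mon n d → Fin (n + 1) → ℂ}
    {U : Finset (Fin (n + 1) →₀ ℕ)} (hx : GenericPts x U)
    (hU : ∀ β : Fin (n + 1) →₀ ℕ, β.degree = d → β ∈ U) :
    ∃ b : Module.Basis (Mon n d) ℂ (Forms n d),
      GoodBasis grp e (fun i : Mon n d => i.1) x b := by
  classical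
  have hinj : Function.Injective (coordMap grp e x) := by
    rw [← LinearMap.ker_eq_bot, LinearMap.ker_eq_bot']
    intro g hg
    apply Subtype.ext
    apply MvPolynomial.ext
    intro β
    change coeff β g.1 = coeff β 0
    rw [coeff_zero]
    by_cases hd : β.degree = d
    · by_cases hβ : ∃ τ, inM grp e τ β
      · obtain ⟨τ, hτ⟩ := hβ
        exact block_zero grp he hx hU g τ (fun i _ => by rw [hg]; rfl) ⟨β, hd⟩ hτ
      · have h1 := congrFun hg ⟨β, hd⟩
        rwa [coordMap_rest grp x g hβ] at h1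
    · exact IsHomogeneous.coeff_eq_zero g.2 hd
  have hfr : Module.finrank ℂ (Forms n d) = Module.finrank ℂ (Mon n d → ℂ) := by
    rw [finrank_Forms, Module.finrank_fintype_fun_eq_card, card_Mon]
  let E : Forms n d ≃ₗ[ℂ] (Mon n d → ℂ) :=
    LinearMap.linearEquivOfInjective (coordMap grp e x) hinj hfr
  refine ⟨Module.Basis.ofEquivFun E, ?_⟩
  intro τ i hi
  have hEb : ∀ i, coordMap grp e x (Module.Basis.ofEquivFun E i) = Pi.single i 1 := by
    intro i
    have h1 : E (Module.Basis.ofEquivFun E i) = Pi.single i 1 := by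
      rw [Module.Basis.coe_ofEquivFun, LinearEquiv.apply_symm_apply]
    exact h1
  set g := Module.Basis.ofEquivFun E i with hg
  have hsupp : ∀ β, coeff β (g : MvPolynomial (Fin (n + 1)) ℂ) ≠ 0 → inM grp e τ β := by
    intro β hβ
    have hd : β.degree = d := by
      by_contra h
      exact hβ (IsHomogeneous.coeff_eq_zero g.2 h)
    by_contra hnot
    by_cases hex : ∃ τ', inM grp e τ' β
    · obtain ⟨τ', hτ'⟩ := hex
      apply hβ
      apply block_zero grp he hx hU g τ' _ ⟨β, hd⟩ hτ'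
      intro j hj
      rw [hEb, Pi.single_eq_of_ne]
      intro hji
      subst hji
      exact hnot ((inM_unique grp he hj hi) ▸ hτ')
    · have h1 := congrFun (hEb i) ⟨β, hd⟩
      rw [coordMap_rest grp x _ hex] at h1
      apply hβ
      rw [h1, Pi.single_eq_of_ne]
      intro hji
      rw [← hji] at hi
      exact hex ⟨τ, hi⟩
  have heval : ∀ j : Mon n d, inM grp e τ j.1 →
      eval (x j) (g : MvPolynomial (Fin (n + 1)) ℂ) = (Pi.single i 1 : Mon n d → ℂ) j := by
    intro j hj
    rw [← hEb i, coordMap_of grp he x _ hj]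
    have h1 : (g : MvPolynomial (Fin (n + 1)) ℂ) =
        ∑ β ∈ (univ.filter (fun β : Mon n d => inM grp e τ β.1)),
          monomial β.1 (coeff β.1 g.1) := by
      apply MvPolynomial.ext
      intro γ
      rw [coeff_sum]
      simp only [coeff_monomial]
      by_cases hγ : coeff γ g.1 = 0
      · rw [hγ]
        symm
        apply Finset.sum_eq_zero
        intro β _
        split_ifs with h
        · rw [h, hγ]
        · rfl
      · have hd : γ.degree = d := by
          by_contra h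
          exact hγ (IsHomogeneous.coeff_eq_zero g.2 h)
        rw [Finset.sum_eq_single ⟨γ, hd⟩]
        · rw [if_pos rfl]
        · intro b _ hb
          rw [if_neg]
          intro h
          exact hb (Subtype.ext h)
        · intro h
          exfalso
          apply h
          rw [mem_filter]
          exact ⟨mem_univ _, hsupp γ hγ⟩
    conv_lhs => rw [h1]
    rw [map_sum]
    apply Finset.sum_congr rfl
    intro β _
    rw [eval_monomial_mev]
  refine ⟨hsupp, ?_, ?_⟩
  · rw [heval i hi, Pi.single_eq_same]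
  · intro j hj hne
    rw [heval j hj, Pi.single_eq_of_ne hne]

end Block

end Pool.Agent.Work.MP_c48073_ag
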