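import Pool.Agent.Work.MP_c48073_ag.Koszul

namespace Pool.Agent.Work.MP_c48073_ag

open scoped TensorProduct
open Finset exteriorPower Set.powersetCard

section Emb

variable {I : Type} [LinearOrder I]

lemma removeNth_emb {p : ℕ} (s : Finset I) (h : s.card = p + 1) (i : Fin (p + 1))
    (h' : (s.erase (s.orderEmbOfFin h i)).card = p) :
    (fun k => s.orderEmbOfFin h (i.succAbove k)) =
      (s.erase (s.orderEmbOfFin h i)).orderEmbOfFin h' := by
  apply Finset.orderEmbOfFin_unique
  · intro k
    rw [Finset.mem_erase]
    refine ⟨fun heq => ?_, Finset.orderEmbOfFin_mem _ _ _⟩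
    exact Fin.succAbove_ne i k ((s.orderEmbOfFin h).injective heq)
  · intro a b hab
    exact (s.orderEmbOfFin h).strictMono (Fin.strictMono_succAbove i hab)

lemma sg_emb {p : ℕ} (s : Finset I) (h : s.card = p + 1) (i : Fin (p + 1)) :
    sg (s.orderEmbOfFin h i) (s.erase (s.orderEmbOfFin h i)) = (-1) ^ (i : ℕ) := by
  unfold sg
  congr 1
  have : (s.erase (s.orderEmbOfFin h i)).filter (· < s.orderEmbOfFin h i) =
      (Finset.univ.filter (fun k : Fin (p + 1) => k < i)).map (s.orderEmbOfFin h).toEmbedding := by
    ext x
    simp only [Finset.mem_filter, Finset.mem_erase, Finset.mem_map, Finset.mem_univ, true_and,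
      RelEmbedding.coe_toEmbedding]
    constructor
    · rintro ⟨⟨_, hx⟩, hlt⟩
      have : x ∈ Set.range (s.orderEmbOfFin h) := by
        rw [Finset.range_orderEmbOfFin]; exact hx
      obtain ⟨k, rfl⟩ := this
      exact ⟨k, (s.orderEmbOfFin h).lt_iff_lt.mp hlt, rfl⟩
    · rintro ⟨k, hk, rfl⟩
      exact ⟨⟨fun heq => hk.ne ((s.orderEmbOfFin h).injective heq),
        Finset.orderEmbOfFin_mem _ _ _⟩, (s.orderEmbOfFin h).lt_iff_lt.mpr hk⟩
  rw [this, Finset.card_map]
  have : Finset.univ.filter (fun k : Fin (p + 1) => k < i) = Finset.Iio i := by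
    ext; simp
  rw [this, Fin.card_Iio]

end Emb

section Bridge

variable {I : Type} [LinearOrder I] [Fintype I]
variable {K V M N : Type} [Field K] [AddCommGroup V] [Module K V] [AddCommGroup M] [Module K M]
  [AddCommGroup N] [Module K N]

open Classical in
/-- coordinates of an element of `⋀^p V ⊗ M` with respect to a basis of `V`. -/
noncomputable def coordE (b : Module.Basis I K V) (p : ℕ) :
    ((⋀[K]^p V) ⊗[K] M) →ₗ[K] (Finset I → M) where
  toFun z F := if h : F.card = p then
    TensorProduct.equivFinsuppOfBasisLeft (b.exteriorPower p) z ⟨F, h⟩ else 0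
  map_add' z w := by
    ext F; by_cases h : F.card = p <;> simp [h]
  map_smul' c z := by
    ext F; by_cases h : F.card = p <;> simp [h]

lemma coordE_apply (b : Module.Basis I K V) (p : ℕ) (z : (⋀[K]^p V) ⊗[K] M) (F : Finset I)
    (h : F.card = p) : coordE b p z F =
      (TensorProduct.equivFinsuppOfBasisLeft (b.exteriorPower p) z) ⟨F, h⟩ := by
  classical
  simp only [coordE, LinearMap.coe_mk, AddHom.coe_mk, dif_pos h]

lemma coordE_apply_of_ne (b : Module.Basis I K V) (p : ℕ) (z : (⋀[K]^p V) ⊗[K] M) (F : Finset I)
    (h : F.card ≠ p) : coordE b p z F = 0 := by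
  simp [coordE, h]

lemma coordE_injective (b : Module.Basis I K V) (p : ℕ) :
    Function.Injective (coordE (M := M) b p) := by
  classical
  intro z w hzw
  apply (TensorProduct.equivFinsuppOfBasisLeft (b.exteriorPower p)).injective
  ext ⟨F, hF⟩
  have := congrFun hzw F
  rwa [coordE_apply b p z F hF, coordE_apply b p w F hF] at this

lemma mem_range_coordE (b : Module.Basis I K V) (p : ℕ) (f : Finset I → M)
    (hf : ∀ F, F.card ≠ p → f F = 0) : ∃ z, coordE (M := M) b p z = f := by
  classical
  refine ⟨(TensorProduct.equivFinsuppOfBasisLeft (b.exteriorPower p)).symm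
    (Finsupp.equivFunOnFinite.symm (fun F => f F.1)), ?_⟩
  ext F
  by_cases hF : F.card = p
  · rw [coordE_apply b p _ F hF, LinearEquiv.apply_symm_apply]
    rfl
  · rw [coordE_apply_of_ne b p _ F hF, hf F hF]

lemma coordE_ιMulti (b : Module.Basis I K V) (p : ℕ) (s : Set.powersetCard I p) (m : M)
    (F : Finset I) : coordE b p (ιMulti_family K p b s ⊗ₜ[K] m) F = if F = s then m else 0 := by
  classical
  by_cases hF : F.card = p
  · rw [coordE_apply b p _ F hF, TensorProduct.equivFinsuppOfBasisLeft_apply_tmul_apply,
      basis_repr, Finsupp.single_apply]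
    by_cases h : F = s
    · subst h; simp
    · rw [if_neg h, if_neg (fun h' => h (by rw [h'])), zero_smul]
  · rw [coordE_apply_of_ne b p _ F hF, if_neg (fun h => hF (by rw [h]; exact s.2))]

lemma coordE_koszulDiff (b : Module.Basis I K V) (μ : V →ₗ[K] M →ₗ[K] N) (p : ℕ)
    (z : (⋀[K]^(p + 1) V) ⊗[K] M) :
    coordE b p (koszulDiff μ p z) = kd (fun i => μ (b i)) (coordE b (p + 1) z) := by
  classical
  induction z using TensorProduct.induction_on with
  | zero => simp
  | add x y hx hy => simp only [map_add, hx, hy]
  | tmul x m =>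
    suffices h : ((coordE b p).comp (koszulDiff μ p)).comp
          ((TensorProduct.mk K (⋀[K]^(p + 1) V) M).flip m) =
        ((kd (fun i => μ (b i))).comp (coordE b (p + 1))).comp
          ((TensorProduct.mk K (⋀[K]^(p + 1) V) M).flip m) by
      exact LinearMap.congr_fun h x
    apply (b.exteriorPower (p + 1)).ext
    intro s
    rw [exteriorPower.basis_apply]
    simp only [LinearMap.comp_apply, LinearMap.flip_apply, TensorProduct.mk_apply]
    have hs : (s : Finset I).card = p + 1 := s.2
    have hfam : ιMulti_family K (p + 1) b s =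
        ιMulti K (p + 1) (fun k => b ((s : Finset I).orderEmbOfFin hs k)) := by
      unfold ιMulti_family
      congr 1
    rw [hfam, koszulDiff_apply, ← hfam]
    have hcard : ∀ i : Fin (p + 1),
        ((s : Finset I).erase ((s : Finset I).orderEmbOfFin hs i)).card = p := by
      intro i
      rw [Finset.card_erase_of_mem (Finset.orderEmbOfFin_mem _ _ _), hs]
      rfl
    have hrem : ∀ i : Fin (p + 1),
        ιMulti K p (i.removeNth (fun k => b ((s : Finset I).orderEmbOfFin hs k))) =
          ιMulti_family K p b
            ⟨(s : Finset I).erase ((s : Finset I).orderEmbOfFin hs i), hcard i⟩ := by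
      intro i
      unfold ιMulti_family
      congr 1
      ext k
      simp only [Function.comp_apply, Fin.removeNth]
      congr 1
      exact congrFun (removeNth_emb (s : Finset I) hs i (hcard i)) k
    simp only [hrem]
    ext G
    rw [kd_apply]
    simp only [map_sum, map_zsmul, Finset.sum_apply, Pi.smul_apply, coordE_ιMulti]
    -- both sides as a sum over `s`
    have h1 : ∑ i : Fin (p + 1), (-1 : ℤ) ^ (i : ℕ) •
        (if G = (s : Finset I).erase ((s : Finset I).orderEmbOfFin hs i) then
          μ (b ((s : Finset I).orderEmbOfFin hs i)) m else 0) =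
        ∑ j ∈ (s : Finset I), sg j ((s : Finset I).erase j) •
          (if G = (s : Finset I).erase j then μ (b j) m else 0) := by
      have : ∑ j ∈ (s : Finset I), sg j ((s : Finset I).erase j) •
          (if G = (s : Finset I).erase j then μ (b j) m else 0) =
          ∑ j ∈ (Finset.univ.map ((s : Finset I).orderEmbOfFin hs).toEmbedding),
            sg j ((s : Finset I).erase j) •
          (if G = (s : Finset I).erase j then μ (b j) m else 0) := by
        rw [Finset.map_orderEmbOfFin_univ]
      rw [this, Finset.sum_map]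
      apply Finset.sum_congr rfl
      intro i _
      simp only [RelEmbedding.coe_toEmbedding]
      rw [sg_emb]
    refine h1.trans ?_
    simp only [smul_ite, smul_zero]
    rw [← Finset.sum_filter]
    have h2 : ∑ i ∈ Gᶜ, sg i G • (μ (b i)) (if insert i G = (s : Finset I) then m else 0) =
        ∑ i ∈ Gᶜ with insert i G = (s : Finset I), sg i G • (μ (b i)) m := by
      rw [Finset.sum_filter]
      apply Finset.sum_congr rfl
      intro i _
      split_ifs <;> simp
    rw [h2]
    apply Finset.sum_congr
    · ext j
      simp only [Finset.mem_filter, Finset.mem_compl]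
      constructor
      · rintro ⟨hj, rfl⟩
        exact ⟨Finset.notMem_erase _ _, Finset.insert_erase hj⟩
      · rintro ⟨hj, h⟩
        rw [← h]
        exact ⟨Finset.mem_insert_self _ _, (Finset.erase_insert hj).symm⟩
    · intro j hj
      simp only [Finset.mem_filter, Finset.mem_compl] at hj
      rw [← hj.2, Finset.erase_insert hj.1]

end Bridge

end Pool.Agent.Work.MP_c48073_ag
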