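import Mathlib

namespace Pool.Agent.Work.MP_c48073_ag

section Quot

variable {K X X' : Type} [Field K] [AddCommGroup X] [Module K X] [AddCommGroup X'] [Module K X']

/-- Comparison of subquotients along a linear map. -/
lemma finrank_quot_eq (Z B : Submodule K X) (Z' B' : Submodule K X') (Φ : X →ₗ[K] X')
    (h1 : ∀ z ∈ Z, Φ z ∈ Z') (h2 : ∀ z ∈ Z, Φ z ∈ B' ↔ z ∈ B)
    (h3 : ∀ y ∈ Z', ∃ z ∈ Z, y - Φ z ∈ B') :
    Module.finrank K (Z ⧸ B.submoduleOf Z) = Module.finrank K (Z' ⧸ B'.submoduleOf Z') := by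
  let φ : Z →ₗ[K] Z' := Φ.restrict h1
  have hle : B.submoduleOf Z ≤ (B'.submoduleOf Z').comap φ := by
    intro z hz
    rw [Submodule.mem_comap]
    exact (h2 z z.2).2 hz
  let ψ : (Z ⧸ B.submoduleOf Z) →ₗ[K] (Z' ⧸ B'.submoduleOf Z') := Submodule.mapQ _ _ φ hle
  have hinj : Function.Injective ψ := by
    rw [← LinearMap.ker_eq_bot, LinearMap.ker_eq_bot']
    intro x hx
    obtain ⟨z, rfl⟩ := Submodule.Quotient.mk_surjective _ x
    rw [Submodule.mapQ_apply, Submodule.Quotient.mk_eq_zero] at hx
    rw [Submodule.Quotient.mk_eq_zero]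
    exact (h2 z z.2).1 hx
  have hsurj : Function.Surjective ψ := by
    intro y
    obtain ⟨y, rfl⟩ := Submodule.Quotient.mk_surjective _ y
    obtain ⟨z, hz, hyz⟩ := h3 y y.2
    refine ⟨Submodule.Quotient.mk ⟨z, hz⟩, ?_⟩
    rw [Submodule.mapQ_apply, eq_comm, Submodule.Quotient.eq]
    exact hyz
  exact (LinearEquiv.ofBijective ψ ⟨hinj, hsurj⟩).finrank_eq

lemma finrank_eq_of_bij (Z : Submodule K X) (Z' : Submodule K X') (Φ : X →ₗ[K] X')
    (h1 : ∀ z ∈ Z, Φ z ∈ Z') (h2 : ∀ z ∈ Z, Φ z = 0 → z = 0)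
    (h3 : ∀ y ∈ Z', ∃ z ∈ Z, Φ z = y) :
    Module.finrank K Z = Module.finrank K Z' := by
  let φ : Z →ₗ[K] Z' := Φ.restrict h1
  have hinj : Function.Injective φ := by
    rw [← LinearMap.ker_eq_bot, LinearMap.ker_eq_bot']
    intro x hx
    have : Φ x = 0 := congrArg Subtype.val hx
    exact Subtype.ext (h2 x x.2 this)
  have hsurj : Function.Surjective φ := by
    intro y
    obtain ⟨z, hz, hyz⟩ := h3 y y.2
    exact ⟨⟨z, hz⟩, Subtype.ext hyz⟩
  exact (LinearEquiv.ofBijective φ ⟨hinj, hsurj⟩).finrank_eq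

/-- The cokernel of the transposed matrix has the dimension of the kernel. -/
lemma finrank_coker_transpose {α β : Type} [Fintype α] [Fintype β] [DecidableEq α]
    [DecidableEq β] (M : (α → K) →ₗ[K] (β → K)) (N : (β → K) →ₗ[K] (α → K))
    (h : ∀ a b, M (Pi.single a 1) b = N (Pi.single b 1) a) :
    Module.finrank K ((⊤ : Submodule K (α → K)) ⧸
      (LinearMap.range N).submoduleOf (⊤ : Submodule K (α → K))) =
    Module.finrank K (LinearMap.ker M) := by
  have e1 : Module.finrank K ((⊤ : Submodule K (α → K)) ⧸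
      (LinearMap.range N).submoduleOf (⊤ : Submodule K (α → K))) =
      Module.finrank K ((α → K) ⧸ LinearMap.range N) := by
    have := finrank_quot_eq (K := K) (⊤ : Submodule K (α → K)) (LinearMap.range N)
      (⊤ : Submodule K (α → K)) (LinearMap.range N) LinearMap.id (by simp) (by simp)
      (fun y _ => ⟨y, trivial, by simp⟩)
    have h2 := Submodule.finrank_quotient_add_finrank
      ((LinearMap.range N).submoduleOf (⊤ : Submodule K (α → K)))
    have h3 := Submodule.finrank_quotient_add_finrank (LinearMap.range N)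
    have h4 : Module.finrank K ((LinearMap.range N).submoduleOf (⊤ : Submodule K (α → K))) =
        Module.finrank K (LinearMap.range N) := by
      exact (Submodule.submoduleOfEquivOfLe le_top).finrank_eq
    rw [finrank_top] at h2
    omega
  rw [e1]
  have hMN : LinearMap.toMatrix' N = (LinearMap.toMatrix' M).transpose := by
    ext a b
    rw [Matrix.transpose_apply, LinearMap.toMatrix'_apply, LinearMap.toMatrix'_apply, h a b]
  have hr : Module.finrank K (LinearMap.range N) = Module.finrank K (LinearMap.range M) := by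
    have h1 : (LinearMap.toMatrix' N).rank = Module.finrank K (LinearMap.range N) := by
      rw [Matrix.rank, ← Matrix.toLin'_apply', Matrix.toLin'_toMatrix']
    have h2 : (LinearMap.toMatrix' M).rank = Module.finrank K (LinearMap.range M) := by
      rw [Matrix.rank, ← Matrix.toLin'_apply', Matrix.toLin'_toMatrix']
    rw [← h1, ← h2, hMN, Matrix.rank_transpose]
  have h3 := Submodule.finrank_quotient_add_finrank (LinearMap.range N)
  have h4 := LinearMap.finrank_range_add_finrank_ker M
  omega

end Quot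

end Pool.Agent.Work.MP_c48073_ag
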