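import Pool.Agent.Work.MP_c48073_ag.Koszul
import Pool.Agent.Work.MP_c48073_ag.Quot

/-!
Dimension shifting for multigraded Koszul homology: from the positive orthant to the negative
orthant.
-/

namespace Pool.Agent.Work.MP_c48073_ag

open Finset

section Cech

open Classical in
/-- truncated shift by `v` on functions on the lattice -/
noncomputable def Tr {n : ℕ} (A : Set (Fin (n + 1) → ℤ)) (v : Fin (n + 1) → ℤ) :
    ((Fin (n + 1) → ℤ) → ℂ) →ₗ[ℂ] ((Fin (n + 1) → ℤ) → ℂ) where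
  toFun g c := if c ∈ A ∧ c - v ∈ A then g (c - v) else 0
  map_add' f g := by ext c; by_cases h : c ∈ A ∧ c - v ∈ A <;> simp [h]
  map_smul' a g := by ext c; by_cases h : c ∈ A ∧ c - v ∈ A <;> simp [h]

variable {n : ℕ}

lemma Tr_apply_of {A : Set (Fin (n + 1) → ℤ)} {v c : Fin (n + 1) → ℤ}
    (g : (Fin (n + 1) → ℤ) → ℂ) (h1 : c ∈ A) (h2 : c - v ∈ A) : Tr A v g c = g (c - v) := by
  simp [Tr, h1, h2]

lemma Tr_apply_of_notMem {A : Set (Fin (n + 1) → ℤ)} {v c : Fin (n + 1) → ℤ}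
    (g : (Fin (n + 1) → ℤ) → ℂ) (h : ¬ (c ∈ A ∧ c - v ∈ A)) : Tr A v g c = 0 := by
  simp only [Tr, LinearMap.coe_mk, AddHom.coe_mk, if_neg h]

lemma Tr_comm {A : Set (Fin (n + 1) → ℤ)} (hA : A.OrdConnected) {v w : Fin (n + 1) → ℤ}
    (hv : 0 ≤ v) (hw : 0 ≤ w) (g : (Fin (n + 1) → ℤ) → ℂ) :
    Tr A v (Tr A w g) = Tr A w (Tr A v g) := by
  classical
  ext c
  have key : ∀ v w : Fin (n + 1) → ℤ, 0 ≤ v → 0 ≤ w →
      Tr A v (Tr A w g) c = if c ∈ A ∧ c - v - w ∈ A then g (c - v - w) else 0 := by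
    intro v w hv hw
    by_cases h : c ∈ A ∧ c - v - w ∈ A
    · have h1 : c - v ∈ A := hA.out h.2 h.1 ⟨sub_le_self _ hw, sub_le_self _ hv⟩
      rw [Tr_apply_of _ h.1 h1, Tr_apply_of _ h1 h.2, if_pos h]
    · rw [if_neg h]
      by_cases h1 : c ∈ A ∧ c - v ∈ A
      · rw [Tr_apply_of _ h1.1 h1.2, Tr_apply_of_notMem]
        exact fun h2 => h ⟨h1.1, h2.2⟩
      · rw [Tr_apply_of_notMem _ h1]
  rw [key v w hv hw, key w v hw hv, sub_right_comm]

variable {I : Type} [LinearOrder I] [Fintype I] (α : I → Fin (n + 1) → ℤ)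

/-- truncated Koszul differential -/
noncomputable def DA (A : Set (Fin (n + 1) → ℤ)) :
    (Finset I → (Fin (n + 1) → ℤ) → ℂ) →ₗ[ℂ] (Finset I → (Fin (n + 1) → ℤ) → ℂ) :=
  kd (fun i => Tr A (α i))

lemma DA_apply (A : Set (Fin (n + 1) → ℤ)) (f : Finset I → (Fin (n + 1) → ℤ) → ℂ)
    (G : Finset I) (c : Fin (n + 1) → ℤ) :
    DA α A f G c = ∑ i ∈ Gᶜ, sg i G • Tr A (α i) (f (insert i G)) c := by
  rw [DA, kd_apply, Finset.sum_apply]
  rfl

lemma DA_apply_notMem (A : Set (Fin (n + 1) → ℤ)) (f : Finset I → (Fin (n + 1) → ℤ) → ℂ)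
    (G : Finset I) (c : Fin (n + 1) → ℤ) (hc : c ∉ A) : DA α A f G c = 0 := by
  rw [DA_apply]
  apply Finset.sum_eq_zero
  intro i _
  rw [Tr_apply_of_notMem _ (fun h => hc h.1), smul_zero]

variable {α}

lemma DA_DA (hα : ∀ i, 0 ≤ α i) {A : Set (Fin (n + 1) → ℤ)} (hA : A.OrdConnected)
    (f : Finset I → (Fin (n + 1) → ℤ) → ℂ) : DA α A (DA α A f) = 0 :=
  kd_kd _ _ (fun i j x => Tr_comm hA (hα i) (hα j) x) f

/-- chains of homological degree `p`, total degree `m`, supported in `A` -/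
def YA (I : Type) (A : Set (Fin (n + 1) → ℤ)) (p : ℕ) (m : ℤ) :
    Submodule ℂ (Finset I → (Fin (n + 1) → ℤ) → ℂ) where
  carrier := {f | ∀ F c, f F c ≠ 0 → F.card = p ∧ c ∈ A ∧ ∑ i, c i = m}
  add_mem' := by
    intro f g hf hg F c h
    by_cases h1 : f F c = 0
    · apply hg F c
      intro h2
      exact h (by simp [h1, h2])
    · exact hf F c h1
  zero_mem' := by intro F c h; exact absurd rfl h
  smul_mem' := by
    intro a f hf F c h
    apply hf F c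
    intro h1
    exact h (by simp [h1])

lemma mem_YA {A : Set (Fin (n + 1) → ℤ)} {p : ℕ} {m : ℤ}
    {f : Finset I → (Fin (n + 1) → ℤ) → ℂ} :
    f ∈ YA I A p m ↔ ∀ F c, f F c ≠ 0 → F.card = p ∧ c ∈ A ∧ ∑ i, c i = m := Iff.rfl

lemma YA_mono {A B : Set (Fin (n + 1) → ℤ)} (h : A ⊆ B) (p : ℕ) (m : ℤ) :
    YA I A p m ≤ YA I B p m := fun _ hf F c hc =>
  ⟨(hf F c hc).1, h (hf F c hc).2.1, (hf F c hc).2.2⟩

lemma DA_mem {d : ℤ} (hd : ∀ i, ∑ j, α i j = d) {A : Set (Fin (n + 1) → ℤ)} {p : ℕ} {m : ℤ}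
    {f : Finset I → (Fin (n + 1) → ℤ) → ℂ} (hf : f ∈ YA I A (p + 1) m) :
    DA α A f ∈ YA I A p (m + d) := by
  intro G c hne
  by_cases hc : c ∈ A
  · rw [DA_apply] at hne
    obtain ⟨i, hi, hne⟩ := Finset.exists_ne_zero_of_sum_ne_zero hne
    have h2 : Tr A (α i) (f (insert i G)) c ≠ 0 := fun h => hne (by rw [h, smul_zero])
    have h3 : c ∈ A ∧ c - α i ∈ A := by
      by_contra h; exact h2 (Tr_apply_of_notMem _ h)
    rw [Tr_apply_of _ h3.1 h3.2] at h2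
    obtain ⟨h4, _, h5⟩ := hf _ _ h2
    rw [Finset.card_insert_of_notMem (by simpa using hi)] at h4
    refine ⟨by omega, hc, ?_⟩
    simp only [Pi.sub_apply, Finset.sum_sub_distrib] at h5
    rw [hd i] at h5
    omega
  · exact absurd (DA_apply_notMem α A f G c hc) hne

/-- homotopy -/
noncomputable def hU {N : Type} [AddCommGroup N] [Module ℂ N] (i0 : I) (U : N →ₗ[ℂ] N) :
    (Finset I → N) →ₗ[ℂ] (Finset I → N) where
  toFun f G := if i0 ∈ G then sg i0 (G.erase i0) • U (f (G.erase i0)) else 0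
  map_add' f g := by ext G; by_cases h : i0 ∈ G <;> simp [h]
  map_smul' a g := by ext G; by_cases h : i0 ∈ G <;> simp [h, smul_comm a]

lemma hU_apply {N : Type} [AddCommGroup N] [Module ℂ N] (i0 : I) (U : N →ₗ[ℂ] N)
    (f : Finset I → N) (G : Finset I) :
    hU i0 U f G = if i0 ∈ G then sg i0 (G.erase i0) • U (f (G.erase i0)) else 0 := rfl

lemma kd_hU {N : Type} [AddCommGroup N] [Module ℂ N] (i0 : I) (U : N →ₗ[ℂ] N)
    (T : I → N →ₗ[ℂ] N) (hc : ∀ i x, T i (U x) = U (T i x)) (f : Finset I → N)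
    (hf : ∀ G, T i0 (U (f G)) = f G) :
    kd T (hU i0 U f) + hU i0 U (kd T f) = f := by
  ext G
  rw [Pi.add_apply, hU_apply, kd_apply]
  by_cases h0 : i0 ∈ G
  · rw [if_pos h0, kd_apply]
    set G' := G.erase i0 with hG'
    have hG : G = insert i0 G' := (Finset.insert_erase h0).symm
    have hn : i0 ∉ G' := Finset.notMem_erase _ _
    have hin : i0 ∈ G'ᶜ := by simp [hn]
    rw [← Finset.add_sum_erase _ _ hin]
    have hset : G'ᶜ.erase i0 = Gᶜ := by
      rw [hG, Finset.compl_insert]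
    rw [hset, ← hG, map_add, map_zsmul, smul_add, smul_smul, sg_mul_self, one_smul, ← hc, hf,
      map_sum, Finset.smul_sum, add_comm (f G), ← add_assoc, ← Finset.sum_add_distrib]
    rw [Finset.sum_eq_zero, zero_add]
    intro i hi
    rw [Finset.mem_compl] at hi
    have hi0 : i0 ≠ i := fun h => hi (h ▸ h0)
    have hi' : i ∉ G' := fun h => hi (Finset.mem_of_mem_erase h)
    rw [hU_apply, if_pos (Finset.mem_insert_of_mem h0)]
    have her : (insert i G).erase i0 = insert i G' := by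
      rw [hG, Finset.insert_comm, Finset.erase_insert]
      simp [hi0, hn]
    rw [her, map_zsmul, hc, map_zsmul, smul_smul, smul_smul, ← add_smul]
    have hs := sg_swap hi0 hn hi'
    rw [← hG] at hs
    have hkey : sg i G * sg i0 (insert i G') = - (sg i0 G' * sg i G') := by
      have h1 := sg_mul_self i G'
      have h2 := sg_mul_self i G
      calc sg i G * sg i0 (insert i G')
          = (sg i G' * sg i G') * (sg i G * sg i0 (insert i G')) := by rw [h1, one_mul]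
        _ = (sg i G' * sg i0 (insert i G')) * (sg i G * sg i G') := by ring
        _ = -(sg i0 G' * sg i G) * (sg i G * sg i G') := by rw [hs]
        _ = -(sg i0 G' * sg i G') * (sg i G * sg i G) := by ring
        _ = - (sg i0 G' * sg i G') := by rw [h2, mul_one]
    rw [hkey, neg_add_cancel, zero_smul]
  · rw [if_neg h0, add_zero]
    have hin : i0 ∈ Gᶜ := by simp [h0]
    rw [← Finset.add_sum_erase _ _ hin, hU_apply, if_pos (Finset.mem_insert_self _ _),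
      Finset.erase_insert h0, map_zsmul, smul_smul, sg_mul_self, one_smul, hf,
      Finset.sum_eq_zero, add_zero]
    intro i hi
    rw [Finset.mem_erase, Finset.mem_compl] at hi
    rw [hU_apply, if_neg (by simp [h0, Ne.symm hi.1]), map_zero, smul_zero]

open Classical in
/-- restriction of chains to `A` -/
noncomputable def ind (I : Type) (A : Set (Fin (n + 1) → ℤ)) :
    (Finset I → (Fin (n + 1) → ℤ) → ℂ) →ₗ[ℂ] (Finset I → (Fin (n + 1) → ℤ) → ℂ) where
  toFun f F c := if c ∈ A then f F c else 0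
  map_add' f g := by ext F c; by_cases h : c ∈ A <;> simp [h]
  map_smul' a g := by ext F c; by_cases h : c ∈ A <;> simp [h]

lemma ind_apply_mem {A : Set (Fin (n + 1) → ℤ)} (f : Finset I → (Fin (n + 1) → ℤ) → ℂ)
    (F : Finset I) {c : Fin (n + 1) → ℤ} (h : c ∈ A) : ind I A f F c = f F c := by
  simp [ind, h]

lemma ind_apply_notMem {A : Set (Fin (n + 1) → ℤ)} (f : Finset I → (Fin (n + 1) → ℤ) → ℂ)
    (F : Finset I) {c : Fin (n + 1) → ℤ} (h : c ∉ A) : ind I A f F c = 0 := by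
  simp [ind, h]

lemma ind_mem {A B : Set (Fin (n + 1) → ℤ)} {p : ℕ} {m : ℤ}
    {f : Finset I → (Fin (n + 1) → ℤ) → ℂ} (hf : f ∈ YA I B p m) : ind I A f ∈ YA I A p m := by
  intro F c h
  by_cases hc : c ∈ A
  · rw [ind_apply_mem f F hc] at h
    exact ⟨(hf F c h).1, hc, (hf F c h).2.2⟩
  · exact absurd (ind_apply_notMem f F hc) h

/-- The mixed orthant. -/
def Aj (n j : ℕ) : Set (Fin (n + 1) → ℤ) :=
  {c | ∀ i, (i.val < j → c i < 0) ∧ (j ≤ i.val → 0 ≤ c i)}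

/-- The union of two neighbouring orthants. -/
def Lj (n j : ℕ) : Set (Fin (n + 1) → ℤ) :=
  {c | ∀ i, (i.val < j → c i < 0) ∧ (j < i.val → 0 ≤ c i)}

lemma Aj_ordConnected (n j : ℕ) : (Aj n j).OrdConnected := by
  constructor
  intro x hx y hy z hz i
  exact ⟨fun h => lt_of_le_of_lt (hz.2 i) ((hy i).1 h), fun h => le_trans ((hx i).2 h) (hz.1 i)⟩

lemma Lj_ordConnected (n j : ℕ) : (Lj n j).OrdConnected := by
  constructor
  intro x hx y hy z hz i
  exact ⟨fun h => lt_of_le_of_lt (hz.2 i) ((hy i).1 h), fun h => le_trans ((hx i).2 h) (hz.1 i)⟩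

lemma Aj_sub_Lj (n j : ℕ) : Aj n j ⊆ Lj n j := fun _ hc i =>
  ⟨(hc i).1, fun h => (hc i).2 h.le⟩

lemma Aj_succ_sub_Lj (n j : ℕ) : Aj n (j + 1) ⊆ Lj n j := fun _ hc i =>
  ⟨fun h => (hc i).1 (by omega), fun h => (hc i).2 h⟩

/-- description of the two halves of `Lj` -/
lemma mem_Aj_iff {j : ℕ} (hj : j < n + 1) {c : Fin (n + 1) → ℤ} (hc : c ∈ Lj n j) :
    c ∈ Aj n j ↔ 0 ≤ c ⟨j, hj⟩ := by
  constructor
  · intro h
    exact (h ⟨j, hj⟩).2 le_rfl
  · intro h i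
    refine ⟨(hc i).1, fun hi => ?_⟩
    rcases eq_or_lt_of_le hi with h1 | h1
    · have : i = ⟨j, hj⟩ := Fin.ext h1.symm
      rw [this]; exact h
    · exact (hc i).2 h1

lemma mem_Aj_succ_iff {j : ℕ} (hj : j < n + 1) {c : Fin (n + 1) → ℤ} (hc : c ∈ Lj n j) :
    c ∈ Aj n (j + 1) ↔ c ⟨j, hj⟩ < 0 := by
  constructor
  · intro h
    exact (h ⟨j, hj⟩).1 (Nat.lt_succ_self j)
  · intro h i
    refine ⟨fun hi => ?_, fun hi => (hc i).2 hi⟩
    rcases eq_or_lt_of_le (Nat.lt_succ_iff.mp hi) with h1 | h1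
    · have : i = ⟨j, hj⟩ := Fin.ext h1
      rw [this]; exact h
    · exact (hc i).1 h1

variable (α) in
/-- cycles -/
noncomputable def ZA (A : Set (Fin (n + 1) → ℤ)) (p : ℕ) (m : ℤ) :
    Submodule ℂ (Finset I → (Fin (n + 1) → ℤ) → ℂ) := YA I A p m ⊓ LinearMap.ker (DA α A)

variable (α) in
/-- boundaries -/
noncomputable def BA (d : ℤ) (A : Set (Fin (n + 1) → ℤ)) (p : ℕ) (m : ℤ) :
    Submodule ℂ (Finset I → (Fin (n + 1) → ℤ) → ℂ) := (YA I A (p + 1) (m - d)).map (DA α A)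

variable (α) in
/-- homology dimension -/
noncomputable def HA (d : ℤ) (A : Set (Fin (n + 1) → ℤ)) (p : ℕ) (m : ℤ) : ℕ :=
  Module.finrank ℂ (ZA α A p m ⧸ (BA α d A p m).submoduleOf (ZA α A p m))

/-- On chains supported in `Aj`, the differentials for `Lj` and `Aj` agree. -/
lemma DA_Lj_of_Aj (hα : ∀ i, 0 ≤ α i) {j : ℕ} (hj : j < n + 1) {p : ℕ} {m : ℤ}
    {f : Finset I → (Fin (n + 1) → ℤ) → ℂ} (hf : f ∈ YA I (Aj n j) p m) :
    DA α (Lj n j) f = DA α (Aj n j) f := by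
  ext G c
  rw [DA_apply, DA_apply]
  apply Finset.sum_congr rfl
  intro i _
  congr 1
  by_cases h0 : f (insert i G) (c - α i) = 0
  · have e1 : ∀ A, Tr A (α i) (f (insert i G)) c = 0 := by
      intro A
      by_cases h : c ∈ A ∧ c - α i ∈ A
      · rw [Tr_apply_of _ h.1 h.2, h0]
      · rw [Tr_apply_of_notMem _ h]
    rw [e1, e1]
  · have h1 := (hf _ _ h0).2.1
    by_cases hc : c ∈ Lj n j
    · have hc' : c ∈ Aj n j := by
        rw [mem_Aj_iff hj hc]
        have h2 := (mem_Aj_iff hj (Aj_sub_Lj n j h1)).1 h1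
        have h3 := hα i ⟨j, hj⟩
        simp only [Pi.sub_apply, Pi.zero_apply] at h2 h3
        omega
      rw [Tr_apply_of _ hc (Aj_sub_Lj n j h1), Tr_apply_of _ hc' h1]
    · rw [Tr_apply_of_notMem _ (fun h => hc h.1),
        Tr_apply_of_notMem _ (fun h => hc (Aj_sub_Lj n j h.1))]

/-- The `A_{j+1}` part of the differential of a chain only depends on its `A_{j+1}` part. -/
lemma ind_DA_Lj (hα : ∀ i, 0 ≤ α i) {j : ℕ} (hj : j < n + 1)
    (f : Finset I → (Fin (n + 1) → ℤ) → ℂ) :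
    ind I (Aj n (j + 1)) (DA α (Lj n j) f) =
      DA α (Aj n (j + 1)) (ind I (Aj n (j + 1)) f) := by
  ext G c
  by_cases hc : c ∈ Aj n (j + 1)
  · rw [ind_apply_mem _ _ hc, DA_apply, DA_apply]
    apply Finset.sum_congr rfl
    intro i _
    congr 1
    have hcL := Aj_succ_sub_Lj n j hc
    by_cases h : c - α i ∈ Lj n j
    · have h' : c - α i ∈ Aj n (j + 1) := by
        rw [mem_Aj_succ_iff hj h]
        have h2 := (mem_Aj_succ_iff hj hcL).1 hc
        have h3 := hα i ⟨j, hj⟩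
        simp only [Pi.sub_apply, Pi.zero_apply] at h2 h3 ⊢
        omega
      rw [Tr_apply_of _ hcL h, Tr_apply_of _ hc h', ind_apply_mem _ _ h']
    · rw [Tr_apply_of_notMem _ (fun h' => h h'.2),
        Tr_apply_of_notMem _ (fun h' => h (Aj_succ_sub_Lj n j h'.2))]
  · rw [ind_apply_notMem _ _ hc, DA_apply_notMem _ _ _ _ _ hc]

open Classical in
/-- the inverse shift on `Lj` -/
noncomputable def Uj (n j : ℕ) (v : Fin (n + 1) → ℤ) :
    ((Fin (n + 1) → ℤ) → ℂ) →ₗ[ℂ] ((Fin (n + 1) → ℤ) → ℂ) where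
  toFun g c := if c ∈ Lj n j then g (c + v) else 0
  map_add' f g := by ext c; by_cases h : c ∈ Lj n j <;> simp [h]
  map_smul' a g := by ext c; by_cases h : c ∈ Lj n j <;> simp [h]

lemma Uj_apply_mem {j : ℕ} {v : Fin (n + 1) → ℤ} (g : (Fin (n + 1) → ℤ) → ℂ)
    {c : Fin (n + 1) → ℤ} (h : c ∈ Lj n j) : Uj n j v g c = g (c + v) := by
  simp [Uj, h]

lemma Uj_apply_notMem {j : ℕ} {v : Fin (n + 1) → ℤ} (g : (Fin (n + 1) → ℤ) → ℂ)
    {c : Fin (n + 1) → ℤ} (h : c ∉ Lj n j) : Uj n j v g c = 0 := by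
  simp [Uj, h]

/-- membership in `Lj` does not depend on coordinate `j` -/
lemma Lj_shift {j : ℕ} (hj : j < n + 1) (t : ℤ) (c : Fin (n + 1) → ℤ) :
    c + Pi.single ⟨j, hj⟩ t ∈ Lj n j ↔ c ∈ Lj n j := by
  unfold Lj
  simp only [Set.mem_ofPred_eq]
  apply forall_congr'
  intro i
  by_cases hi : i = ⟨j, hj⟩
  · subst hi
    simp
  · simp [Pi.single_eq_of_ne hi]

lemma Tr_Uj_comm {j : ℕ} (hj : j < n + 1) (t : ℤ) (w : Fin (n + 1) → ℤ)
    (g : (Fin (n + 1) → ℤ) → ℂ) :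
    Tr (Lj n j) w (Uj n j (Pi.single ⟨j, hj⟩ t) g) =
      Uj n j (Pi.single ⟨j, hj⟩ t) (Tr (Lj n j) w g) := by
  ext c
  by_cases hc : c ∈ Lj n j
  · rw [Uj_apply_mem _ hc]
    have h1 : c + Pi.single ⟨j, hj⟩ t ∈ Lj n j := (Lj_shift hj t c).2 hc
    by_cases h : c - w ∈ Lj n j
    · have h2 : c + Pi.single ⟨j, hj⟩ t - w ∈ Lj n j := by
        rw [add_sub_right_comm]; exact (Lj_shift hj t _).2 h
      rw [Tr_apply_of _ hc h, Tr_apply_of _ h1 h2, Uj_apply_mem _ h, add_sub_right_comm]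
    · have h2 : c + Pi.single ⟨j, hj⟩ t - w ∉ Lj n j := by
        rw [add_sub_right_comm]; exact fun h' => h ((Lj_shift hj t _).1 h')
      rw [Tr_apply_of_notMem _ (fun h' => h h'.2), Tr_apply_of_notMem _ (fun h' => h2 h'.2)]
  · rw [Uj_apply_notMem _ hc, Tr_apply_of_notMem _ (fun h => hc h.1)]

lemma Tr_Uj {j : ℕ} (hj : j < n + 1) (t : ℤ) (g : (Fin (n + 1) → ℤ) → ℂ)
    (hg : ∀ c, g c ≠ 0 → c ∈ Lj n j) :
    Tr (Lj n j) (Pi.single ⟨j, hj⟩ t) (Uj n j (Pi.single ⟨j, hj⟩ t) g) = g := by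
  ext c
  by_cases hc : c ∈ Lj n j
  · have h : c - Pi.single ⟨j, hj⟩ t ∈ Lj n j := by
      have := (Lj_shift hj t (c - Pi.single ⟨j, hj⟩ t))
      rw [sub_add_cancel] at this
      exact this.1 hc
    rw [Tr_apply_of _ hc h, Uj_apply_mem _ h, sub_add_cancel]
  · rw [Tr_apply_of_notMem _ (fun h => hc h.1)]
    by_contra h
    exact hc (hg c (Ne.symm h))

lemma hU_mem {j : ℕ} (hj : j < n + 1) {d : ℤ} (i0 : I) {p : ℕ} {m : ℤ}
    {f : Finset I → (Fin (n + 1) → ℤ) → ℂ} (hf : f ∈ YA I (Lj n j) p m) :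
    hU i0 (Uj n j (Pi.single ⟨j, hj⟩ d)) f ∈ YA I (Lj n j) (p + 1) (m - d) := by
  intro G c hne
  rw [hU_apply] at hne
  by_cases h0 : i0 ∈ G
  · rw [if_pos h0] at hne
    have h1 : (Uj n j (Pi.single ⟨j, hj⟩ d)) (f (G.erase i0)) c ≠ 0 := by
      intro h
      apply hne
      rw [Pi.smul_apply, h, smul_zero]
    have hc : c ∈ Lj n j := by
      by_contra h
      exact h1 (Uj_apply_notMem _ h)
    rw [Uj_apply_mem _ hc] at h1
    obtain ⟨h2, _, h3⟩ := hf _ _ h1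
    refine ⟨?_, hc, ?_⟩
    · rw [Finset.card_erase_of_mem h0] at h2
      have := Finset.card_pos.2 ⟨i0, h0⟩
      omega
    · simp only [Pi.add_apply, Finset.sum_add_distrib] at h3
      rw [Finset.sum_pi_single'] at h3
      simp only [Finset.mem_univ, if_true] at h3
      omega
  · rw [if_neg h0] at hne
    exact absurd rfl hne

end Cech

end Pool.Agent.Work.MP_c48073_ag
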