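import Pool.Agent.Work.MP_c48073_ag.WSpace

namespace Pool.Agent.Work.MP_c48073_ag

open Finset MvPolynomial

section Constraint

variable {n d k : ℕ} {I : Type} [LinearOrder I] [Fintype I] (grp : Fin (n + 1) → Fin 3)

omit [LinearOrder I] [Fintype I] in
lemma mulForms_coe (v : Forms n d) (g : Forms n k) :
    ((mulForms n d k v g : Forms n (k + d)) : MvPolynomial (Fin (n + 1)) ℂ) = g.1 * v.1 := rfl

lemma vanish {e s : ℕ} {a : I → Fin (n + 1) →₀ ℕ} {x : I → Fin (n + 1) → ℂ}
    {b : Module.Basis I ℂ (Forms n d)} (hb : GoodBasis grp e a x b) {pos : I → ℕ}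
    (hpos : ∀ i j, (∃ τ, inM grp e τ (a i)) → (¬ ∃ τ, inM grp e τ (a j)) → pos i < pos j)
    {F : Finset I} {α : Mon n k} {f : Finset I → Forms n k} (hf : f ∈ WS b k s)
    (hmax : ∀ η, keyX pos (F, α) < keyX pos η → cf η f = 0) {τ : Fin 3}
    (hτ : gdeg grp τ α.1 < e) {i : I} (hi : i ∈ F) (hiM : inM grp e τ (a i)) :
    lam grp τ (x i) (wt grp τ α.1) (f F).1 = 0 := by
  obtain ⟨_, h0⟩ := hf
  have h1 := congrFun h0 (F.erase i)
  rw [kd_apply, Pi.zero_apply] at h1
  have h2 := congrArg (fun g : Forms n (k + d) =>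
    lam grp τ (x i) (wt grp τ (a i) + wt grp τ α.1) g.1) h1
  simp only [Submodule.coe_sum, Submodule.coe_zero, map_sum, map_zero] at h2
  have hin : i ∈ (F.erase i)ᶜ := by simp
  rw [← Finset.add_sum_erase _ _ hin, Finset.sum_eq_zero, add_zero, Finset.insert_erase hi] at h2
  · have h3 : ((sg i (F.erase i) • (mulForms n d k (b i)) (f F) : Forms n (k + d)) :
        MvPolynomial (Fin (n + 1)) ℂ) = sg i (F.erase i) • ((f F).1 * (b i).1) := rfl
    rw [h3, map_zsmul, lam_mul grp τ (x i) (wt grp τ α.1) (wt grp τ (a i)) (b i).1 (f F).1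
      (fun β hβ => wt_of_inM grp ((hb τ i hiM).1 β hβ) hiM), (hb τ i hiM).2.1, one_mul] at h2
    have h4 := congrArg (fun z : ℂ => sg i (F.erase i) • z) h2
    simp only [smul_smul, sg_mul_self, one_smul, smul_zero] at h4
    exact h4
  · intro j hj
    rw [Finset.mem_erase, Finset.mem_compl] at hj
    obtain ⟨hji, hjG⟩ := hj
    have h3 : ((sg j (F.erase i) • (mulForms n d k (b j)) (f (insert j (F.erase i))) :
        Forms n (k + d)) : MvPolynomial (Fin (n + 1)) ℂ) =
        sg j (F.erase i) • ((f (insert j (F.erase i))).1 * (b j).1) := rfl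
    rw [h3, map_zsmul]
    by_cases hjM : ∃ τ', inM grp e τ' (a j)
    · obtain ⟨τ', hτ'⟩ := hjM
      by_cases hττ : τ' = τ
      · subst hττ
        rw [lam_mul grp τ' (x i) (wt grp τ' α.1) (wt grp τ' (a i)) (b j).1 _
          (fun β hβ => wt_of_inM grp ((hb τ' j hτ').1 β hβ) hiM),
          (hb τ' j hτ').2.2 i hiM (Ne.symm hji), zero_mul, smul_zero]
      · rw [lam_mul_eq_zero, smul_zero]
        intro β hβ γ heq
        have h5 := ((hb τ' j hτ').1 β hβ).2 τ (Ne.symm hττ)
        rw [← wt_add] at heq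
        have h6 := gdeg_of_wt grp heq
        rw [gdeg_add, gdeg_add, hiM.1] at h6
        omega
    · have hlt : wF pos F < wF pos (insert j (F.erase i)) := by
        have e1 : wF pos F = 2 ^ pos i + wF pos (F.erase i) := by
          rw [← wF_insert (Finset.notMem_erase _ _), Finset.insert_erase hi]
        rw [e1, wF_insert hjG]
        have := Nat.pow_lt_pow_right (a := 2) (by norm_num) (hpos i j ⟨τ, hiM⟩ hjM)
        omega
      have h5 : f (insert j (F.erase i)) = 0 := by
        apply forms_eq_zero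
        intro β
        exact hmax (insert j (F.erase i), β) (keyX_lt_of_wF α β hlt)
      rw [h5]
      simp

open Classical in
theorem block_constraint {e s : ℕ} {a : I → Fin (n + 1) →₀ ℕ} {x : I → Fin (n + 1) → ℂ}
    {U : Finset (Fin (n + 1) →₀ ℕ)} (hx : GenericPts x U)
    (hU : ∀ β : Fin (n + 1) →₀ ℕ, β.degree = k → β ∈ U)
    {b : Module.Basis I ℂ (Forms n d)} (hb : GoodBasis grp e a x b) {pos : I → ℕ}
    (hpos : ∀ i j, (∃ τ, inM grp e τ (a i)) → (¬ ∃ τ, inM grp e τ (a j)) → pos i < pos j)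
    {F : Finset I} {α : Mon n k} (h : Ld b pos k s (F, α)) {τ : Fin 3}
    (hτ : gdeg grp τ α.1 < e) :
    (F.filter (fun i => inM grp e τ (a i))).card <
      (univ.filter (fun β : Mon n k => wt grp τ β.1 = wt grp τ α.1)).card := by
  obtain ⟨f, hf, hne, hmax⟩ := h
  by_contra hcon
  rw [not_lt] at hcon
  apply hne
  change coeff α.1 (f F).1 = 0
  set M := (univ.filter (fun β : Mon n k => wt grp τ β.1 = wt grp τ α.1)).map
    (Function.Embedding.subtype _) with hM
  apply hx M _ (F.filter (fun i => inM grp e τ (a i))) _ (fun β => coeff β (f F).1)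
  · intro i hi
    rw [mem_filter] at hi
    have hv := vanish grp hb hpos hf hmax hτ hi.1 hi.2
    rw [lam_eq_sum grp τ (x i) (wt grp τ α.1) (f F).1
      ((univ : Finset (Mon n k)).map (Function.Embedding.subtype _))] at hv
    · have hset : (((univ : Finset (Mon n k)).map (Function.Embedding.subtype _)).filter
          (fun β => wt grp τ β = wt grp τ α.1)) = M := by
        ext β
        simp only [hM, mem_filter, mem_map, mem_univ, true_and,
          Function.Embedding.subtype_apply]
        constructor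
        · rintro ⟨⟨γ, rfl⟩, hw⟩
          exact ⟨γ, hw, rfl⟩
        · rintro ⟨γ, hw, rfl⟩
          exact ⟨⟨γ, rfl⟩, hw⟩
      rw [hset] at hv
      exact hv
    · intro β hβ
      rw [mem_support_iff] at hβ
      rw [mem_map]
      refine ⟨⟨β, ?_⟩, mem_univ _, rfl⟩
      by_contra hd
      exact hβ (IsHomogeneous.coeff_eq_zero (f F).2 hd)
  · rw [hM, mem_map]
    exact ⟨α, by rw [mem_filter]; exact ⟨mem_univ _, rfl⟩, rfl⟩
  · intro β hβ
    rw [hM, mem_map] at hβ
    obtain ⟨γ, _, rfl⟩ := hβ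
    exact hU _ γ.2
  · rw [hM, Finset.card_map]
    exact hcon

end Constraint

end Pool.Agent.Work.MP_c48073_ag
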