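import Pool.Agent.Work.MP_c48073_ag.Lym

/-!
Cardinalities for nine variables in three groups of three.
-/

namespace Pool.Agent.Work.MP_c48073_ag

open Finset MvPolynomial

section Count

/-- nine variables as three groups of three -/
def E9 : Fin 3 × Fin 3 ≃ Fin (8 + 1) := finProdFinEquiv

/-- the group of a variable -/
def grp9 (i : Fin (8 + 1)) : Fin 3 := (E9.symm i).1

/-- number of monomials of degree `m` in three variables -/
def c3 (m : ℕ) : ℕ := (m + 2).choose 2

lemma two_c3 (m : ℕ) : 2 * c3 m = (m + 1) * (m + 2) := by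
  unfold c3
  rw [Nat.choose_two_right]
  have h : 2 ∣ (m + 2) * (m + 2 - 1) := (Nat.even_mul_pred_self (m + 2)).two_dvd
  rw [Nat.mul_div_cancel' h]
  have : m + 2 - 1 = m + 1 := by omega
  rw [this]
  ring

lemma card_anti (m : ℕ) : (Finset.finsuppAntidiag (univ : Finset (Fin 3)) m).card = c3 m := by
  rw [Finset.card_finsuppAntidiag_nat_eq_multichoose, Finset.card_univ, Fintype.card_fin,
    Nat.multichoose_eq]
  have : 3 + m - 1 = m + 2 := by omega
  rw [this]
  unfold c3
  exact Nat.choose_symm_add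

/-- the part of a monomial in one group -/
noncomputable def part3 (t : Fin 3) (β : Fin (8 + 1) →₀ ℕ) : Fin 3 →₀ ℕ :=
  Finsupp.equivFunOnFinite.symm (fun j => β (E9 (t, j)))

lemma part3_apply (t : Fin 3) (β : Fin (8 + 1) →₀ ℕ) (j : Fin 3) :
    part3 t β j = β (E9 (t, j)) := rfl

lemma gdeg_eq_sum (t : Fin 3) (β : Fin (8 + 1) →₀ ℕ) :
    gdeg grp9 t β = ∑ j, β (E9 (t, j)) := by
  unfold gdeg
  rw [← Equiv.sum_comp E9, Fintype.sum_prod_type]
  simp only [grp9, Equiv.symm_apply_apply]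
  rw [Finset.sum_eq_single t]
  · simp
  · intro t' _ hne
    simp [hne]
  · intro h
    exact absurd (mem_univ _) h

lemma part3_mem (t : Fin 3) (β : Fin (8 + 1) →₀ ℕ) (m : ℕ) (h : gdeg grp9 t β = m) :
    part3 t β ∈ Finset.finsuppAntidiag (univ : Finset (Fin 3)) m := by
  rw [Finset.mem_finsuppAntidiag]
  refine ⟨?_, Finset.subset_univ _⟩
  rw [← h, gdeg_eq_sum]
  rfl

open Classical in
lemma card_wt_le {k : ℕ} (τ : Fin 3) (α : Mon 8 k) :
    (univ.filter (fun β : Mon 8 k => wt grp9 τ β.1 = wt grp9 τ α.1)).card ≤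
      ∏ t, c3 (if t = τ then 0 else gdeg grp9 t α.1) := by
  have h1 : (∏ t, c3 (if t = τ then 0 else gdeg grp9 t α.1)) =
      (Fintype.piFinset (fun t : Fin 3 => Finset.finsuppAntidiag (univ : Finset (Fin 3))
        (if t = τ then 0 else gdeg grp9 t α.1))).card := by
    rw [Fintype.card_piFinset]
    apply Finset.prod_congr rfl
    intro t _
    rw [card_anti]
  rw [h1]
  apply Finset.card_le_card_of_injOn
    (fun β t => if t = τ then (0 : Fin 3 →₀ ℕ) else part3 t β.1)
  · intro β hβ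
    rw [Finset.mem_coe, mem_filter] at hβ
    rw [Finset.mem_coe, Fintype.mem_piFinset]
    intro t
    by_cases ht : t = τ
    · simp [ht]
    · simp only [if_neg ht]
      apply part3_mem
      obtain ⟨j⟩ : Nonempty (Fin 3) := ⟨0⟩
      have h2 := congrFun hβ.2 (E9 (t, j))
      unfold wt at h2
      have h3 : grp9 (E9 (t, j)) = t := by simp [grp9]
      rw [h3, if_neg ht, if_neg ht] at h2
      exact h2
  · intro β hβ γ hγ heq
    rw [Finset.mem_coe, mem_filter] at hβ hγ
    apply Subtype.ext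
    ext i
    obtain ⟨⟨t, j⟩, rfl⟩ := E9.surjective i
    by_cases ht : t = τ
    · have h2 := congrFun (hβ.2.trans hγ.2.symm) (E9 (t, j))
      unfold wt at h2
      have h3 : grp9 (E9 (t, j)) = t := by simp [grp9]
      rw [h3, if_pos ht, if_pos ht] at h2
      exact h2
    · have h2 := congrFun heq t
      simp only [if_neg ht] at h2
      have h3 := DFunLike.congr_fun h2 j
      exact h3

/-- glue three parts to a monomial -/
noncomputable def glue3 (g : Fin 3 → Fin 3 →₀ ℕ) : Fin (8 + 1) →₀ ℕ :=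
  Finsupp.equivFunOnFinite.symm (fun i => g (E9.symm i).1 (E9.symm i).2)

lemma glue3_apply (g : Fin 3 → Fin 3 →₀ ℕ) (t j : Fin 3) :
    glue3 g (E9 (t, j)) = g t j := by
  change g (E9.symm (E9 (t, j))).1 (E9.symm (E9 (t, j))).2 = g t j
  rw [Equiv.symm_apply_apply]

lemma gdeg_glue3 (g : Fin 3 → Fin 3 →₀ ℕ) (t : Fin 3) :
    gdeg grp9 t (glue3 g) = ∑ j, g t j := by
  rw [gdeg_eq_sum]
  apply Finset.sum_congr rfl
  intro j _
  rw [glue3_apply]

open Classical in
lemma card_inM_ge {e d : ℕ} (hd : d = 2 * e) (τ : Fin 3) :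
    c3 e ^ 2 ≤ (univ.filter (fun i : Mon 8 d => inM grp9 e τ i.1)).card := by
  have h1 : c3 e ^ 2 =
      (Fintype.piFinset (fun t : Fin 3 => Finset.finsuppAntidiag (univ : Finset (Fin 3))
        (if t = τ then 0 else e))).card := by
    rw [Fintype.card_piFinset]
    simp only [card_anti]
    rw [← Finset.mul_prod_erase univ _ (mem_univ τ), if_pos rfl]
    have : ∀ t ∈ univ.erase τ, c3 (if t = τ then 0 else e) = c3 e := by
      intro t ht
      rw [if_neg (Finset.ne_of_mem_erase ht)]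
    rw [Finset.prod_congr rfl this, Finset.prod_const, Finset.card_erase_of_mem (mem_univ _)]
    simp [c3]
  rw [h1, ← Finset.card_map (Function.Embedding.subtype _)]
  apply Finset.card_le_card_of_injOn glue3
  · intro g hg
    rw [Finset.mem_coe, Fintype.mem_piFinset] at hg
    rw [Finset.mem_coe, mem_map]
    have hdeg : ∀ t, gdeg grp9 t (glue3 g) = if t = τ then 0 else e := by
      intro t
      rw [gdeg_glue3]
      exact (Finset.mem_finsuppAntidiag.1 (hg t)).1
    have hin : inM grp9 e τ (glue3 g) := by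
      refine ⟨?_, ?_⟩
      · rw [hdeg, if_pos rfl]
      · intro t ht
        rw [hdeg, if_neg ht]
    have hdd : (glue3 g).degree = d := by
      rw [← sum_gdeg grp9, Finset.sum_congr rfl (fun t _ => hdeg t),
        ← Finset.add_sum_erase univ _ (mem_univ τ), if_pos rfl]
      have : ∀ t ∈ univ.erase τ, (if t = τ then 0 else e) = e := by
        intro t ht
        rw [if_neg (Finset.ne_of_mem_erase ht)]
      rw [Finset.sum_congr rfl this, Finset.sum_const, Finset.card_erase_of_mem (mem_univ _), hd]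
      simp
    exact ⟨⟨glue3 g, hdd⟩, by rw [mem_filter]; exact ⟨mem_univ _, hin⟩, rfl⟩
  · intro g _ g' _ heq
    ext t j
    rw [← glue3_apply g t j, heq, glue3_apply]

lemma arith_key {x y z e : ℕ} (h1 : x ≤ z) (h2 : z ≤ y) (h : x + y + z + 9 = 2 * e) :
    z < e ∧ 4 * (c3 x * c3 y) ≤ c3 e ^ 2 := by
  refine ⟨by omega, ?_⟩
  have hx := two_c3 x
  have hy := two_c3 y
  have he := two_c3 e
  have key : 4 * ((2 * c3 x) * (2 * c3 y)) ≤ (2 * c3 e) ^ 2 := by
    rw [hx, hy, he]
    have hxe : (y : ℝ) ≤ 2 * e - 9 - 2 * x := by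
      have : y + 2 * x + 9 ≤ 2 * e := by omega
      have h3 : (y : ℝ) + 2 * x + 9 ≤ 2 * e := by exact_mod_cast this
      linarith
    have hx0 : (0 : ℝ) ≤ x := Nat.cast_nonneg _
    have hy0 : (0 : ℝ) ≤ y := Nat.cast_nonneg _
    have he5 : (5 : ℝ) ≤ e := by
      have : 5 ≤ e := by omega
      exact_mod_cast this
    have hmain : 2 * ((x : ℝ) + 3 / 2) * (y + 3 / 2) ≤ (e + 1) * (e + 2) := by
      have h4 : 2 * ((x : ℝ) + 3 / 2) * (y + 3 / 2) ≤
          2 * ((x : ℝ) + 3 / 2) * (2 * e - 9 - 2 * x + 3 / 2) := by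
        apply mul_le_mul_of_nonneg_left _ (by positivity)
        linarith
      nlinarith [sq_nonneg ((e : ℝ) - 9 / 4 - 2 * (x + 3 / 2))]
    have h5 : 4 * (((x : ℝ) + 1) * (x + 2) * ((y + 1) * (y + 2))) ≤
        ((e + 1) * (e + 2)) ^ 2 := by
      have h6 : ((x : ℝ) + 1) * (x + 2) ≤ (x + 3 / 2) ^ 2 := by nlinarith
      have h7 : ((y : ℝ) + 1) * (y + 2) ≤ (y + 3 / 2) ^ 2 := by nlinarith
      have h8 : ((x : ℝ) + 1) * (x + 2) * ((y + 1) * (y + 2)) ≤
          (x + 3 / 2) ^ 2 * (y + 3 / 2) ^ 2 := by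
        apply mul_le_mul h6 h7 (by positivity) (by positivity)
      have h9 : (2 * ((x : ℝ) + 3 / 2) * (y + 3 / 2)) ^ 2 ≤ ((e + 1) * (e + 2)) ^ 2 := by
        apply pow_le_pow_left₀ (by positivity) hmain
      nlinarith
    exact_mod_cast h5
  nlinarith

lemma exists_tau {k e : ℕ} (hk : k + 9 = 2 * e) (a : Fin 3 → ℕ) (ha : ∑ t, a t = k) :
    ∃ τ : Fin 3, a τ < e ∧ 4 * ∏ t, c3 (if t = τ then 0 else a t) ≤ c3 e ^ 2 := by
  rw [Fin.sum_univ_three] at ha
  have c30 : c3 0 = 1 := by simp [c3]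
  have p0 : ∏ t, c3 (if t = (0 : Fin 3) then 0 else a t) = c3 (a 1) * c3 (a 2) := by
    rw [Fin.prod_univ_three]; simp [c30]
  have p1 : ∏ t, c3 (if t = (1 : Fin 3) then 0 else a t) = c3 (a 0) * c3 (a 2) := by
    rw [Fin.prod_univ_three]; simp [c30]
  have p2 : ∏ t, c3 (if t = (2 : Fin 3) then 0 else a t) = c3 (a 0) * c3 (a 1) := by
    rw [Fin.prod_univ_three]; simp [c30]
  rcases le_total (a 0) (a 1) with h01 | h01 <;> rcases le_total (a 1) (a 2) with h12 | h12 <;>
    rcases le_total (a 0) (a 2) with h02 | h02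
  · refine ⟨1, ?_⟩
    rw [p1]
    exact arith_key h01 h12 (by omega)
  · refine ⟨1, ?_⟩
    rw [p1]
    exact arith_key h01 h12 (by omega)
  · refine ⟨2, ?_⟩
    rw [p2]
    exact arith_key h02 h12 (by omega)
  · refine ⟨0, ?_⟩
    rw [p0, mul_comm (c3 (a 1))]
    exact arith_key h02 h01 (by omega)
  · refine ⟨0, ?_⟩
    rw [p0]
    exact arith_key h01 h02 (by omega)
  · refine ⟨2, ?_⟩
    rw [p2, mul_comm (c3 (a 0))]
    exact arith_key h12 h02 (by omega)
  · refine ⟨1, ?_⟩
    rw [p1, mul_comm (c3 (a 0))]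
    exact arith_key h12 h01 (by omega)
  · refine ⟨1, ?_⟩
    rw [p1, mul_comm (c3 (a 0))]
    exact arith_key h12 h01 (by omega)

end Count

end Pool.Agent.Work.MP_c48073_ag
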