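import Mathlib

/-!
Definitions for the normal distribution question on Betti numbers of Veronese embeddings
(problem MP_c48073_ag).
-/

namespace Pool.Agent.Work.MP_c48073_ag

open scoped TensorProduct
open Filter Topology Asymptotics

section Koszul

variable {K V M N : Type} [Field K] [AddCommGroup V] [Module K V] [AddCommGroup M] [Module K M]
  [AddCommGroup N] [Module K N]

/-- The linear map sending `x` to the alternating map
`(v_1, ..., v_p) ↦ (v_1 ∧ ... ∧ v_p) ⊗ x`. -/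
noncomputable def wedgeTmul (K V N : Type) [Field K] [AddCommGroup V] [Module K V]
    [AddCommGroup N] [Module K N] (p : ℕ) :
    N →ₗ[K] (V [⋀^Fin p]→ₗ[K] ((⋀[K]^p V) ⊗[K] N)) :=
  (exteriorPower.alternatingMapLinearEquiv (R := K) (M := V) (n := p)
    (N := (⋀[K]^p V) ⊗[K] N)).symm.toLinearMap ∘ₗ (TensorProduct.mk K (⋀[K]^p V) N).flip

/-- The Koszul differential attached to a bilinear map `μ : V x M → N`,
`⋀^(p+1) V ⊗ M → ⋀^p V ⊗ N`. It sends `(v_0 ∧ ... ∧ v_p) ⊗ m` to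
`∑ i, (-1)^i (v_0 ∧ ... (omit v_i) ... ∧ v_p) ⊗ μ(v_i, m)`, see `koszulDiff_apply`. -/
noncomputable def koszulDiff (μ : V →ₗ[K] M →ₗ[K] N) (p : ℕ) :
    (⋀[K]^(p + 1) V) ⊗[K] M →ₗ[K] (⋀[K]^p V) ⊗[K] N :=
  TensorProduct.lift (LinearMap.flip
    ((exteriorPower.alternatingMapLinearEquiv (R := K) (M := V) (n := p + 1)
      (N := (⋀[K]^p V) ⊗[K] N)).toLinearMap ∘ₗ
      (AlternatingMap.alternatizeUncurryFinLM (R := K) (M := V) (N := (⋀[K]^p V) ⊗[K] N)) ∘ₗ
      (LinearMap.compRight K (wedgeTmul K V N p)) ∘ₗ μ.flip))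

theorem koszulDiff_apply (μ : V →ₗ[K] M →ₗ[K] N) (p : ℕ) (v : Fin (p + 1) → V) (m : M) :
    koszulDiff μ p (exteriorPower.ιMulti K (p + 1) v ⊗ₜ[K] m) =
      ∑ i : Fin (p + 1), (-1 : ℤ) ^ (i : ℕ) •
        (exteriorPower.ιMulti K p (i.removeNth v) ⊗ₜ[K] μ (v i) m) := by
  simp [koszulDiff, AlternatingMap.alternatizeUncurryFin_apply, wedgeTmul,
    exteriorPower.alternatingMapLinearEquiv_symm_apply]

/-- The dimension of the cohomology at the middle term `B` of `A → B → C`. -/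
noncomputable def cohomologyDim {A B C : Type} [AddCommGroup A] [Module K A] [AddCommGroup B]
    [Module K B] [AddCommGroup C] [Module K C] (f : A →ₗ[K] B) (g : B →ₗ[K] C) : ℕ :=
  Module.finrank K (LinearMap.ker g ⧸ (LinearMap.range f).submoduleOf (LinearMap.ker g))

/-- The Koszul differential `⋀^p V ⊗ M → ⋀^(p-1) V ⊗ N`; it is the zero map for `p = 0`. -/
noncomputable def koszulOut (μ : V →ₗ[K] M →ₗ[K] N) : (p : ℕ) →
    (⋀[K]^p V) ⊗[K] M →ₗ[K] (⋀[K]^(p - 1) V) ⊗[K] N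
  | 0 => 0
  | p + 1 => koszulDiff μ p

/-- For bilinear maps `μ : V x L → M` and `ν : V x M → N`, the dimension of the cohomology of
`⋀^(p+1) V ⊗ L → ⋀^p V ⊗ M → ⋀^(p-1) V ⊗ N` (Koszul differentials) at the middle term. -/
noncomputable def koszulDim {L : Type} [AddCommGroup L] [Module K L]
    (μ : V →ₗ[K] L →ₗ[K] M) (ν : V →ₗ[K] M →ₗ[K] N) (p : ℕ) : ℕ :=
  cohomologyDim (K := K) (A := (⋀[K]^(p + 1) V) ⊗[K] L) (B := (⋀[K]^p V) ⊗[K] M)
    (C := (⋀[K]^(p - 1) V) ⊗[K] N) (koszulDiff μ p) (koszulOut ν p)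

end Koszul

/-- `Forms n m` is the space `H^0(P^n, O(m))` of homogeneous polynomials of degree `m` in the
`n + 1` variables `x_0, ..., x_n` over the complex numbers. -/
abbrev Forms (n m : ℕ) : Type := MvPolynomial.homogeneousSubmodule (Fin (n + 1)) ℂ m

/-- The multiplication map `H^0(O(d)) x H^0(O(m)) → H^0(O(m + d))`. -/
noncomputable def mulForms (n d m : ℕ) : Forms n d →ₗ[ℂ] Forms n m →ₗ[ℂ] Forms n (m + d) :=
  LinearMap.mk₂ ℂ (fun f g => ⟨(g : MvPolynomial (Fin (n + 1)) ℂ) * f, g.2.mul f.2⟩)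
    (fun _ _ _ => Subtype.ext (mul_add _ _ _)) (fun _ _ _ => Subtype.ext (mul_smul_comm _ _ _))
    (fun _ _ _ => Subtype.ext (add_mul _ _ _)) (fun _ _ _ => Subtype.ext (smul_mul_assoc _ _ _))

/-- The dimension `k_{p,q}(P^n, O(d))` of the Koszul cohomology group `K_{p,q}(P^n, O(d))`, i.e.
of the cohomology at the middle term of
`⋀^(p+1) V_d ⊗ H^0(O((q-1) d)) → ⋀^p V_d ⊗ H^0(O(q d)) → ⋀^(p-1) V_d ⊗ H^0(O((q+1) d))`,
for an integer `p` (it is `0` for `p < 0`, where the exterior power vanishes).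
For `q = 0` the first term vanishes, so the incoming map is taken to be zero. -/
noncomputable def kPQ (n d : ℕ) : (p : ℤ) → (q : ℕ) → ℕ
  | Int.ofNat p, q + 1 => koszulDim (mulForms n d (d * q)) (mulForms n d (d * (q + 1))) p
  | Int.ofNat p, 0 => koszulDim (0 : Forms n d →ₗ[ℂ] Forms n 0 →ₗ[ℂ] Forms n (d * 0))
      (mulForms n d (d * 0)) p
  | Int.negSucc _, _ => 0

/-- `r_d = dim H^0(P^n, O(d)) - 1 = binom(n + d, n) - 1`, as a real number. -/
noncomputable def rd (n d : ℕ) : ℝ := (Nat.choose (n + d) n : ℝ) - 1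

/-- The row `q` of the Betti tables of the Veronese embeddings of `P^n` is asymptotically
normally distributed: there is a positive normalizing function `F` of `d` alone such that
`F(d) k_{p_d, q}(P^n, O(d)) → exp (- a^2 / 2)` for every real `a` and every sequence of integers
`p_d = r_d / 2 + a sqrt(r_d) / 2 + o(sqrt(r_d))`. -/
def NormalRow (n q : ℕ) : Prop :=
  ∃ F : ℕ → ℝ, (∀ d, 1 ≤ d → 0 < F d) ∧
    ∀ (a : ℝ) (p : ℕ → ℤ),
      (fun d => (p d : ℝ) - (rd n d / 2 + a * √(rd n d) / 2)) =o[atTop]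
        (fun d => √(rd n d)) →
      Tendsto (fun d => F d * kPQ n d (p d) q) atTop (𝓝 (Real.exp (-a ^ 2 / 2)))

end Pool.Agent.Work.MP_c48073_ag
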