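import Pool.Agent.Work.MP_c48073_ag.EndOne

namespace Pool.Agent.Work.MP_c48073_ag

open Finset MvPolynomial

section Duality

variable {I : Type} [LinearOrder I] [Fintype I] {n : ℕ} (a : I → Fin (n + 1) →₀ ℕ)

open Classical in
lemma ext0_single {s m : ℕ} (x : Xi I n s m) (F : Finset I) (c : Fin (n + 1) → ℤ) :
    ext0 I n s m (Pi.single x 1) F c = if F = x.1.1 ∧ c = toZ x.2.1 then 1 else 0 := by
  by_cases h : F = x.1.1 ∧ c = toZ x.2.1
  · obtain ⟨rfl, rfl⟩ := h
    rw [if_pos ⟨rfl, rfl⟩, ext0_apply_of _ x.1.2 (by rw [toN_toZ]; exact x.2.2) (toZ_nonneg _)]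
    have : ((⟨x.1.1, x.1.2⟩, ⟨toN (toZ x.2.1), by rw [toN_toZ]; exact x.2.2⟩) : Xi I n s m) = x := by
      apply Prod.ext
      · rfl
      · exact Subtype.ext (toN_toZ _)
    rw [this, Pi.single_eq_same]
  · rw [if_neg h]
    by_cases h' : F.card = s ∧ (toN c).degree = m ∧ 0 ≤ c
    · rw [ext0_apply_of _ h'.1 h'.2.1 h'.2.2, Pi.single_eq_of_ne]
      intro heq
      apply h
      rw [← heq]
      exact ⟨rfl, (toZ_toN h'.2.2).symm⟩
    · exact ext0_apply_of_not _ h'

open Classical in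
lemma ext1_single {s m : ℕ} (x : Xi I n s m) (F : Finset I) (c : Fin (n + 1) → ℤ) :
    ext1 I n s m (Pi.single x 1) F c =
      if Fᶜ = x.1.1 ∧ -1 - c = toZ x.2.1 then ((eps x.1.1 : ℤ) : ℂ) else 0 := by
  by_cases h : Fᶜ = x.1.1 ∧ -1 - c = toZ x.2.1
  · obtain ⟨h1, h2⟩ := h
    rw [if_pos ⟨h1, h2⟩, ext1_apply_of _ (by rw [h1]; exact x.1.2)
      (by rw [h2, toN_toZ]; exact x.2.2) (by rw [h2]; exact toZ_nonneg _)]
    have : ((⟨Fᶜ, by rw [h1]; exact x.1.2⟩, ⟨toN (-1 - c), by
        rw [h2, toN_toZ]; exact x.2.2⟩) : Xi I n s m) = x := by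
      apply Prod.ext
      · exact Subtype.ext h1
      · apply Subtype.ext
        simp only
        rw [h2, toN_toZ]
    rw [this, Pi.single_eq_same, h1, zsmul_eq_mul, mul_one]
  · rw [if_neg h]
    by_cases h' : Fᶜ.card = s ∧ (toN (-1 - c)).degree = m ∧ 0 ≤ -1 - c
    · rw [ext1_apply_of _ h'.1 h'.2.1 h'.2.2, Pi.single_eq_of_ne, smul_zero]
      intro heq
      apply h
      rw [← heq]
      exact ⟨rfl, (toZ_toN h'.2.2).symm⟩
    · exact ext1_apply_of_not _ h'

/-- coordinate version of the Koszul differential -/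
noncomputable def MM (d s k : ℕ) : (Xi I n (s + 1) k → ℂ) →ₗ[ℂ] (Xi I n s (k + d) → ℂ) :=
  (res0 I n s (k + d)).comp ((DA (fun i => toZ (a i)) (Aj n 0)).comp (ext0 I n (s + 1) k))

/-- coordinate version of the dual differential -/
noncomputable def NN (d s k : ℕ) : (Xi I n s (k + d) → ℂ) →ₗ[ℂ] (Xi I n (s + 1) k → ℂ) :=
  (res1 I n (s + 1) k).comp
    ((DA (fun i => toZ (a i)) (Aj n (n + 1))).comp (ext1 I n s (k + d)))

open Classical in
lemma MM_adjoint (d s k : ℕ) (x : Xi I n (s + 1) k) (y : Xi I n s (k + d)) :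
    MM a d s k (Pi.single x 1) y = NN a d s k (Pi.single y 1) x := by
  obtain ⟨⟨G, hG⟩, ⟨c, hc⟩⟩ := x
  obtain ⟨⟨G', hG'⟩, ⟨β, hβ⟩⟩ := y
  have hL : MM a d s k (Pi.single (⟨G, hG⟩, ⟨c, hc⟩) 1) (⟨G', hG'⟩, ⟨β, hβ⟩) =
      ∑ i : I, if i ∉ G' ∧ insert i G' = G ∧ toZ β - toZ (a i) = toZ c then
        ((sg i G' : ℤ) : ℂ) else 0 := by
    change DA (fun i => toZ (a i)) (Aj n 0)
      (ext0 I n (s + 1) k (Pi.single (⟨G, hG⟩, ⟨c, hc⟩) 1)) G' (toZ β) = _
    rw [DA_apply]
    have : (G'ᶜ : Finset I) = univ.filter (fun i => i ∉ G') := by ext; simp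
    rw [this, Finset.sum_filter]
    apply Finset.sum_congr rfl
    intro i _
    by_cases hi : i ∉ G'
    · rw [if_pos hi]
      by_cases h : toZ β ∈ Aj n 0 ∧ toZ β - toZ (a i) ∈ Aj n 0
      · rw [Tr_apply_of _ h.1 h.2, ext0_single]
        simp only [zsmul_eq_mul, mul_ite, mul_one, mul_zero]
        congr 1
        simp [hi]
      · rw [Tr_apply_of_notMem _ h, smul_zero, if_neg]
        rintro ⟨_, _, h3⟩
        apply h
        refine ⟨mem_A0.2 (toZ_nonneg _), ?_⟩
        rw [h3]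
        exact mem_A0.2 (toZ_nonneg _)
    · rw [if_neg hi, if_neg (fun h => hi h.1)]
  have hR : NN a d s k (Pi.single (⟨G', hG'⟩, ⟨β, hβ⟩) 1) (⟨G, hG⟩, ⟨c, hc⟩) =
      ∑ i : I, if i ∉ G' ∧ insert i G' = G ∧ toZ β - toZ (a i) = toZ c then
        ((sg i G' : ℤ) : ℂ) else 0 := by
    change eps G • DA (fun i => toZ (a i)) (Aj n (n + 1))
      (ext1 I n s (k + d) (Pi.single (⟨G', hG'⟩, ⟨β, hβ⟩) 1)) Gᶜ (-1 - toZ c) = _
    rw [DA_apply, compl_compl, Finset.smul_sum]
    have : (G : Finset I) = univ.filter (fun i => i ∈ G) := by ext; simp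
    conv_lhs => rw [this]
    rw [Finset.sum_filter]
    apply Finset.sum_congr rfl
    intro i _
    rw [← this]
    by_cases hi : i ∈ G
    · rw [if_pos hi]
      have h1 : -1 - toZ c ∈ Aj n (n + 1) := by
        rw [mem_A1, refl_refl]; exact toZ_nonneg _
      have h2 : -1 - toZ c - toZ (a i) ∈ Aj n (n + 1) := by
        have : -1 - (-1 - toZ c - toZ (a i)) = toZ c + toZ (a i) := by abel
        rw [mem_A1, this]
        exact add_nonneg (toZ_nonneg _) (toZ_nonneg _)
      rw [Tr_apply_of _ h1 h2, ext1_single]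
      have h3 : (insert i Gᶜ)ᶜ = G.erase i := by
        rw [Finset.compl_insert, compl_compl]
      have h4 : -1 - (-1 - toZ c - toZ (a i)) = toZ c + toZ (a i) := by abel
      simp only [h3, h4]
      by_cases hh : G.erase i = G' ∧ toZ c + toZ (a i) = toZ β
      · obtain ⟨hh1, hh2⟩ := hh
        rw [if_pos ⟨hh1, hh2⟩, if_pos]
        · subst hh1
          rw [← eps_key hi]
          simp only [zsmul_eq_mul]
          push_cast
          ring
        · subst hh1
          refine ⟨Finset.notMem_erase _ _, Finset.insert_erase hi, ?_⟩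
          rw [← hh2, add_sub_cancel_right]
      · rw [if_neg hh, smul_zero, smul_zero, if_neg]
        rintro ⟨h5, h6, h7⟩
        apply hh
        refine ⟨?_, ?_⟩
        · rw [← h6, Finset.erase_insert h5]
        · rw [← h7, sub_add_cancel]
    · rw [if_neg hi, if_neg]
      rintro ⟨_, h2, _⟩
      apply hi
      rw [← h2]
      exact Finset.mem_insert_self _ _
  rw [hL, hR]

variable {a}

theorem HA_negative (d s k P : ℕ) (ha : ∀ i, (a i).degree = d)
    (hk : k + n + 1 = d) (hP : P + (s + 1) = Fintype.card I) :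
    HA (fun i => toZ (a i)) (d : ℤ) (Aj n (n + 1)) P (-(d : ℤ)) =
      Module.finrank ℂ (ZA (fun i => toZ (a i)) (Aj n 0) (s + 1) (k : ℤ)) := by
  classical
  have hsum : ∀ i, ∑ j, toZ (a i) j = (d : ℤ) := fun i => by rw [sum_toZ, ha i]
  have e1 : Module.finrank ℂ (LinearMap.ker (MM a d s k)) =
      Module.finrank ℂ (ZA (fun i => toZ (a i)) (Aj n 0) (s + 1) (k : ℤ)) := by
    symm
    apply finrank_eq_of_bij _ _ (res0 I n (s + 1) k)
    · rintro z ⟨hz1, hz2⟩
      have hz2' : DA (fun i => toZ (a i)) (Aj n 0) z = 0 := hz2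
      rw [LinearMap.mem_ker]
      change res0 I n s (k + d) (DA (fun i => toZ (a i)) (Aj n 0)
        (ext0 I n (s + 1) k (res0 I n (s + 1) k z))) = 0
      rw [ext0_res0 hz1, hz2', map_zero]
    · rintro z ⟨hz1, _⟩ hz
      rw [← ext0_res0 hz1, hz, map_zero]
    · intro y hy
      refine ⟨ext0 I n (s + 1) k y, ⟨ext0_mem y, ?_⟩, res0_ext0 y⟩
      have h1 : DA (fun i => toZ (a i)) (Aj n 0) (ext0 I n (s + 1) k y) ∈
          YA I (Aj n 0) s ((k : ℤ) + d) := DA_mem hsum (ext0_mem y)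
      have h2 : ((k : ℤ) + d) = ((k + d : ℕ) : ℤ) := by push_cast; ring
      rw [h2] at h1
      have h3 : res0 I n s (k + d) (DA (fun i => toZ (a i)) (Aj n 0)
        (ext0 I n (s + 1) k y)) = 0 := hy
      change DA (fun i => toZ (a i)) (Aj n 0) (ext0 I n (s + 1) k y) = 0
      rw [← ext0_res0 h1, h3, map_zero]
  have e2 : HA (fun i => toZ (a i)) (d : ℤ) (Aj n (n + 1)) P (-(d : ℤ)) =
      Module.finrank ℂ ((⊤ : Submodule ℂ (Xi I n (s + 1) k → ℂ)) ⧸
        (LinearMap.range (NN a d s k)).submoduleOf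
          (⊤ : Submodule ℂ (Xi I n (s + 1) k → ℂ))) := by
    unfold HA
    have hl : (-(d : ℤ)) = -((n : ℤ) + 1) - (k : ℤ) := by omega
    have hl2 : (-(d : ℤ)) - (d : ℤ) = -((n : ℤ) + 1) - ((k + d : ℕ) : ℤ) := by
      push_cast; omega
    have hP2 : (P + 1) + s = Fintype.card I := by omega
    apply finrank_quot_eq _ _ _ _ (res1 I n (s + 1) k)
    · intro z _
      trivial
    · rintro z ⟨hz1, _⟩
      constructor
      · rintro ⟨u, hu⟩
        have hu' : res1 I n (s + 1) k (DA (fun i => toZ (a i)) (Aj n (n + 1))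
          (ext1 I n s (k + d) u)) = res1 I n (s + 1) k z := hu
        have h1 : ext1 I n s (k + d) u ∈ YA I (Aj n (n + 1)) (P + 1) (-(d : ℤ) - d) :=
          ext1_mem u hP2 hl2
        have h2 : DA (fun i => toZ (a i)) (Aj n (n + 1)) (ext1 I n s (k + d) u) ∈
            YA I (Aj n (n + 1)) P (-(d : ℤ) - d + d) := DA_mem hsum h1
        rw [sub_add_cancel] at h2
        refine ⟨ext1 I n s (k + d) u, h1, ?_⟩
        rw [← ext1_res1 hP hl h2, hu', ext1_res1 hP hl hz1]
      · rintro ⟨y, hy, rfl⟩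
        refine ⟨res1 I n s (k + d) y, ?_⟩
        change res1 I n (s + 1) k (DA (fun i => toZ (a i)) (Aj n (n + 1))
          (ext1 I n s (k + d) (res1 I n s (k + d) y))) = _
        rw [ext1_res1 hP2 hl2 hy]
    · intro y _
      refine ⟨ext1 I n (s + 1) k y, ⟨ext1_mem y hP hl, ?_⟩, ?_⟩
      · change DA (fun i => toZ (a i)) (Aj n (n + 1)) (ext1 I n (s + 1) k y) = 0
        ext G c
        by_contra hne
        rcases Nat.eq_zero_or_pos P with hP0 | hP0
        · subst hP0
          rw [DA_apply] at hne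
          obtain ⟨i, hi, hne⟩ := Finset.exists_ne_zero_of_sum_ne_zero hne
          have h2 : Tr (Aj n (n + 1)) (toZ (a i))
            (ext1 I n (s + 1) k y (insert i G)) c ≠ 0 := fun h => hne (by rw [h, smul_zero])
          have h3 : c ∈ Aj n (n + 1) ∧ c - toZ (a i) ∈ Aj n (n + 1) := by
            by_contra h; exact h2 (Tr_apply_of_notMem _ h)
          rw [Tr_apply_of _ h3.1 h3.2] at h2
          have h4 := (ext1_mem y hP hl _ _ h2).1
          rw [Finset.card_eq_zero] at h4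
          exact Finset.insert_ne_empty _ _ h4
        · obtain ⟨P', rfl⟩ : ∃ P', P = P' + 1 := ⟨P - 1, by omega⟩
          have h1 : DA (fun i => toZ (a i)) (Aj n (n + 1)) (ext1 I n (s + 1) k y) ∈
              YA I (Aj n (n + 1)) P' (-(d : ℤ) + d) := DA_mem hsum (ext1_mem y hP hl)
          obtain ⟨_, h2, h3⟩ := h1 G c hne
          rw [neg_add_cancel] at h3
          have h4 : ∑ k, c k < 0 := by
            apply Finset.sum_neg
            · intro i _
              exact (h2 i).1 i.2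
            · exact Finset.univ_nonempty
          omega
      · rw [res1_ext1, sub_self]
        exact Submodule.zero_mem _
  rw [e2, ← e1]
  exact finrank_coker_transpose _ _ (MM_adjoint a d s k)

end Duality

end Pool.Agent.Work.MP_c48073_ag
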