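import Pool.Agent.Work.MP_c48073_ag.EndZero

/-!
Duality between the negative and the positive orthant.
-/

namespace Pool.Agent.Work.MP_c48073_ag

open Finset

section EndOne

variable {I : Type} [LinearOrder I] [Fintype I]

/-- complement sign -/
def eps (G : Finset I) : ℤ := ∏ j ∈ G, (-1) ^ ((univ.filter (· < j)).card)

lemma eps_mul_self (G : Finset I) : eps G * eps G = 1 := by
  unfold eps
  rw [← Finset.prod_mul_distrib]
  apply Finset.prod_eq_one
  intro j _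
  rw [← pow_add, ← two_mul, pow_mul]
  simp

lemma eps_key {G : Finset I} {i : I} (hi : i ∈ G) :
    eps G * (sg i Gᶜ * eps (G.erase i)) = sg i (G.erase i) := by
  have h1 : eps G = (-1) ^ ((univ.filter (· < i)).card) * eps (G.erase i) := by
    unfold eps
    rw [Finset.mul_prod_erase G (fun j => (-1 : ℤ) ^ ((univ.filter (· < j)).card)) hi]
  have h2 : (univ.filter (· < i)).card =
      (Gᶜ.filter (· < i)).card + ((G.erase i).filter (· < i)).card := by
    rw [← Finset.card_union_of_disjoint]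
    · congr 1
      ext j
      simp only [mem_filter, mem_univ, true_and, mem_union, mem_compl, mem_erase]
      constructor
      · intro h
        by_cases hj : j ∈ G
        · exact Or.inr ⟨⟨h.ne, hj⟩, h⟩
        · exact Or.inl ⟨hj, h⟩
      · rintro (h | h)
        · exact h.2
        · exact h.2
    · rw [Finset.disjoint_left]
      intro j hj hj'
      simp only [mem_filter, mem_compl, mem_erase] at hj hj'
      exact hj.1 hj'.1.2
  have h3 := eps_mul_self (G.erase i)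
  have h4 := sg_mul_self i Gᶜ
  calc eps G * (sg i Gᶜ * eps (G.erase i))
      = (-1) ^ ((univ.filter (· < i)).card) * sg i Gᶜ *
        (eps (G.erase i) * eps (G.erase i)) := by rw [h1]; ring
    _ = (-1) ^ ((univ.filter (· < i)).card) * sg i Gᶜ := by rw [h3, mul_one]
    _ = (sg i Gᶜ * sg i (G.erase i)) * sg i Gᶜ := by
        rw [h2, pow_add]; rfl
    _ = sg i (G.erase i) * (sg i Gᶜ * sg i Gᶜ) := by ring
    _ = sg i (G.erase i) := by rw [h4, mul_one]

variable {n : ℕ}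

/-- index type of coordinates -/
abbrev Xi (I : Type) (n s m : ℕ) : Type := {G : Finset I // G.card = s} × Mon n m

/-- coordinates on the positive orthant -/
def res0 (I : Type) (n s m : ℕ) :
    (Finset I → (Fin (n + 1) → ℤ) → ℂ) →ₗ[ℂ] (Xi I n s m → ℂ) where
  toFun f ξ := f ξ.1.1 (toZ ξ.2.1)
  map_add' _ _ := rfl
  map_smul' _ _ := rfl

open Classical in
/-- extension by zero from coordinates on the positive orthant -/
noncomputable def ext0 (I : Type) (n s m : ℕ) :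
    (Xi I n s m → ℂ) →ₗ[ℂ] (Finset I → (Fin (n + 1) → ℤ) → ℂ) where
  toFun x F c := if h : F.card = s ∧ (toN c).degree = m ∧ 0 ≤ c then
    x (⟨F, h.1⟩, ⟨toN c, h.2.1⟩) else 0
  map_add' f g := by
    ext F c; by_cases h : F.card = s ∧ (toN c).degree = m ∧ 0 ≤ c <;> simp [h]
  map_smul' a g := by
    ext F c; by_cases h : F.card = s ∧ (toN c).degree = m ∧ 0 ≤ c <;> simp [h]

lemma ext0_apply_of {s m : ℕ} (x : Xi I n s m → ℂ) {F : Finset I} {c : Fin (n + 1) → ℤ}
    (h1 : F.card = s) (h2 : (toN c).degree = m) (h3 : 0 ≤ c) :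
    ext0 I n s m x F c = x (⟨F, h1⟩, ⟨toN c, h2⟩) := by
  simp only [ext0, LinearMap.coe_mk, AddHom.coe_mk]
  rw [dif_pos ⟨h1, h2, h3⟩]

lemma ext0_apply_of_not {s m : ℕ} (x : Xi I n s m → ℂ) {F : Finset I} {c : Fin (n + 1) → ℤ}
    (h : ¬ (F.card = s ∧ (toN c).degree = m ∧ 0 ≤ c)) :
    ext0 I n s m x F c = 0 := by
  simp only [ext0, LinearMap.coe_mk, AddHom.coe_mk]
  rw [dif_neg h]

lemma ext0_mem {s m : ℕ} (x : Xi I n s m → ℂ) : ext0 I n s m x ∈ YA I (Aj n 0) s (m : ℤ) := by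
  intro F c hne
  have h : F.card = s ∧ (toN c).degree = m ∧ 0 ≤ c := by
    by_contra h; exact hne (ext0_apply_of_not x h)
  exact ⟨h.1, mem_A0.2 h.2.2, (degree_toN h.2.2).1 h.2.1⟩

lemma res0_ext0 {s m : ℕ} (x : Xi I n s m → ℂ) : res0 I n s m (ext0 I n s m x) = x := by
  ext ⟨⟨G, hG⟩, ⟨a, ha⟩⟩
  change ext0 I n s m x G (toZ a) = _
  rw [ext0_apply_of x hG (by rw [toN_toZ]; exact ha) (toZ_nonneg a)]
  congr 3
  exact toN_toZ a

lemma ext0_res0 {s m : ℕ} {f : Finset I → (Fin (n + 1) → ℤ) → ℂ}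
    (hf : f ∈ YA I (Aj n 0) s (m : ℤ)) : ext0 I n s m (res0 I n s m f) = f := by
  ext F c
  by_cases h : F.card = s ∧ (toN c).degree = m ∧ 0 ≤ c
  · rw [ext0_apply_of _ h.1 h.2.1 h.2.2]
    change f F (toZ (toN c)) = _
    rw [toZ_toN h.2.2]
  · rw [ext0_apply_of_not _ h]
    by_contra hne
    obtain ⟨h1, h2, h3⟩ := hf F c (Ne.symm hne)
    exact h ⟨h1, (degree_toN (mem_A0.1 h2)).2 h3, mem_A0.1 h2⟩

lemma mem_A1 {c : Fin (n + 1) → ℤ} : c ∈ Aj n (n + 1) ↔ 0 ≤ -1 - c := by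
  unfold Aj
  constructor
  · intro h k
    have := (h k).1 k.2
    simp only [Pi.zero_apply, Pi.sub_apply, Pi.neg_apply, Pi.one_apply]
    omega
  · intro h k
    have := h k
    simp only [Pi.zero_apply, Pi.sub_apply, Pi.neg_apply, Pi.one_apply] at this
    exact ⟨fun _ => by omega, fun h' => absurd k.2 (by omega)⟩

lemma sum_refl (c : Fin (n + 1) → ℤ) : ∑ k, (-1 - c) k = -((n : ℤ) + 1) - ∑ k, c k := by
  simp only [Pi.sub_apply, Pi.neg_apply, Pi.one_apply, Finset.sum_sub_distrib]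
  simp

/-- coordinates on the negative orthant -/
noncomputable def res1 (I : Type) [LinearOrder I] [Fintype I] (n s m : ℕ) :
    (Finset I → (Fin (n + 1) → ℤ) → ℂ) →ₗ[ℂ] (Xi I n s m → ℂ) where
  toFun f ξ := eps ξ.1.1 • f (ξ.1.1)ᶜ (-1 - toZ ξ.2.1)
  map_add' f g := by
    ext ξ; simp only [Pi.add_apply, smul_add]
  map_smul' a g := by
    ext ξ; simp only [Pi.smul_apply, RingHom.id_apply, smul_comm a]

open Classical in
/-- extension by zero from coordinates on the negative orthant -/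
noncomputable def ext1 (I : Type) [LinearOrder I] [Fintype I] (n s m : ℕ) :
    (Xi I n s m → ℂ) →ₗ[ℂ] (Finset I → (Fin (n + 1) → ℤ) → ℂ) where
  toFun x F c := if h : Fᶜ.card = s ∧ (toN (-1 - c)).degree = m ∧ 0 ≤ -1 - c then
    eps Fᶜ • x (⟨Fᶜ, h.1⟩, ⟨toN (-1 - c), h.2.1⟩) else 0
  map_add' f g := by
    ext F c
    by_cases h : Fᶜ.card = s ∧ (toN (-1 - c)).degree = m ∧ 0 ≤ -1 - c
    · simp only [dif_pos h, Pi.add_apply, smul_add]
    · simp only [dif_neg h, Pi.add_apply, add_zero]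
  map_smul' a g := by
    ext F c
    by_cases h : Fᶜ.card = s ∧ (toN (-1 - c)).degree = m ∧ 0 ≤ -1 - c
    · simp only [dif_pos h, Pi.smul_apply, RingHom.id_apply, smul_comm a]
    · simp only [dif_neg h, Pi.smul_apply, RingHom.id_apply, smul_zero]

lemma ext1_apply_of {s m : ℕ} (x : Xi I n s m → ℂ) {F : Finset I} {c : Fin (n + 1) → ℤ}
    (h1 : Fᶜ.card = s) (h2 : (toN (-1 - c)).degree = m) (h3 : 0 ≤ -1 - c) :
    ext1 I n s m x F c = eps Fᶜ • x (⟨Fᶜ, h1⟩, ⟨toN (-1 - c), h2⟩) := by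
  simp only [ext1, LinearMap.coe_mk, AddHom.coe_mk]
  rw [dif_pos ⟨h1, h2, h3⟩]

lemma ext1_apply_of_not {s m : ℕ} (x : Xi I n s m → ℂ) {F : Finset I} {c : Fin (n + 1) → ℤ}
    (h : ¬ (Fᶜ.card = s ∧ (toN (-1 - c)).degree = m ∧ 0 ≤ -1 - c)) :
    ext1 I n s m x F c = 0 := by
  simp only [ext1, LinearMap.coe_mk, AddHom.coe_mk]
  rw [dif_neg h]

lemma ext1_mem {s m : ℕ} (x : Xi I n s m → ℂ) {P : ℕ} {l : ℤ} (hP : P + s = Fintype.card I)
    (hl : l = -((n : ℤ) + 1) - m) : ext1 I n s m x ∈ YA I (Aj n (n + 1)) P l := by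
  intro F c hne
  have h : Fᶜ.card = s ∧ (toN (-1 - c)).degree = m ∧ 0 ≤ -1 - c := by
    by_contra h; exact hne (ext1_apply_of_not x h)
  refine ⟨?_, mem_A1.2 h.2.2, ?_⟩
  · have := Finset.card_add_card_compl F
    omega
  · have h1 := (degree_toN h.2.2).1 h.2.1
    rw [sum_refl] at h1
    omega

lemma refl_refl (c : Fin (n + 1) → ℤ) : -1 - (-1 - c) = c := by abel

lemma res1_ext1 {s m : ℕ} (x : Xi I n s m → ℂ) : res1 I n s m (ext1 I n s m x) = x := by
  ext ⟨⟨G, hG⟩, ⟨a, ha⟩⟩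
  change eps G • ext1 I n s m x Gᶜ (-1 - toZ a) = _
  rw [ext1_apply_of x (by rw [compl_compl]; exact hG)
    (by rw [refl_refl, toN_toZ]; exact ha) (by rw [refl_refl]; exact toZ_nonneg a), smul_smul]
  simp only [compl_compl]
  rw [eps_mul_self, one_smul]
  congr 3
  rw [refl_refl, toN_toZ]

lemma ext1_res1 {s m : ℕ} {P : ℕ} {l : ℤ} (hP : P + s = Fintype.card I)
    (hl : l = -((n : ℤ) + 1) - m) {f : Finset I → (Fin (n + 1) → ℤ) → ℂ}
    (hf : f ∈ YA I (Aj n (n + 1)) P l) : ext1 I n s m (res1 I n s m f) = f := by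
  ext F c
  by_cases h : Fᶜ.card = s ∧ (toN (-1 - c)).degree = m ∧ 0 ≤ -1 - c
  · rw [ext1_apply_of _ h.1 h.2.1 h.2.2]
    change eps Fᶜ • (eps Fᶜ • f (Fᶜ)ᶜ (-1 - toZ (toN (-1 - c)))) = _
    rw [toZ_toN h.2.2, refl_refl, compl_compl, smul_smul, eps_mul_self, one_smul]
  · rw [ext1_apply_of_not _ h]
    by_contra hne
    obtain ⟨h1, h2, h3⟩ := hf F c (Ne.symm hne)
    apply h
    refine ⟨?_, ?_, mem_A1.1 h2⟩
    · have := Finset.card_add_card_compl F
      omega
    · rw [degree_toN (mem_A1.1 h2), sum_refl]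
      omega


end EndOne

end Pool.Agent.Work.MP_c48073_ag
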