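import Pool.Agent.Work.MP_c48073_ag.Defs

namespace Pool.Agent.Work.MP_c48073_ag

open Finset MvPolynomial

/-- monomials (exponent vectors) of degree `m` in `n+1` variables -/
abbrev Mon (n m : ℕ) : Type := {a : Fin (n + 1) →₀ ℕ // a.degree = m}

lemma mem_antidiag_iff (n m : ℕ) (a : Fin (n + 1) →₀ ℕ) :
    a ∈ Finset.finsuppAntidiag (Finset.univ : Finset (Fin (n + 1))) m ↔ a.degree = m := by
  rw [Finset.mem_finsuppAntidiag, Finsupp.degree_eq_sum]
  simp

noncomputable instance (n m : ℕ) : Fintype (Mon n m) :=
  Fintype.subtype (Finset.finsuppAntidiag Finset.univ m) (mem_antidiag_iff n m)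

lemma card_Mon (n m : ℕ) : Fintype.card (Mon n m) = (n + m).choose n := by
  rw [Fintype.card_of_subtype (Finset.finsuppAntidiag Finset.univ m) (mem_antidiag_iff n m),
    Finset.card_finsuppAntidiag_nat_eq_multichoose, Finset.card_univ, Fintype.card_fin,
    Nat.multichoose_eq]
  have : n + 1 + m - 1 = n + m := by omega
  rw [this]
  exact (Nat.choose_symm_add).symm

/-- coefficients of a form -/
noncomputable def coefEquiv (n m : ℕ) : Forms n m ≃ₗ[ℂ] (Mon n m → ℂ) where
  toFun g a := coeff a.1 g.1
  map_add' f g := by ext a; simp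
  map_smul' c g := by ext a; simp
  invFun c := ⟨∑ a : Mon n m, monomial a.1 (c a), by
    apply Submodule.sum_mem
    intro a _
    exact isHomogeneous_monomial _ a.2⟩
  left_inv g := by
    classical
    apply Subtype.ext
    apply MvPolynomial.ext
    intro b
    rw [coeff_sum]
    simp only [coeff_monomial]
    by_cases hb : b.degree = m
    · rw [Finset.sum_eq_single ⟨b, hb⟩]
      · simp
      · intro a _ ha
        rw [if_neg]
        intro h
        exact ha (Subtype.ext h)
      · intro h
        exact absurd (Finset.mem_univ _) h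
    · rw [IsHomogeneous.coeff_eq_zero g.2 hb]
      apply Finset.sum_eq_zero
      intro a _
      rw [if_neg]
      intro h
      exact hb (h ▸ a.2)
  right_inv c := by
    classical
    ext b
    change coeff b.1 (∑ a : Mon n m, monomial a.1 (c a)) = c b
    rw [coeff_sum]
    simp only [coeff_monomial]
    rw [Finset.sum_eq_single b]
    · simp
    · intro a _ ha
      rw [if_neg]
      intro h
      exact ha (Subtype.ext h)
    · intro h
      exact absurd (Finset.mem_univ _) h

lemma coefEquiv_apply (n m : ℕ) (g : Forms n m) (a : Mon n m) :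
    coefEquiv n m g a = coeff a.1 g.1 := rfl

/-- the monomial basis -/
noncomputable def monoBasis (n m : ℕ) : Module.Basis (Mon n m) ℂ (Forms n m) :=
  Module.Basis.ofEquivFun (coefEquiv n m)

lemma monoBasis_apply (n m : ℕ) (a : Mon n m) :
    (monoBasis n m a : MvPolynomial (Fin (n + 1)) ℂ) = monomial a.1 1 := by
  classical
  rw [monoBasis, Module.Basis.coe_ofEquivFun]
  change ∑ b : Mon n m, monomial b.1 ((Pi.single a 1 : Mon n m → ℂ) b) = _
  rw [Finset.sum_eq_single a]
  · simp
  · intro b _ hb
    rw [Pi.single_eq_of_ne hb, monomial_zero]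
  · intro h
    exact absurd (Finset.mem_univ _) h

instance (n m : ℕ) : Module.Finite ℂ (Forms n m) := Module.Finite.of_basis (monoBasis n m)

lemma finrank_Forms (n m : ℕ) : Module.finrank ℂ (Forms n m) = (n + m).choose n := by
  rw [Module.finrank_eq_card_basis (monoBasis n m), card_Mon]

end Pool.Agent.Work.MP_c48073_ag
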