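import Pool.Agent.Work.MP_c48073_ag.Step
import Pool.Agent.Work.MP_c48073_ag.Bridge
import Pool.Agent.Work.MP_c48073_ag.FormsBasic

namespace Pool.Agent.Work.MP_c48073_ag

open Finset MvPolynomial
open scoped TensorProduct

/-- integer exponent vector of a monomial -/
def toZ {n : ℕ} (a : Fin (n + 1) →₀ ℕ) : Fin (n + 1) → ℤ := fun k => (a k : ℤ)

/-- natural exponent vector of a lattice point -/
noncomputable def toN {n : ℕ} (c : Fin (n + 1) → ℤ) : Fin (n + 1) →₀ ℕ :=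
  Finsupp.equivFunOnFinite.symm (fun k => (c k).toNat)

lemma toN_apply {n : ℕ} (c : Fin (n + 1) → ℤ) (k : Fin (n + 1)) : toN c k = (c k).toNat := rfl

lemma toN_toZ {n : ℕ} (a : Fin (n + 1) →₀ ℕ) : toN (toZ a) = a := by
  ext k; simp [toN_apply, toZ]

lemma toZ_toN {n : ℕ} {c : Fin (n + 1) → ℤ} (hc : 0 ≤ c) : toZ (toN c) = c := by
  ext k
  simp only [toN_apply, toZ]
  exact Int.toNat_of_nonneg (hc k)

lemma toZ_nonneg {n : ℕ} (a : Fin (n + 1) →₀ ℕ) : 0 ≤ toZ a := fun _ => Int.natCast_nonneg _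

lemma sum_toZ {n : ℕ} (a : Fin (n + 1) →₀ ℕ) : ∑ k, toZ a k = (a.degree : ℤ) := by
  rw [Finsupp.degree_eq_sum]
  simp [toZ]

lemma degree_toN {n m : ℕ} {c : Fin (n + 1) → ℤ} (hc : 0 ≤ c) :
    (toN c).degree = m ↔ ∑ k, c k = (m : ℤ) := by
  rw [← Int.natCast_inj, ← sum_toZ, toZ_toN hc]

lemma mem_A0 {n : ℕ} {c : Fin (n + 1) → ℤ} : c ∈ Aj n 0 ↔ 0 ≤ c := by
  unfold Aj
  constructor
  · intro h k
    exact (h k).2 (Nat.zero_le _)
  · intro h k
    exact ⟨fun h' => absurd h' (Nat.not_lt_zero _), fun _ => h k⟩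

open Classical in
/-- coefficient function on the lattice -/
noncomputable def kap (n m : ℕ) : Forms n m →ₗ[ℂ] ((Fin (n + 1) → ℤ) → ℂ) where
  toFun g c := if 0 ≤ c then coeff (toN c) g.1 else 0
  map_add' f g := by ext c; by_cases h : 0 ≤ c <;> simp [h]
  map_smul' a g := by ext c; by_cases h : 0 ≤ c <;> simp [h]

lemma kap_apply_nonneg {n m : ℕ} (g : Forms n m) {c : Fin (n + 1) → ℤ} (h : 0 ≤ c) :
    kap n m g c = coeff (toN c) g.1 := by simp [kap, h]

lemma kap_apply_of_not {n m : ℕ} (g : Forms n m) {c : Fin (n + 1) → ℤ} (h : ¬ 0 ≤ c) :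
    kap n m g c = 0 := by simp [kap, h]

lemma kap_injective (n m : ℕ) : Function.Injective (kap n m) := by
  intro f g h
  apply Subtype.ext
  apply MvPolynomial.ext
  intro a
  have := congrFun h (toZ a)
  rwa [kap_apply_nonneg _ (toZ_nonneg a), kap_apply_nonneg _ (toZ_nonneg a), toN_toZ] at this

lemma kap_ne_zero {n m : ℕ} (g : Forms n m) {c : Fin (n + 1) → ℤ} (h : kap n m g c ≠ 0) :
    c ∈ Aj n 0 ∧ ∑ k, c k = (m : ℤ) := by
  have hc : 0 ≤ c := by
    by_contra h'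
    exact h (kap_apply_of_not g h')
  refine ⟨mem_A0.2 hc, ?_⟩
  rw [kap_apply_nonneg g hc] at h
  rw [← degree_toN hc]
  by_contra h'
  exact h (IsHomogeneous.coeff_eq_zero g.2 h')

lemma exists_kap {n m : ℕ} (y : (Fin (n + 1) → ℤ) → ℂ)
    (hy : ∀ c, y c ≠ 0 → c ∈ Aj n 0 ∧ ∑ k, c k = (m : ℤ)) : ∃ g : Forms n m, kap n m g = y := by
  refine ⟨(coefEquiv n m).symm (fun a => y (toZ a.1)), ?_⟩
  ext c
  by_cases hc : 0 ≤ c
  · rw [kap_apply_nonneg _ hc]
    by_cases hd : (toN c).degree = m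
    · have := congrFun ((coefEquiv n m).apply_symm_apply (fun a => y (toZ a.1))) ⟨toN c, hd⟩
      rw [coefEquiv_apply] at this
      rw [this, toZ_toN hc]
    · have h0 : coeff (toN c) ((coefEquiv n m).symm (fun a => y (toZ a.1))).1 = 0 :=
        IsHomogeneous.coeff_eq_zero ((coefEquiv n m).symm (fun a => y (toZ a.1))).2 hd
      rw [h0]
      by_contra h
      exact hd ((degree_toN hc).2 (hy c (Ne.symm h)).2)
  · rw [kap_apply_of_not _ hc]
    by_contra h
    exact hc (mem_A0.1 (hy c (Ne.symm h)).1)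

lemma kap_mul {n d m : ℕ} (a : Fin (n + 1) →₀ ℕ) (v : Forms n d)
    (hv : (v : MvPolynomial (Fin (n + 1)) ℂ) = monomial a 1) (g : Forms n m) :
    kap n (m + d) (mulForms n d m v g) = Tr (Aj n 0) (toZ a) (kap n m g) := by
  ext c
  by_cases hc : 0 ≤ c
  · rw [kap_apply_nonneg _ hc]
    have h1 : ((mulForms n d m v g : Forms n (m + d)) : MvPolynomial (Fin (n + 1)) ℂ) =
        g.1 * monomial a 1 := by rw [← hv]; rfl
    rw [h1, coeff_mul_monomial']
    have hiff : a ≤ toN c ↔ 0 ≤ c - toZ a := by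
      rw [Finsupp.le_def, Pi.le_def]
      apply forall_congr'
      intro k
      have := hc k
      simp only [toN_apply, Pi.zero_apply, Pi.sub_apply, toZ] at this ⊢
      omega
    by_cases h : a ≤ toN c
    · have h2 := hiff.1 h
      rw [if_pos h, Tr_apply_of _ (mem_A0.2 hc) (mem_A0.2 h2), kap_apply_nonneg _ h2, mul_one]
      congr 1
      ext k
      simp [toN_apply, toZ]
    · rw [if_neg h, Tr_apply_of_notMem]
      intro h'
      exact h (hiff.2 (mem_A0.1 h'.2))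
  · rw [kap_apply_of_not _ hc, Tr_apply_of_notMem]
    intro h'
    exact hc (mem_A0.1 h'.1)

section Phi

variable {n d : ℕ} {I : Type} [LinearOrder I] [Fintype I] (b : Module.Basis I ℂ (Forms n d))
  (a : I → Fin (n + 1) →₀ ℕ)

/-- Koszul chains as functions on (sets of monomials) x (lattice). -/
noncomputable def Phi (p m : ℕ) : ((⋀[ℂ]^p (Forms n d)) ⊗[ℂ] Forms n m) →ₗ[ℂ]
    (Finset I → (Fin (n + 1) → ℤ) → ℂ) :=
  ((kap n m).compLeft (Finset I)).comp (coordE b p)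

lemma Phi_apply (p m : ℕ) (z : (⋀[ℂ]^p (Forms n d)) ⊗[ℂ] Forms n m) (F : Finset I) :
    Phi b p m z F = kap n m (coordE b p z F) := rfl

lemma Phi_injective (p m : ℕ) : Function.Injective (Phi b p m) := by
  intro z w h
  apply coordE_injective b p
  ext F
  have := kap_injective n m (congrFun h F)
  rw [this]

lemma Phi_mem (p m : ℕ) (z : (⋀[ℂ]^p (Forms n d)) ⊗[ℂ] Forms n m) :
    Phi b p m z ∈ YA I (Aj n 0) p (m : ℤ) := by
  intro F c h
  rw [Phi_apply] at h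
  refine ⟨?_, kap_ne_zero _ h⟩
  by_contra hF
  rw [coordE_apply_of_ne b p z F hF, map_zero] at h
  exact h rfl

lemma Phi_surj (p m : ℕ) {y : Finset I → (Fin (n + 1) → ℤ) → ℂ}
    (hy : y ∈ YA I (Aj n 0) p (m : ℤ)) : ∃ z, Phi b p m z = y := by
  have h1 : ∀ F, ∃ g : Forms n m, kap n m g = y F := fun F =>
    exists_kap (y F) (fun c hc => (hy F c hc).2)
  choose g hg using h1
  obtain ⟨z, hz⟩ := mem_range_coordE b p g (fun F hF => by
    apply kap_injective n m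
    rw [hg, map_zero]
    ext c
    by_contra h
    exact hF (hy F c h).1)
  refine ⟨z, ?_⟩
  ext F : 1
  rw [Phi_apply, hz, hg]

lemma Phi_koszulDiff (hb : ∀ i, (b i : MvPolynomial (Fin (n + 1)) ℂ) = monomial (a i) 1)
    (p m : ℕ) (z : (⋀[ℂ]^(p + 1) (Forms n d)) ⊗[ℂ] Forms n m) :
    Phi b p (m + d) (koszulDiff (mulForms n d m) p z) =
      DA (fun i => toZ (a i)) (Aj n 0) (Phi b (p + 1) m z) := by
  ext F : 1
  rw [Phi_apply, coordE_koszulDiff, kd_apply, DA, kd_apply, map_sum]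
  apply Finset.sum_congr rfl
  intro i _
  rw [map_zsmul, kap_mul (a i) (b i) (hb i), Phi_apply]

/-- The Koszul cohomology group is the homology of the positive orthant. -/
theorem cohomologyDim_eq_HA (hb : ∀ i, (b i : MvPolynomial (Fin (n + 1)) ℂ) = monomial (a i) 1)
    (p q : ℕ) :
    kPQ n d ((p + 1 : ℕ) : ℤ) (q + 1) =
      HA (fun i => toZ (a i)) (d : ℤ) (Aj n 0) (p + 1) ((d * (q + 1) : ℕ) : ℤ) := by
  change cohomologyDim (K := ℂ)
      (A := (⋀[ℂ]^(p + 1 + 1) (Forms n d)) ⊗[ℂ] Forms n (d * q))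
      (B := (⋀[ℂ]^(p + 1) (Forms n d)) ⊗[ℂ] Forms n (d * q + d))
      (C := (⋀[ℂ]^p (Forms n d)) ⊗[ℂ] Forms n (d * q + d + d))
      (koszulDiff (mulForms n d (d * q)) (p + 1)) (koszulDiff (mulForms n d (d * q + d)) p) = _
  unfold cohomologyDim HA
  have hdeg : ((d * (q + 1) : ℕ) : ℤ) = ((d * q + d : ℕ) : ℤ) := by push_cast; ring
  rw [hdeg]
  refine finrank_quot_eq (K := ℂ)
    (X := (⋀[ℂ]^(p + 1) (Forms n d)) ⊗[ℂ] Forms n (d * q + d))
    (X' := Finset I → (Fin (n + 1) → ℤ) → ℂ) _ _ _ _ (Phi b (p + 1) (d * q + d)) ?_ ?_ ?_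
  · intro z hz
    refine ⟨Phi_mem b _ _ z, ?_⟩
    change DA (fun i => toZ (a i)) (Aj n 0) (Phi b (p + 1) (d * q + d) z) = 0
    rw [← Phi_koszulDiff b a hb]
    rw [LinearMap.mem_ker] at hz
    rw [hz, map_zero]
  · intro z hz
    have hsub : ((d * q + d : ℕ) : ℤ) - (d : ℤ) = ((d * q : ℕ) : ℤ) := by push_cast; ring
    constructor
    · rintro ⟨y, hy, hyz⟩
      rw [SetLike.mem_coe, hsub] at hy
      obtain ⟨w, rfl⟩ := Phi_surj b (p + 1 + 1) (d * q) hy
      refine ⟨w, ?_⟩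
      apply Phi_injective b (p + 1) (d * q + d)
      rw [Phi_koszulDiff b a hb, hyz]
    · rintro ⟨w, rfl⟩
      refine ⟨Phi b (p + 1 + 1) (d * q) w, ?_, ?_⟩
      · rw [SetLike.mem_coe, hsub]
        exact Phi_mem b _ _ w
      · rw [Phi_koszulDiff b a hb]
  · rintro y ⟨hy1, hy2⟩
    obtain ⟨z, rfl⟩ := Phi_surj b (p + 1) (d * q + d) hy1
    refine ⟨z, ?_, ?_⟩
    · rw [LinearMap.mem_ker]
      apply Phi_injective b p (d * q + d + d)
      rw [Phi_koszulDiff b a hb, map_zero]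
      exact hy2
    · rw [sub_self]
      exact Submodule.zero_mem _

/-- The kernel of the Koszul differential in coordinates. -/
theorem finrank_ker_koszulDiff
    (hb : ∀ i, (b i : MvPolynomial (Fin (n + 1)) ℂ) = monomial (a i) 1) (s m : ℕ) :
    Module.finrank ℂ (LinearMap.ker (koszulDiff (mulForms n d m) s)) =
      Module.finrank ℂ (ZA (fun i => toZ (a i)) (Aj n 0) (s + 1) (m : ℤ)) := by
  refine finrank_eq_of_bij (K := ℂ)
    (X := (⋀[ℂ]^(s + 1) (Forms n d)) ⊗[ℂ] Forms n m)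
    (X' := Finset I → (Fin (n + 1) → ℤ) → ℂ) _ _ (Phi b (s + 1) m) ?_ ?_ ?_
  · intro z hz
    refine ⟨Phi_mem b _ _ z, ?_⟩
    change DA (fun i => toZ (a i)) (Aj n 0) (Phi b (s + 1) m z) = 0
    rw [← Phi_koszulDiff b a hb]
    rw [LinearMap.mem_ker] at hz
    rw [hz, map_zero]
  · intro z _ hz
    apply Phi_injective b (s + 1) m
    rw [hz, map_zero]
  · rintro y ⟨hy1, hy2⟩
    obtain ⟨z, rfl⟩ := Phi_surj b (s + 1) m hy1
    refine ⟨z, ?_, rfl⟩
    rw [LinearMap.mem_ker]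
    apply Phi_injective b s (m + d)
    rw [Phi_koszulDiff b a hb, map_zero]
    exact hy2

end Phi

end Pool.Agent.Work.MP_c48073_ag
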