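import Pool.Agent.Work.MP_c48073_ag.StepP

/-!
The final contradiction with the normal distribution.
-/

namespace Pool.Agent.Work.MP_c48073_ag

open Finset Filter Topology Asymptotics

lemma w_sq_ge {e : ℕ} (he : 29 ≤ e) :
    4 * ((8 + 2 * e).choose 8 : ℝ) ≤ ((c3 e : ℝ) ^ 2) ^ 2 := by
  have h1 : ((8 + 2 * e).choose 8 : ℝ) ≤ ((8 + 2 * e : ℕ) : ℝ) ^ 8 / (Nat.factorial 8 : ℕ) :=
    Nat.choose_le_pow_div 8 (8 + 2 * e)
  have h8 : ((Nat.factorial 8 : ℕ) : ℝ) = 40320 := by norm_num [Nat.factorial]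
  rw [h8] at h1
  push_cast at h1
  have he' : (29 : ℝ) ≤ e := by exact_mod_cast he
  have h2 : ((e : ℝ) + 1) ^ 2 / 2 ≤ c3 e := by
    have : (2 * c3 e : ℝ) = (e + 1) * (e + 2) := by exact_mod_cast two_c3 e
    nlinarith
  have h3 : (((e : ℝ) + 1) ^ 2 / 2) ^ 4 ≤ (c3 e : ℝ) ^ 4 := by
    apply pow_le_pow_left₀ (by positivity) h2
  have h4 : ((8 : ℝ) + 2 * e) ^ 8 ≤ (2.2 * ((e : ℝ) + 1)) ^ 8 := by
    apply pow_le_pow_left₀ (by positivity)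
    linarith
  have h5 : (2.2 * ((e : ℝ) + 1)) ^ 8 = 2.2 ^ 8 * ((e : ℝ) + 1) ^ 8 := by ring
  have h6 : (((e : ℝ) + 1) ^ 2 / 2) ^ 4 = ((e : ℝ) + 1) ^ 8 / 16 := by ring
  have h7 : ((c3 e : ℝ) ^ 2) ^ 2 = (c3 e : ℝ) ^ 4 := by ring
  have h8 : (0 : ℝ) ≤ ((e : ℝ) + 1) ^ 8 := by positivity
  have h9 : (2.2 : ℝ) ^ 8 = 548.75873536 := by norm_num
  rw [h7]
  rw [h6] at h3
  rw [h5, h9] at h4
  linarith

lemma w_le {e : ℕ} : c3 e ^ 2 ≤ (8 + 2 * e).choose 8 := by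
  classical
  refine (card_inM_ge (e := e) (d := 2 * e) rfl 0).trans ?_
  rw [← card_Mon, ← Finset.card_univ]
  exact Finset.card_le_card (Finset.filter_subset _ _)

/-- The central estimate. -/
theorem central {e : ℕ} (he : 29 ≤ e) (hρ : 100 ≤ √(rd 8 (2 * e))) {P Q : ℕ}
    (hP1 : rd 8 (2 * e) / 2 - √(rd 8 (2 * e)) / 4 - 1 ≤ P)
    (hP2 : (P : ℝ) ≤ rd 8 (2 * e) / 2 - √(rd 8 (2 * e)) / 4)
    (hQ1 : rd 8 (2 * e) / 2 + √(rd 8 (2 * e)) / 4 - 1 ≤ Q)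
    (hQ2 : (Q : ℝ) ≤ rd 8 (2 * e) / 2 + √(rd 8 (2 * e)) / 4) :
    (kPQ 8 (2 * e) (P : ℤ) 8 : ℝ) ≤ Real.exp (-(1 / 8)) * (kPQ 8 (2 * e) (Q : ℤ) 8 : ℝ) := by
  set ρ := √(rd 8 (2 * e)) with hρdef
  set R : ℝ := ((8 + 2 * e).choose 8 : ℝ) with hR
  have hr : rd 8 (2 * e) = R - 1 := rfl
  have hr0 : 0 ≤ rd 8 (2 * e) := by
    by_contra h
    rw [hρdef, Real.sqrt_eq_zero_of_nonpos (le_of_lt (not_le.1 h))] at hρ
    norm_num at hρ
  have hsq : ρ * ρ = R - 1 := by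
    rw [hρdef, Real.mul_self_sqrt hr0, hr]
  rw [hr] at hP1 hP2 hQ1 hQ2
  set w : ℝ := (c3 e : ℝ) ^ 2 with hw
  have hw0 : 0 ≤ w := by positivity
  have hw1 : 2 * ρ ≤ w := by
    have h1 : 4 * R ≤ w ^ 2 := w_sq_ge he
    have h2 : (2 * ρ) ^ 2 ≤ w ^ 2 := by nlinarith
    exact (pow_le_pow_iff_left₀ (by positivity) hw0 (by norm_num)).1 h2
  have hw2 : w ≤ R := by
    have := w_le (e := e)
    rw [hw, hR]
    exact_mod_cast this
  have hstep : ∀ p : ℕ, P ≤ p → p + 1 ≤ Q →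
      (kPQ 8 (2 * e) (p : ℤ) 8 : ℝ) ≤
        (1 - 1 / (2 * ρ)) * (kPQ 8 (2 * e) ((p + 1 : ℕ) : ℤ) 8 : ℝ) := by
    intro p hp1 hp2
    have hp1' : (P : ℝ) ≤ p := by exact_mod_cast hp1
    have hp2' : (p : ℝ) + 1 ≤ Q := by exact_mod_cast hp2
    have hpR : p + 11 ≤ (8 + 2 * e).choose 8 := by
      have : (p : ℝ) + 11 ≤ ((8 + 2 * e).choose 8 : ℕ) := by
        change (p : ℝ) + 11 ≤ R
        nlinarith
      exact_mod_cast this
    have hp0 : 1 ≤ p := by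
      have : (1 : ℝ) ≤ p := by nlinarith
      exact_mod_cast this
    have h1 := step_p (e := e) (k := 2 * e - 9) (p := p) (by omega) hp0 hpR
    set X : ℝ := (kPQ 8 (2 * e) (p : ℤ) 8 : ℝ) with hX
    set Y : ℝ := (kPQ 8 (2 * e) ((p + 1 : ℕ) : ℤ) 8 : ℝ) with hY
    have hY0 : 0 ≤ Y := Nat.cast_nonneg _
    have hA : 0 < R - 9 - p - w / 4 := by nlinarith
    have hA2 : R - 9 - p - w / 4 ≤ ρ * ρ / 2 + ρ / 4 := by nlinarith
    have hA3 : (R - 9 - p - w / 4) / (2 * ρ) ≤ ρ / 4 + 1 / 8 := by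
      rw [div_le_iff₀ (by linarith)]
      nlinarith
    have hB : (p : ℝ) + 10 - 3 * w / 4 ≤ (1 - 1 / (2 * ρ)) * (R - 9 - p - w / 4) := by
      have : (1 - 1 / (2 * ρ)) * (R - 9 - p - w / 4) =
          (R - 9 - p - w / 4) - (R - 9 - p - w / 4) / (2 * ρ) := by ring
      rw [this]
      linarith
    have h2 : (R - 9 - p - w / 4) * X ≤
        (R - 9 - p - w / 4) * ((1 - 1 / (2 * ρ)) * Y) := by
      calc (R - 9 - p - w / 4) * X ≤ ((p : ℝ) + 10 - 3 * w / 4) * Y := h1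
        _ ≤ ((1 - 1 / (2 * ρ)) * (R - 9 - p - w / 4)) * Y :=
            mul_le_mul_of_nonneg_right hB hY0
        _ = _ := by ring
    exact le_of_mul_le_mul_left h2 hA
  have hθ0 : 0 ≤ 1 - 1 / (2 * ρ) := by
    rw [sub_nonneg, div_le_one (by linarith)]
    linarith
  have hind : ∀ m : ℕ, P + m ≤ Q → (kPQ 8 (2 * e) (P : ℤ) 8 : ℝ) ≤
      (1 - 1 / (2 * ρ)) ^ m * (kPQ 8 (2 * e) ((P + m : ℕ) : ℤ) 8 : ℝ) := by
    intro m
    induction m with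
    | zero => intro _; simp
    | succ m ih =>
      intro hm
      have h1 := ih (by omega)
      have h2 := hstep (P + m) (by omega) (by omega)
      calc (kPQ 8 (2 * e) (P : ℤ) 8 : ℝ)
          ≤ (1 - 1 / (2 * ρ)) ^ m * (kPQ 8 (2 * e) ((P + m : ℕ) : ℤ) 8 : ℝ) := h1
        _ ≤ (1 - 1 / (2 * ρ)) ^ m *
            ((1 - 1 / (2 * ρ)) * (kPQ 8 (2 * e) ((P + m + 1 : ℕ) : ℤ) 8 : ℝ)) :=
            mul_le_mul_of_nonneg_left h2 (pow_nonneg hθ0 m)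
        _ = (1 - 1 / (2 * ρ)) ^ (m + 1) *
            (kPQ 8 (2 * e) ((P + (m + 1) : ℕ) : ℤ) 8 : ℝ) := by
            rw [pow_succ, ← add_assoc]; ring
  have hPQ : P ≤ Q := by
    have : (P : ℝ) ≤ Q := by linarith
    exact_mod_cast this
  obtain ⟨m, hm⟩ := Nat.exists_eq_add_of_le hPQ
  have h1 := hind m hm.symm.le
  rw [← hm] at h1
  refine h1.trans ?_
  apply mul_le_mul_of_nonneg_right _ (Nat.cast_nonneg _)
  have hm' : ρ / 2 - 1 ≤ m := by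
    have : (Q : ℝ) = P + m := by rw [hm]; push_cast; ring
    linarith
  have h2 : 1 - 1 / (2 * ρ) ≤ Real.exp (-(1 / (2 * ρ))) := by
    have := Real.add_one_le_exp (-(1 / (2 * ρ)))
    linarith
  calc (1 - 1 / (2 * ρ)) ^ m ≤ Real.exp (-(1 / (2 * ρ))) ^ m :=
        pow_le_pow_left₀ hθ0 h2 m
    _ = Real.exp (m * (-(1 / (2 * ρ)))) := by rw [← Real.exp_nat_mul]
    _ ≤ Real.exp (-(1 / 8)) := by
        apply Real.exp_le_exp.2
        have h3 : 1 / 8 ≤ (m : ℝ) * (1 / (2 * ρ)) := by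
          rw [mul_one_div, le_div_iff₀ (by linarith)]
          linarith
        linarith

lemma rd_tendsto : Tendsto (fun d : ℕ => √(rd 8 d)) atTop atTop := by
  have h1 : ∀ d : ℕ, ((d : ℝ) + 1) / 40320 - 1 ≤ rd 8 d := by
    intro d
    have h2 : (((8 + d + 1 - 8 : ℕ) : ℝ) ^ 8 : ℝ) / (Nat.factorial 8 : ℕ) ≤
        ((8 + d).choose 8 : ℝ) := Nat.pow_le_choose 8 (8 + d)
    have h8 : ((Nat.factorial 8 : ℕ) : ℝ) = 40320 := by norm_num [Nat.factorial]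
    rw [h8] at h2
    have h3 : 8 + d + 1 - 8 = d + 1 := by omega
    rw [h3] at h2
    push_cast at h2
    have h4 : ((d : ℝ) + 1) ≤ ((d : ℝ) + 1) ^ 8 := by
      apply le_self_pow₀ _ (by norm_num)
      have : (0 : ℝ) ≤ d := Nat.cast_nonneg _
      linarith
    have h5 : ((d : ℝ) + 1) / 40320 ≤ ((d : ℝ) + 1) ^ 8 / 40320 := by
      apply div_le_div_of_nonneg_right h4 (by norm_num)
    unfold rd
    linarith
  have h2 : Tendsto (fun d : ℕ => ((d : ℝ) + 1) / 40320 - 1) atTop atTop := by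
    apply tendsto_atTop_add_const_right
    apply Tendsto.atTop_div_const (by norm_num)
    apply tendsto_atTop_add_const_right
    exact tendsto_natCast_atTop_atTop
  exact Real.tendsto_sqrt_atTop.comp (tendsto_atTop_mono h1 h2)

lemma floor_littleO (c : ℝ) :
    (fun d : ℕ => ((⌊rd 8 d / 2 + c * √(rd 8 d) / 2⌋ : ℤ) : ℝ) -
      (rd 8 d / 2 + c * √(rd 8 d) / 2)) =o[atTop] (fun d => √(rd 8 d)) := by
  have h1 : (fun d : ℕ => ((⌊rd 8 d / 2 + c * √(rd 8 d) / 2⌋ : ℤ) : ℝ) -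
      (rd 8 d / 2 + c * √(rd 8 d) / 2)) =O[atTop] (fun _ : ℕ => (1 : ℝ)) := by
    apply Asymptotics.IsBigO.of_bound 1
    apply Eventually.of_forall
    intro d
    have h1 := Int.floor_le (rd 8 d / 2 + c * √(rd 8 d) / 2)
    have h2 := Int.lt_floor_add_one (rd 8 d / 2 + c * √(rd 8 d) / 2)
    rw [Real.norm_eq_abs, norm_one, mul_one, abs_le]
    constructor <;> linarith
  apply h1.trans_isLittleO
  rw [Asymptotics.isLittleO_one_left_iff]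
  have h3 : (fun d : ℕ => ‖√(rd 8 d)‖) = fun d : ℕ => √(rd 8 d) := by
    ext d
    rw [Real.norm_eq_abs, abs_of_nonneg (Real.sqrt_nonneg _)]
  rw [h3]
  exact rd_tendsto

/-- The last row of the Betti table of the Veronese embeddings of `P^8` is not asymptotically
normally distributed. -/
theorem not_normalRow : ¬ NormalRow 8 8 := by
  rintro ⟨F, hF, h⟩
  have hp := h (1 / 2) _ (floor_littleO (1 / 2))
  have hm := h (-(1 / 2)) _ (floor_littleO (-(1 / 2)))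
  have hL1 : -(1 / 2 : ℝ) ^ 2 / 2 = -(1 / 8) := by norm_num
  have hL2 : -(-(1 / 2 : ℝ)) ^ 2 / 2 = -(1 / 8) := by norm_num
  rw [hL1] at hp
  rw [hL2] at hm
  have h2e : Tendsto (fun e : ℕ => 2 * e) atTop atTop := tendsto_id.const_mul_atTop' (by norm_num)
  have hp' := hp.comp h2e
  have hm' := hm.comp h2e
  have hev : ∀ᶠ e : ℕ in atTop,
      F (2 * e) * kPQ 8 (2 * e)
          ⌊rd 8 (2 * e) / 2 + -(1 / 2) * √(rd 8 (2 * e)) / 2⌋ 8 ≤
        Real.exp (-(1 / 8)) * (F (2 * e) * kPQ 8 (2 * e)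
          ⌊rd 8 (2 * e) / 2 + (1 / 2) * √(rd 8 (2 * e)) / 2⌋ 8) := by
    have hρ := (rd_tendsto.comp h2e).eventually_ge_atTop 100
    filter_upwards [hρ, eventually_ge_atTop 29] with e hρ he
    simp only [Function.comp_apply] at hρ
    have hr0 : 0 ≤ rd 8 (2 * e) := by
      by_contra h
      rw [Real.sqrt_eq_zero_of_nonpos (le_of_lt (not_le.1 h))] at hρ
      norm_num at hρ
    have hsq : √(rd 8 (2 * e)) * √(rd 8 (2 * e)) = rd 8 (2 * e) := Real.mul_self_sqrt hr0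
    set ρ := √(rd 8 (2 * e)) with hρdef
    set r := rd 8 (2 * e) with hrdef
    have hx1 : (0 : ℝ) ≤ r / 2 + -(1 / 2) * ρ / 2 := by nlinarith
    have hx2 : (0 : ℝ) ≤ r / 2 + (1 / 2) * ρ / 2 := by nlinarith
    obtain ⟨P, hP⟩ := Int.eq_ofNat_of_zero_le (Int.floor_nonneg.2 hx1)
    obtain ⟨Q, hQ⟩ := Int.eq_ofNat_of_zero_le (Int.floor_nonneg.2 hx2)
    have hP' : ((⌊r / 2 + -(1 / 2) * ρ / 2⌋ : ℤ) : ℝ) = (P : ℝ) := by rw [hP]; simp
    have hQ' : ((⌊r / 2 + (1 / 2) * ρ / 2⌋ : ℤ) : ℝ) = (Q : ℝ) := by rw [hQ]; simp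
    have a1 := Int.floor_le (r / 2 + -(1 / 2) * ρ / 2)
    have a2 := Int.lt_floor_add_one (r / 2 + -(1 / 2) * ρ / 2)
    have b1 := Int.floor_le (r / 2 + (1 / 2) * ρ / 2)
    have b2 := Int.lt_floor_add_one (r / 2 + (1 / 2) * ρ / 2)
    rw [hP'] at a1 a2
    rw [hQ'] at b1 b2
    have hc := central he hρ (P := P) (Q := Q) (by linarith) (by linarith) (by linarith)
      (by linarith)
    rw [hP, hQ]
    have hF0 : 0 < F (2 * e) := hF _ (by omega)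
    calc F (2 * e) * (kPQ 8 (2 * e) (P : ℤ) 8 : ℝ)
        ≤ F (2 * e) * (Real.exp (-(1 / 8)) * (kPQ 8 (2 * e) (Q : ℤ) 8 : ℝ)) :=
          mul_le_mul_of_nonneg_left hc hF0.le
      _ = _ := by ring
  have hlim := le_of_tendsto_of_tendsto hm' (hp'.const_mul (Real.exp (-(1 / 8)))) hev
  have h1 : Real.exp (-(1 / 8)) < 1 := by
    rw [Real.exp_lt_one_iff]; norm_num
  have h2 := Real.exp_pos (-(1 / 8 : ℝ))
  nlinarith

end Pool.Agent.Work.MP_c48073_ag
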