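import Mathlib

/-!
Generic points: a nonzero polynomial with few monomials vanishes at few of them.
-/

namespace Pool.Agent.Work.MP_c48073_ag

open Finset MvPolynomial

section Generic

variable {σ : Type} [Fintype σ]

/-- evaluation of a monomial -/
noncomputable def mev (x : σ → ℂ) (β : σ →₀ ℕ) : ℂ := ∏ j, x j ^ β j

lemma mev_add (x : σ → ℂ) (β γ : σ →₀ ℕ) : mev x (β + γ) = mev x β * mev x γ := by
  unfold mev
  rw [← Finset.prod_mul_distrib]
  apply Finset.prod_congr rfl
  intro j _
  rw [Finsupp.add_apply, pow_add]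

lemma eval_monomial_mev (x : σ → ℂ) (β : σ →₀ ℕ) (c : ℂ) :
    eval x (monomial β c) = c * mev x β := by
  rw [eval_monomial]
  congr 1
  rw [Finsupp.prod_fintype]
  · rfl
  · intro i; simp

omit [Fintype σ] in
lemma exists_avoid {ι : Type} (s : Finset ι) (g : ι → MvPolynomial σ ℂ)
    (h : ∀ i ∈ s, g i ≠ 0) : ∃ x : σ → ℂ, ∀ i ∈ s, eval x (g i) ≠ 0 := by
  by_contra hcon
  push Not at hcon
  have h0 : ∏ i ∈ s, g i = 0 := by
    apply MvPolynomial.funext
    intro x
    obtain ⟨i, hi, hx⟩ := hcon x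
    rw [map_prod, map_zero]
    exact Finset.prod_eq_zero hi hx
  rw [Finset.prod_eq_zero_iff] at h0
  obtain ⟨i, hi, h0⟩ := h0
  exact h i hi h0

/-- few conditions leave a nonzero combination -/
lemma exists_combination (x : ℕ → σ → ℂ) (M : Finset (σ →₀ ℕ)) (T : Finset ℕ)
    (hT : T.card < M.card) : ∃ c : (σ →₀ ℕ) → ℂ, (∑ β ∈ M, monomial β (c β)) ≠ 0 ∧
      ∀ i ∈ T, ∑ β ∈ M, c β * mev (x i) β = 0 := by
  classical
  let L : (M → ℂ) →ₗ[ℂ] (T → ℂ) :=
    { toFun := fun c i => ∑ β : M, c β * mev (x i) β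
      map_add' := by
        intro c c'; ext i; simp [add_mul, Finset.sum_add_distrib]
      map_smul' := by
        intro a c; ext i; simp [mul_assoc, Finset.mul_sum] }
  have hker : LinearMap.ker L ≠ ⊥ := by
    apply LinearMap.ker_ne_bot_of_finrank_lt
    simpa using hT
  obtain ⟨c, hc, hc0⟩ := (Submodule.ne_bot_iff _).1 hker
  refine ⟨fun β => if h : β ∈ M then c ⟨β, h⟩ else 0, ?_, ?_⟩
  · intro h0
    apply hc0
    ext ⟨β, hβ⟩
    have h1 := congrArg (coeff β) h0
    rw [coeff_sum, coeff_zero] at h1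
    simp only [coeff_monomial] at h1
    rw [Finset.sum_eq_single β] at h1
    · simpa [hβ] using h1
    · intro b _ hb
      rw [if_neg hb]
    · intro h; exact absurd hβ h
  · intro i hi
    have h1 := congrFun (LinearMap.mem_ker.1 hc) ⟨i, hi⟩
    change ∑ β : M, c β * mev (x i) β = 0 at h1
    rw [← Finset.sum_attach]
    rw [Finset.univ_eq_attach] at h1
    rw [← h1]
    apply Finset.sum_congr rfl
    rintro ⟨β, hβ⟩ _
    simp [hβ]

theorem generic_interp (U : Finset (σ →₀ ℕ)) (N : ℕ) : ∃ x : ℕ → σ → ℂ,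
    ∀ M ⊆ U, ∀ T ⊆ Finset.range N, T.card ≤ M.card → ∀ y : ℕ → ℂ,
      ∃ c : (σ →₀ ℕ) → ℂ, ∀ i ∈ T, ∑ β ∈ M, c β * mev (x i) β = y i := by
  classical
  induction N with
  | zero =>
    refine ⟨fun _ _ => 0, ?_⟩
    intro M _ T hT _ y
    refine ⟨0, fun i hi => ?_⟩
    exact absurd (hT hi) (by simp)
  | succ N ih =>
    obtain ⟨x, hx⟩ := ih
    have hex : ∀ M : Finset (σ →₀ ℕ), ∀ T : Finset ℕ, ∃ c : (σ →₀ ℕ) → ℂ, T.card < M.card →
        ((∑ β ∈ M, monomial β (c β)) ≠ 0 ∧ ∀ i ∈ T, ∑ β ∈ M, c β * mev (x i) β = 0) := by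
      intro M T
      by_cases h : T.card < M.card
      · obtain ⟨c, hc⟩ := exists_combination x M T h
        exact ⟨c, fun _ => hc⟩
      · exact ⟨0, fun h' => absurd h' h⟩
    choose g hg using hex
    obtain ⟨p, hp⟩ := exists_avoid
      (((U.powerset) ×ˢ ((Finset.range N).powerset)).filter (fun q => q.2.card < q.1.card))
      (fun q => ∑ β ∈ q.1, monomial β (g q.1 q.2 β)) (by
        rintro ⟨M, T⟩ h
        exact (hg M T (Finset.mem_filter.1 h).2).1)
    refine ⟨Function.update x N p, ?_⟩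
    intro M hM T' hT' hcard y
    have hupd : ∀ i ∈ Finset.range N, Function.update x N p i = x i := by
      intro i hi
      rw [Function.update_of_ne]
      exact (Finset.mem_range.1 hi).ne
    by_cases hN : N ∈ T'
    · have hT : T'.erase N ⊆ Finset.range N := by
        intro i hi
        have h1 := hT' (Finset.mem_of_mem_erase hi)
        have h2 := Finset.ne_of_mem_erase hi
        rw [Finset.mem_range] at h1 ⊢
        omega
      have hlt : (T'.erase N).card < M.card := by
        rw [Finset.card_erase_of_mem hN]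
        have := Finset.card_pos.2 ⟨N, hN⟩
        omega
      obtain ⟨c, hc⟩ := hx M hM (T'.erase N) hT hlt.le y
      have hg1 := hg M (T'.erase N) hlt
      have hg2 : ∑ β ∈ M, g M (T'.erase N) β * mev p β ≠ 0 := by
        have := hp (M, T'.erase N) (by
          rw [Finset.mem_filter, Finset.mem_product, Finset.mem_powerset, Finset.mem_powerset]
          exact ⟨⟨hM, hT⟩, hlt⟩)
        simpa only [map_sum, eval_monomial_mev] using this
      set A := ∑ β ∈ M, g M (T'.erase N) β * mev p β with hA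
      set B := ∑ β ∈ M, c β * mev p β with hB
      refine ⟨fun β => c β + ((y N - B) / A) * g M (T'.erase N) β, ?_⟩
      intro i hi
      have hexp : ∀ q : σ → ℂ, ∑ β ∈ M, (c β + ((y N - B) / A) * g M (T'.erase N) β) * mev q β =
          ∑ β ∈ M, c β * mev q β +
            ((y N - B) / A) * ∑ β ∈ M, g M (T'.erase N) β * mev q β := by
        intro q
        rw [Finset.mul_sum, ← Finset.sum_add_distrib]
        apply Finset.sum_congr rfl
        intro β _
        ring
      rw [hexp]
      by_cases hiN : i = N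
      · subst hiN
        rw [Function.update_self, ← hA, ← hB]
        field_simp
        ring
      · have hi' : i ∈ T'.erase N := Finset.mem_erase.2 ⟨hiN, hi⟩
        rw [hupd i (hT hi'), hc i hi', hg1.2 i hi', mul_zero, add_zero]
    · have hT : T' ⊆ Finset.range N := by
        intro i hi
        have h1 := hT' hi
        rw [Finset.mem_range] at h1 ⊢
        have : i ≠ N := fun h => hN (h ▸ hi)
        omega
      obtain ⟨c, hc⟩ := hx M hM T' hT hcard y
      refine ⟨c, fun i hi => ?_⟩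
      rw [hupd i (hT hi)]
      exact hc i hi

theorem generic_points (U : Finset (σ →₀ ℕ)) (N : ℕ) : ∃ x : ℕ → σ → ℂ,
    ∀ M ⊆ U, ∀ T ⊆ Finset.range N, M.card ≤ T.card → ∀ c : (σ →₀ ℕ) → ℂ,
      (∀ i ∈ T, ∑ β ∈ M, c β * mev (x i) β = 0) → ∀ β ∈ M, c β = 0 := by
  classical
  obtain ⟨x, hx⟩ := generic_interp U N
  refine ⟨x, ?_⟩
  intro M hM T₀ hT₀ hcard c hc β hβ
  obtain ⟨T, hTT, hTc⟩ := Finset.exists_subset_card_eq hcard
  have hT : T ⊆ Finset.range N := hTT.trans hT₀
  let L : (M → ℂ) →ₗ[ℂ] (T → ℂ) :=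
    { toFun := fun c i => ∑ β : M, c β * mev (x i) β
      map_add' := by
        intro c c'; ext i; simp [add_mul, Finset.sum_add_distrib]
      map_smul' := by
        intro a c; ext i; simp [mul_assoc, Finset.mul_sum] }
  have hsurj : Function.Surjective L := by
    intro y
    obtain ⟨c', hc'⟩ := hx M hM T hT hTc.le (fun i => if h : i ∈ T then y ⟨i, h⟩ else 0)
    refine ⟨fun β => c' β, ?_⟩
    ext ⟨i, hi⟩
    change ∑ β : M, c' β * mev (x i) β = _
    have h1 := hc' i hi
    rw [dif_pos hi] at h1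
    rw [← h1, ← Finset.sum_attach M, Finset.univ_eq_attach]
  have hinj : Function.Injective L :=
    (LinearMap.injective_iff_surjective_of_finrank_eq_finrank (by simp [hTc])).2 hsurj
  have h0 : (fun β : M => c β) = 0 := by
    apply hinj
    rw [map_zero]
    ext ⟨i, hi⟩
    change ∑ β : M, c β * mev (x i) β = 0
    rw [← hc i (hTT hi), ← Finset.sum_attach M, Finset.univ_eq_attach]
  exact congrFun h0 ⟨β, hβ⟩

end Generic

end Pool.Agent.Work.MP_c48073_ag
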