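import Pool.Agent.Work.MP_c48073_ag.Defs

namespace Pool.Agent.Work.MP_c48073_ag

open scoped TensorProduct
open Finset

/-! ### Signs -/

section Sign

variable {I : Type} [LinearOrder I]

/-- The Koszul sign. -/
def sg (i : I) (G : Finset I) : ℤ := (-1) ^ (G.filter (· < i)).card

lemma sg_mul_self (i : I) (G : Finset I) : sg i G * sg i G = 1 := by
  unfold sg
  rw [← pow_add, ← two_mul, pow_mul]
  simp

lemma sg_insert {i j : I} {G : Finset I} (hi : i ∉ G) :
    sg j (insert i G) = sg j G * (if i < j then -1 else 1) := by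
  unfold sg
  rw [Finset.filter_insert]
  split_ifs with h
  · rw [Finset.card_insert_of_notMem (by simp [hi]), pow_succ]
  · simp

lemma sg_swap {i j : I} {G : Finset I} (hij : i ≠ j) (hi : i ∉ G) (hj : j ∉ G) :
    sg j G * sg i (insert j G) = - (sg i G * sg j (insert i G)) := by
  rw [sg_insert hi, sg_insert hj]
  rcases lt_or_gt_of_ne hij with h | h
  · rw [if_neg h.asymm, if_pos h]; ring
  · rw [if_pos h, if_neg h.asymm]; ring

end Sign

section KD

variable {I : Type} [LinearOrder I] [Fintype I]
variable {K M N P : Type} [Field K] [AddCommGroup M] [Module K M]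
  [AddCommGroup N] [Module K N] [AddCommGroup P] [Module K P]

/-- The Koszul differential in coordinates. -/
noncomputable def kd (T : I → M →ₗ[K] N) : (Finset I → M) →ₗ[K] (Finset I → N) where
  toFun f G := ∑ i ∈ Gᶜ, sg i G • T i (f (insert i G))
  map_add' f g := by
    ext G; simp [Finset.sum_add_distrib]
  map_smul' c f := by
    ext G; simp [Finset.smul_sum, smul_comm c]

lemma kd_apply (T : I → M →ₗ[K] N) (f : Finset I → M) (G : Finset I) :
    kd T f G = ∑ i ∈ Gᶜ, sg i G • T i (f (insert i G)) := rfl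

lemma kd_kd (T : I → M →ₗ[K] N) (T' : I → N →ₗ[K] P)
    (h : ∀ i j x, T' i (T j x) = T' j (T i x)) (f : Finset I → M) : kd T' (kd T f) = 0 := by
  ext G
  rw [kd_apply, Pi.zero_apply]
  simp only [kd_apply, map_sum, map_zsmul, Finset.smul_sum, smul_smul]
  rw [Finset.sum_sigma']
  apply Finset.sum_involution (fun x _ => (⟨x.2, x.1⟩ : (_ : I) × I))
  · rintro ⟨i, j⟩ hij
    simp only [mem_sigma, mem_compl, mem_insert, not_or] at hij
    obtain ⟨hi, hji, hj⟩ := hij
    simp only
    rw [h i j, Finset.insert_comm i j, sg_swap hji hj hi, neg_smul, neg_add_cancel]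
  · rintro ⟨i, j⟩ hij _ heq
    simp only [mem_sigma, mem_compl, mem_insert, not_or] at hij
    simp only [Sigma.mk.injEq, heq_eq_eq] at heq
    exact hij.2.1 heq.1
  · rintro ⟨i, j⟩ hij
    simp only [mem_sigma, mem_compl, mem_insert, not_or] at hij ⊢
    exact ⟨hij.2.2, Ne.symm hij.2.1, hij.1⟩
  · rintro ⟨i, j⟩ _
    rfl

/-- contraction -/
noncomputable def contr (i : I) : (Finset I → M) →ₗ[K] (Finset I → M) where
  toFun f G := if i ∈ G then 0 else sg i G • f (insert i G)
  map_add' f g := by
    ext G; by_cases h : i ∈ G <;> simp [h]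
  map_smul' c f := by
    ext G; by_cases h : i ∈ G <;> simp [h, smul_comm c]

lemma contr_apply (i : I) (f : Finset I → M) (G : Finset I) :
    contr (K := K) i f G = if i ∈ G then 0 else sg i G • f (insert i G) := rfl

lemma kd_contr (T : I → M →ₗ[K] N) (i : I) (f : Finset I → M) :
    kd T (contr (K := K) i f) = - contr (K := K) i (kd T f) := by
  ext G
  rw [kd_apply, Pi.neg_apply, contr_apply]
  by_cases hi : i ∈ G
  · rw [if_pos hi, neg_zero]
    apply Finset.sum_eq_zero
    intro j _
    rw [contr_apply, if_pos (Finset.mem_insert_of_mem hi), map_zero, smul_zero]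
  · rw [if_neg hi, kd_apply, Finset.smul_sum, ← Finset.sum_neg_distrib]
    have hiG : i ∈ Gᶜ := by simpa using hi
    rw [← Finset.add_sum_erase _ _ hiG, contr_apply, if_pos (Finset.mem_insert_self _ _),
      map_zero, smul_zero, zero_add, Finset.compl_insert]
    apply Finset.sum_congr rfl
    intro j hj
    rw [Finset.mem_erase, Finset.mem_compl] at hj
    rw [contr_apply, if_neg (by simp [Ne.symm hj.1, hi]), map_zsmul, smul_smul, smul_smul,
      Finset.insert_comm i j, sg_swap (Ne.symm hj.1) hi hj.2, neg_smul]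

end KD

end Pool.Agent.Work.MP_c48073_ag
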