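import Pool.Agent.Work.MP_c48073_ag.Generic

/-!
Partial evaluations of polynomials at points, compatible with a partition of the variables into
three groups.
-/

namespace Pool.Agent.Work.MP_c48073_ag

open Finset MvPolynomial

section Lam

variable {n : ℕ} (grp : Fin (n + 1) → Fin 3)

/-- group degree -/
def gdeg (t : Fin 3) (β : Fin (n + 1) →₀ ℕ) : ℕ := ∑ i, if grp i = t then β i else 0

lemma gdeg_add (t : Fin 3) (β γ : Fin (n + 1) →₀ ℕ) :
    gdeg grp t (β + γ) = gdeg grp t β + gdeg grp t γ := by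
  unfold gdeg
  rw [← Finset.sum_add_distrib]
  apply Finset.sum_congr rfl
  intro i _
  split_ifs <;> simp

lemma sum_gdeg (β : Fin (n + 1) →₀ ℕ) : ∑ t, gdeg grp t β = β.degree := by
  unfold gdeg
  rw [Finset.sum_comm, Finsupp.degree_eq_sum]
  apply Finset.sum_congr rfl
  intro i _
  rw [Finset.sum_ite_eq]
  simp

/-- fine weight: exponents of the variables in group `τ`, group degrees elsewhere -/
def wt (τ : Fin 3) (β : Fin (n + 1) →₀ ℕ) : Fin (n + 1) → ℕ :=
  fun i => if grp i = τ then β i else gdeg grp (grp i) β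

lemma wt_add (τ : Fin 3) (β γ : Fin (n + 1) →₀ ℕ) :
    wt grp τ (β + γ) = wt grp τ β + wt grp τ γ := by
  ext i
  unfold wt
  rw [Pi.add_apply]
  split_ifs
  · rw [Finsupp.add_apply]
  · rw [gdeg_add]

lemma gdeg_of_wt {τ : Fin 3} {β γ : Fin (n + 1) →₀ ℕ} (h : wt grp τ β = wt grp τ γ) :
    gdeg grp τ β = gdeg grp τ γ := by
  unfold gdeg
  apply Finset.sum_congr rfl
  intro i _
  have := congrFun h i
  unfold wt at this
  split_ifs with hi
  · rwa [if_pos hi, if_pos hi] at this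
  · rfl

open Classical in
/-- partial evaluation -/
noncomputable def lam (τ : Fin 3) (x : Fin (n + 1) → ℂ) (m : Fin (n + 1) → ℕ) :
    MvPolynomial (Fin (n + 1)) ℂ →ₗ[ℂ] ℂ :=
  (basisMonomials (Fin (n + 1)) ℂ).constr ℂ (fun β => if wt grp τ β = m then mev x β else 0)

lemma lam_monomial (τ : Fin 3) (x : Fin (n + 1) → ℂ) (m : Fin (n + 1) → ℕ)
    (β : Fin (n + 1) →₀ ℕ) (c : ℂ) [Decidable (wt grp τ β = m)] :
    lam grp τ x m (monomial β c) = if wt grp τ β = m then c * mev x β else 0 := by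
  classical
  have h1 : (monomial β c : MvPolynomial (Fin (n + 1)) ℂ) =
      c • basisMonomials (Fin (n + 1)) ℂ β := by
    rw [coe_basisMonomials, smul_monomial, smul_eq_mul, mul_one]
  rw [h1, map_smul]
  unfold lam
  rw [Module.Basis.constr_basis]
  by_cases h : wt grp τ β = m
  · rw [if_pos h, if_pos h, smul_eq_mul]
  · rw [if_neg h, if_neg h, smul_zero]

lemma lam_eq_sum (τ : Fin 3) (x : Fin (n + 1) → ℂ) (m : Fin (n + 1) → ℕ)
    (h : MvPolynomial (Fin (n + 1)) ℂ) (U : Finset (Fin (n + 1) →₀ ℕ)) (hU : h.support ⊆ U)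
    [DecidablePred (fun β => wt grp τ β = m)] :
    lam grp τ x m h = ∑ β ∈ U.filter (fun β => wt grp τ β = m), coeff β h * mev x β := by
  classical
  conv_lhs => rw [as_sum h]
  rw [map_sum, Finset.sum_filter]
  simp only [lam_monomial]
  apply Finset.sum_subset hU
  intro β _ hβ
  rw [notMem_support_iff.1 hβ]
  simp

lemma lam_mul (τ : Fin 3) (x : Fin (n + 1) → ℂ) (m m0 : Fin (n + 1) → ℕ)
    (b h : MvPolynomial (Fin (n + 1)) ℂ) (hb : ∀ β, coeff β b ≠ 0 → wt grp τ β = m0) :
    lam grp τ x (m0 + m) (h * b) = eval x b * lam grp τ x m h := by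
  classical
  have hmon : ∀ β, wt grp τ β = m0 → ∀ c, lam grp τ x (m0 + m) (h * monomial β c) =
      eval x (monomial β c) * lam grp τ x m h := by
    intro β hβ c
    conv_lhs => rw [as_sum h]
    conv_rhs => rw [as_sum h]
    rw [Finset.sum_mul, map_sum, map_sum, Finset.mul_sum]
    apply Finset.sum_congr rfl
    intro γ _
    rw [monomial_mul, lam_monomial, lam_monomial, eval_monomial_mev, wt_add, hβ, mev_add,
      add_comm (wt grp τ γ) m0]
    by_cases hγ : wt grp τ γ = m
    · rw [if_pos (by rw [hγ]), if_pos hγ]; ring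
    · rw [if_neg (fun h => hγ (add_left_cancel h)), if_neg hγ, mul_zero]
  conv_lhs => rw [as_sum b]
  conv_rhs => rw [as_sum b]
  rw [Finset.mul_sum, map_sum, map_sum, Finset.sum_mul]
  apply Finset.sum_congr rfl
  intro β hβ
  exact hmon β (hb β (mem_support_iff.1 hβ)) _

lemma lam_mul_eq_zero (τ : Fin 3) (x : Fin (n + 1) → ℂ) (m : Fin (n + 1) → ℕ)
    (b h : MvPolynomial (Fin (n + 1)) ℂ)
    (hb : ∀ β, coeff β b ≠ 0 → ∀ γ, wt grp τ (γ + β) ≠ m) :
    lam grp τ x m (h * b) = 0 := by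
  classical
  rw [as_sum h, as_sum b, Finset.sum_mul, map_sum]
  apply Finset.sum_eq_zero
  intro γ _
  rw [Finset.mul_sum, map_sum]
  apply Finset.sum_eq_zero
  intro β hβ
  rw [monomial_mul, lam_monomial, if_neg (hb β (mem_support_iff.1 hβ) γ)]

end Lam

end Pool.Agent.Work.MP_c48073_ag
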