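import Mathlib

/-!
The dimension of a space of functions is the number of its leading indices.
-/

namespace Pool.Agent.Work.MP_c48073_ag

open Finset

section Lead

variable {K X : Type} [Field K] [AddCommGroup X] [Module K X] [FiniteDimensional K X]
  {Ξ : Type} [Fintype Ξ]

/-- `ξ` is a leading index of `W` -/
def IsLead (W : Submodule K X) (c : Ξ → X →ₗ[K] K) (key : Ξ → ℕ) (ξ : Ξ) : Prop :=
  ∃ x ∈ W, c ξ x ≠ 0 ∧ ∀ η, key ξ < key η → c η x = 0

open Classical in
theorem finrank_eq_card_lead (W : Submodule K X) (c : Ξ → X →ₗ[K] K) (key : Ξ → ℕ)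
    (hkey : Function.Injective key) (hinj : ∀ x ∈ W, (∀ ξ, c ξ x = 0) → x = 0) :
    Module.finrank K W = (univ.filter (fun ξ => IsLead W c key ξ)).card := by
  -- the filtration
  let WN : ℕ → Submodule K X := fun N => W ⊓ ⨅ η : {η : Ξ // N ≤ key η}, LinearMap.ker (c η)
  have hWN : ∀ N x, x ∈ WN N ↔ x ∈ W ∧ ∀ η, N ≤ key η → c η x = 0 := by
    intro N x
    simp only [WN, Submodule.mem_inf, Submodule.mem_iInf, LinearMap.mem_ker, Subtype.forall]
  have key1 : ∀ N, Module.finrank K (WN N) =
      (univ.filter (fun ξ => IsLead W c key ξ ∧ key ξ < N)).card := by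
    intro N
    induction N with
    | zero =>
      have : WN 0 = ⊥ := by
        rw [eq_bot_iff]
        intro x hx
        rw [hWN] at hx
        rw [Submodule.mem_bot]
        exact hinj x hx.1 (fun ξ => hx.2 ξ (Nat.zero_le _))
      rw [this, finrank_bot]
      symm
      rw [Finset.card_eq_zero, Finset.filter_eq_empty_iff]
      rintro ξ _ ⟨_, h⟩
      exact absurd h (Nat.not_lt_zero _)
    | succ N ih =>
      by_cases hex : ∃ ξ, key ξ = N ∧ IsLead W c key ξ
      · obtain ⟨ξ, hξN, x, hxW, hxξ, hx⟩ := hex
        have hfilt : univ.filter (fun ξ' => IsLead W c key ξ' ∧ key ξ' < N + 1) =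
            insert ξ (univ.filter (fun ξ' => IsLead W c key ξ' ∧ key ξ' < N)) := by
          ext ξ'
          simp only [mem_filter, mem_univ, true_and, mem_insert]
          constructor
          · rintro ⟨h1, h2⟩
            rcases Nat.lt_succ_iff_lt_or_eq.1 h2 with h | h
            · exact Or.inr ⟨h1, h⟩
            · exact Or.inl (hkey (h.trans hξN.symm))
          · rintro (h | h)
            · subst h
              exact ⟨⟨x, hxW, hxξ, hx⟩, by omega⟩
            · exact ⟨h.1, by omega⟩
        rw [hfilt, Finset.card_insert_of_notMem, ← ih]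
        · -- rank nullity
          let φ : WN (N + 1) →ₗ[K] K := (c ξ).comp (WN (N + 1)).subtype
          have hxN : x ∈ WN (N + 1) := by
            rw [hWN]
            exact ⟨hxW, fun η hη => hx η (by omega)⟩
          have hφ : LinearMap.range φ = ⊤ := by
            rw [LinearMap.range_eq_top]
            intro t
            refine ⟨(t / c ξ x) • ⟨x, hxN⟩, ?_⟩
            rw [map_smul]
            change (t / c ξ x) • c ξ x = t
            rw [smul_eq_mul, div_mul_cancel₀ _ hxξ]
          have hk : Module.finrank K (LinearMap.ker φ) = Module.finrank K (WN N) := by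
            have hle : WN N ≤ WN (N + 1) := by
              intro y hy
              rw [hWN] at hy ⊢
              exact ⟨hy.1, fun η hη => hy.2 η (by omega)⟩
            have : LinearMap.ker φ = (WN N).submoduleOf (WN (N + 1)) := by
              ext ⟨y, hy⟩
              rw [LinearMap.mem_ker]
              change c ξ y = 0 ↔ y ∈ WN N
              rw [hWN]
              rw [hWN] at hy
              constructor
              · intro h
                refine ⟨hy.1, fun η hη => ?_⟩
                rcases Nat.eq_or_lt_of_le hη with h' | h'
                · rw [hkey (h'.symm.trans hξN.symm)]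
                  exact h
                · exact hy.2 η h'
              · intro h
                exact h.2 ξ hξN.ge
            rw [this]
            exact (Submodule.submoduleOfEquivOfLe hle).finrank_eq
          have h1 := LinearMap.finrank_range_add_finrank_ker φ
          rw [hφ, finrank_top, Module.finrank_self, hk] at h1
          omega
        · simp only [mem_filter, mem_univ, true_and, not_and, not_lt]
          intro _
          omega
      · push Not at hex
        have hfilt : univ.filter (fun ξ' => IsLead W c key ξ' ∧ key ξ' < N + 1) =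
            univ.filter (fun ξ' => IsLead W c key ξ' ∧ key ξ' < N) := by
          ext ξ'
          simp only [mem_filter, mem_univ, true_and]
          constructor
          · rintro ⟨h1, h2⟩
            refine ⟨h1, ?_⟩
            rcases Nat.lt_succ_iff_lt_or_eq.1 h2 with h | h
            · exact h
            · exact absurd h1 (hex ξ' h)
          · rintro ⟨h1, h2⟩
            exact ⟨h1, by omega⟩
        rw [hfilt, ← ih]
        have : WN (N + 1) = WN N := by
          apply le_antisymm
          · intro y hy
            rw [hWN] at hy ⊢
            refine ⟨hy.1, fun η hη => ?_⟩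
            rcases Nat.eq_or_lt_of_le hη with h' | h'
            · by_contra hne
              exact hex η h'.symm ⟨y, hy.1, hne, fun η' hη' => hy.2 η' (by omega)⟩
            · exact hy.2 η h'
          · intro y hy
            rw [hWN] at hy ⊢
            exact ⟨hy.1, fun η hη => hy.2 η (by omega)⟩
        rw [this]
  -- large N
  obtain ⟨N, hN⟩ : ∃ N, ∀ ξ, key ξ < N := by
    refine ⟨(univ.sup key) + 1, fun ξ => ?_⟩
    exact Nat.lt_succ_of_le (Finset.le_sup (f := key) (Finset.mem_univ ξ))
  have h1 := key1 N
  have h2 : WN N = W := by
    ext x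
    rw [hWN]
    exact ⟨fun h => h.1, fun h => ⟨h, fun η hη => absurd (hN η) (not_lt.2 hη)⟩⟩
  rw [h2] at h1
  rw [h1]
  congr 1
  ext ξ
  simp only [mem_filter, mem_univ, true_and]
  exact ⟨fun h => h.1, fun h => ⟨h, hN ξ⟩⟩

end Lead

end Pool.Agent.Work.MP_c48073_ag
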