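import Pool.Agent.Work.MP_c48073_ag.Constraint

namespace Pool.Agent.Work.MP_c48073_ag

open Finset MvPolynomial

section Lym

variable {n d k : ℕ} {I : Type} [LinearOrder I] [Fintype I] (grp : Fin (n + 1) → Fin 3)

lemma Ld_card {b : Module.Basis I ℂ (Forms n d)} {pos : I → ℕ} {s : ℕ} {F : Finset I}
    {α : Mon n k} (h : Ld b pos k s (F, α)) : F.card = s := by
  obtain ⟨f, hf, hne, _⟩ := h
  by_contra hc
  apply hne
  change coeff α.1 (f F).1 = 0
  rw [hf.1 F hc]
  simp

open Classical in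
/-- the double counting step -/
theorem lym_step {e s : ℕ} {a : I → Fin (n + 1) →₀ ℕ} {x : I → Fin (n + 1) → ℂ}
    {U : Finset (Fin (n + 1) →₀ ℕ)} (hx : GenericPts x U)
    (hU : ∀ β : Fin (n + 1) →₀ ℕ, β.degree = k → β ∈ U)
    {b : Module.Basis I ℂ (Forms n d)} (hb : GoodBasis grp e a x b) {pos : I → ℕ}
    (hpi : Function.Injective pos)
    (hpos : ∀ i j, (∃ τ, inM grp e τ (a i)) → (¬ ∃ τ, inM grp e τ (a j)) → pos i < pos j)
    (w : ℕ) (hw : ∀ τ : Fin 3, w ≤ (univ.filter (fun i => inM grp e τ (a i))).card)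
    (hτ : ∀ α : Mon n k, ∃ τ : Fin 3, gdeg grp τ α.1 < e ∧
      4 * (univ.filter (fun β : Mon n k => wt grp τ β.1 = wt grp τ α.1)).card ≤ w) :
    ((s : ℝ) + 1 - w / 4) * (Module.finrank ℂ (WS b k (s + 1)) : ℝ) ≤
      ((Fintype.card I : ℝ) - s - 3 * w / 4) * (Module.finrank ℂ (WS b k s) : ℝ) := by
  rw [finrank_WS_eq_card b hpi, finrank_WS_eq_card b hpi]
  -- split over `α`
  have hsplit : ∀ s, ((univ.filter (fun ξ : Finset I × Mon n k => Ld b pos k s ξ)).card : ℝ) =
      ∑ α : Mon n k, ((univ.filter (fun F : Finset I => Ld b pos k s (F, α))).card : ℝ) := by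
    intro s
    rw [← Nat.cast_sum, Nat.cast_inj]
    rw [Finset.card_eq_sum_card_fiberwise (f := fun ξ : Finset I × Mon n k => ξ.2)
      (t := univ) (fun _ _ => Finset.mem_coe.2 (Finset.mem_univ _))]
    apply Finset.sum_congr rfl
    intro α _
    apply Finset.card_bij (fun ξ _ => ξ.1)
    · rintro ⟨F, β⟩ h
      simp only [mem_filter, mem_univ, true_and] at h ⊢
      obtain ⟨h1, rfl⟩ := h
      exact h1
    · rintro ⟨F, β⟩ h ⟨G, γ⟩ h' heq
      simp only [mem_filter, mem_univ, true_and] at h h' heq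
      rw [heq, h.2, h'.2]
    · intro F h
      simp only [mem_filter, mem_univ, true_and] at h
      exact ⟨(F, α), by simp [h], rfl⟩
  rw [hsplit, hsplit, Finset.mul_sum, Finset.mul_sum]
  apply Finset.sum_le_sum
  intro α _
  obtain ⟨τ, hτ1, hτ2⟩ := hτ α
  set A := univ.filter (fun F : Finset I => Ld b pos k (s + 1) (F, α)) with hA
  set B := univ.filter (fun F : Finset I => Ld b pos k s (F, α)) with hB
  set M := univ.filter (fun i => inM grp e τ (a i)) with hM
  have hcap : ∀ (s' : ℕ) (F : Finset I), Ld b pos k s' (F, α) →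
      ((F ∩ M).card : ℝ) ≤ w / 4 := by
    intro s' F hF
    have h1 := block_constraint grp hx hU hb hpos hF hτ1
    have h2 : F ∩ M = F.filter (fun i => inM grp e τ (a i)) := by
      ext i; simp [hM]
    rw [h2]
    have h3 : 4 * (F.filter (fun i => inM grp e τ (a i))).card ≤ w := by omega
    have h4 : (4 : ℝ) * ((F.filter (fun i => inM grp e τ (a i))).card : ℝ) ≤ w := by
      exact_mod_cast h3
    linarith
  have hcount : (A.sigma (fun F => F \ M)).card ≤ (B.sigma (fun G => (G ∪ M)ᶜ)).card := by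
    apply Finset.card_le_card_of_injOn
      (fun p => (⟨p.1.erase p.2, p.2⟩ : (_ : Finset I) × I))
    · rintro ⟨F, i⟩ h
      simp only [Finset.coe_sigma, Set.mem_sigma_iff, Finset.mem_coe, mem_sdiff, hA,
        mem_filter, mem_univ, true_and] at h
      simp only [Finset.coe_sigma, Set.mem_sigma_iff, Finset.mem_coe, hB,
        mem_filter, mem_univ, true_and, mem_compl, mem_union, not_or]
      exact ⟨Ld_erase h.1 h.2.1, Finset.notMem_erase _ _, h.2.2⟩
    · rintro ⟨F, i⟩ h ⟨G, j⟩ h' heq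
      simp only [Finset.coe_sigma, Set.mem_sigma_iff, Finset.mem_coe, mem_sdiff] at h h'
      simp only [Sigma.mk.injEq, heq_eq_eq] at heq
      obtain ⟨h1, rfl⟩ := heq
      have : F = G := by
        rw [← Finset.insert_erase h.2.1, h1, Finset.insert_erase h'.2.1]
      rw [this]
  rw [Finset.card_sigma, Finset.card_sigma] at hcount
  have hcount' : (∑ F ∈ A, ((F \ M).card : ℝ)) ≤ ∑ G ∈ B, (((G ∪ M)ᶜ).card : ℝ) := by
    exact_mod_cast hcount
  have hleft : ((s : ℝ) + 1 - w / 4) * (A.card : ℝ) ≤ ∑ F ∈ A, ((F \ M).card : ℝ) := by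
    rw [mul_comm, ← nsmul_eq_mul, ← Finset.sum_const]
    apply Finset.sum_le_sum
    intro F hF
    have hF' : Ld b pos k (s + 1) (F, α) := by
      rw [hA, mem_filter] at hF; exact hF.2
    have h1 := hcap _ F hF'
    have h2 := Ld_card hF'
    have h3 : ((F \ M).card : ℝ) + ((F ∩ M).card : ℝ) = (F.card : ℝ) := by
      exact_mod_cast Finset.card_sdiff_add_card_inter F M
    rw [h2] at h3
    push_cast at h3
    linarith
  have hright : ∑ G ∈ B, (((G ∪ M)ᶜ).card : ℝ) ≤
      ((Fintype.card I : ℝ) - s - 3 * w / 4) * (B.card : ℝ) := by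
    rw [mul_comm, ← nsmul_eq_mul, ← Finset.sum_const]
    apply Finset.sum_le_sum
    intro G hG
    have hG' : Ld b pos k s (G, α) := by
      rw [hB, mem_filter] at hG; exact hG.2
    have h1 := hcap _ G hG'
    have h2 := Ld_card hG'
    have h3 : (((G ∪ M)ᶜ).card : ℝ) + ((G ∪ M).card : ℝ) = (Fintype.card I : ℝ) := by
      have := Finset.card_add_card_compl (G ∪ M)
      rw [add_comm]
      exact_mod_cast this
    have h4 : ((G ∪ M).card : ℝ) + ((G ∩ M).card : ℝ) = (G.card : ℝ) + (M.card : ℝ) := by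
      exact_mod_cast Finset.card_union_add_card_inter G M
    have h5 : (w : ℝ) ≤ (M.card : ℝ) := by exact_mod_cast hw τ
    rw [h2] at h4
    linarith
  linarith

end Lym

end Pool.Agent.Work.MP_c48073_ag
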