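import Pool.Agent.Work.MP_c48073_ag.Cech

namespace Pool.Agent.Work.MP_c48073_ag

open Finset

section Step

variable {n : ℕ} {I : Type} [LinearOrder I] [Fintype I] {α : I → Fin (n + 1) → ℤ}

lemma ind_add_ind {j : ℕ} (hj : j < n + 1) {p : ℕ} {m : ℤ}
    {f : Finset I → (Fin (n + 1) → ℤ) → ℂ} (hf : f ∈ YA I (Lj n j) p m) :
    ind I (Aj n j) f + ind I (Aj n (j + 1)) f = f := by
  ext F c
  rw [Pi.add_apply, Pi.add_apply]
  by_cases h0 : f F c = 0
  · have : ∀ A, ind I A f F c = 0 := by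
      intro A
      by_cases h : c ∈ A
      · rw [ind_apply_mem _ _ h, h0]
      · rw [ind_apply_notMem _ _ h]
    rw [this, this, h0, add_zero]
  · have hc := (hf F c h0).2.1
    by_cases h : 0 ≤ c ⟨j, hj⟩
    · rw [ind_apply_mem _ _ ((mem_Aj_iff hj hc).2 h), ind_apply_notMem _ _
        (fun h' => absurd ((mem_Aj_succ_iff hj hc).1 h') (not_lt.2 h)), add_zero]
    · rw [ind_apply_notMem _ _ (fun h' => h ((mem_Aj_iff hj hc).1 h')), ind_apply_mem _ _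
        ((mem_Aj_succ_iff hj hc).2 (not_le.1 h)), zero_add]

lemma ind_of_mem {A : Set (Fin (n + 1) → ℤ)} {p : ℕ} {m : ℤ}
    {f : Finset I → (Fin (n + 1) → ℤ) → ℂ} (hf : f ∈ YA I A p m) : ind I A f = f := by
  ext F c
  by_cases h : c ∈ A
  · rw [ind_apply_mem _ _ h]
  · rw [ind_apply_notMem _ _ h]
    by_contra h'
    exact h (hf F c (Ne.symm h')).2.1

lemma ind_succ_of_mem {j : ℕ} (hj : j < n + 1) {p : ℕ} {m : ℤ}
    {f : Finset I → (Fin (n + 1) → ℤ) → ℂ} (hf : f ∈ YA I (Aj n j) p m) :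
    ind I (Aj n (j + 1)) f = 0 := by
  have h1 := ind_add_ind hj (YA_mono (Aj_sub_Lj n j) p m hf)
  rw [ind_of_mem hf] at h1
  exact add_eq_left.1 h1

lemma ind_of_mem_succ {j : ℕ} (hj : j < n + 1) {p : ℕ} {m : ℤ}
    {f : Finset I → (Fin (n + 1) → ℤ) → ℂ} (hf : f ∈ YA I (Aj n (j + 1)) p m) :
    ind I (Aj n j) f = 0 := by
  have h1 := ind_add_ind hj (YA_mono (Aj_succ_sub_Lj n j) p m hf)
  rw [ind_of_mem hf] at h1
  exact add_eq_right.1 h1

/-- The homotopy formula on `Lj`. -/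
lemma homotopy {j : ℕ} (hj : j < n + 1) {d : ℤ} (i0 : I)
    (hi0 : α i0 = Pi.single ⟨j, hj⟩ d) {p : ℕ} {m : ℤ}
    {f : Finset I → (Fin (n + 1) → ℤ) → ℂ} (hf : f ∈ YA I (Lj n j) p m) :
    DA α (Lj n j) (hU i0 (Uj n j (Pi.single ⟨j, hj⟩ d)) f) +
      hU i0 (Uj n j (Pi.single ⟨j, hj⟩ d)) (DA α (Lj n j) f) = f := by
  apply kd_hU
  · intro i x
    exact Tr_Uj_comm hj d (α i) x
  · intro G
    rw [hi0]
    apply Tr_Uj
    intro c hc
    exact (hf G c hc).2.1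

lemma HA_step (hα : ∀ i, 0 ≤ α i) {d : ℤ} (hd : ∀ i, ∑ k, α i k = d) {j : ℕ} (hj : j < n + 1)
    (i0 : I) (hi0 : α i0 = Pi.single ⟨j, hj⟩ d) (p : ℕ) (m : ℤ) :
    HA α d (Aj n j) p m = HA α d (Aj n (j + 1)) (p + 1) (m - d) := by
  symm
  unfold HA
  set U := Uj n j (Pi.single ⟨j, hj⟩ d) with hU'
  have hL : (Lj n j).OrdConnected := Lj_ordConnected n j
  apply finrank_quot_eq _ _ _ _ (DA α (Lj n j))
  · -- cycles to cycles
    rintro z ⟨hz1, hz2⟩
    have hz2' : DA α (Aj n (j + 1)) z = 0 := hz2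
    have hzL := YA_mono (Aj_succ_sub_Lj n j) _ _ hz1
    have h1 : DA α (Lj n j) z ∈ YA I (Lj n j) p (m - d + d) := DA_mem hd hzL
    rw [sub_add_cancel] at h1
    have h2 : ind I (Aj n (j + 1)) (DA α (Lj n j) z) = 0 := by
      rw [ind_DA_Lj hα hj, ind_of_mem hz1, hz2']
    have h3 : ind I (Aj n j) (DA α (Lj n j) z) = DA α (Lj n j) z := by
      have := ind_add_ind hj h1
      rwa [h2, add_zero] at this
    have h4 : DA α (Lj n j) z ∈ YA I (Aj n j) p m := by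
      rw [← h3]; exact ind_mem h1
    refine ⟨h4, ?_⟩
    change DA α (Aj n j) (DA α (Lj n j) z) = 0
    rw [← DA_Lj_of_Aj hα hj h4, DA_DA hα hL]
  · -- boundaries
    rintro z ⟨hz1, hz2⟩
    have hz2' : DA α (Aj n (j + 1)) z = 0 := hz2
    have hzL := YA_mono (Aj_succ_sub_Lj n j) _ _ hz1
    constructor
    · rintro ⟨y, hy, hyz⟩
      have hyL := YA_mono (Aj_sub_Lj n j) _ _ hy
      rw [← DA_Lj_of_Aj hα hj hy] at hyz
      have hxL : z - y ∈ YA I (Lj n j) (p + 1) (m - d) := Submodule.sub_mem _ hzL hyL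
      have hx0 : DA α (Lj n j) (z - y) = 0 := by rw [map_sub, hyz, sub_self]
      have hh := homotopy (α := α) hj i0 hi0 hxL
      rw [hx0, map_zero, add_zero] at hh
      refine ⟨ind I (Aj n (j + 1)) (hU i0 (Uj n j (Pi.single ⟨j, hj⟩ d)) (z - y)), ?_, ?_⟩
      · exact ind_mem (hU_mem hj i0 hxL)
      · rw [← ind_DA_Lj hα hj, hh, map_sub, ind_of_mem hz1, ind_succ_of_mem hj hy, sub_zero]
    · rintro ⟨w, hw, hwz⟩
      have hwL := YA_mono (Aj_succ_sub_Lj n j) _ _ hw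
      have hDw : DA α (Lj n j) w ∈ YA I (Lj n j) (p + 1) (m - d - d + d) := DA_mem hd hwL
      rw [sub_add_cancel] at hDw
      have h1 := ind_add_ind hj hDw
      rw [ind_DA_Lj hα hj, ind_of_mem hw, hwz] at h1
      refine ⟨- ind I (Aj n j) (DA α (Lj n j) w), Submodule.neg_mem _ (ind_mem hDw), ?_⟩
      rw [map_neg, ← DA_Lj_of_Aj hα hj (ind_mem hDw)]
      have h2 : DA α (Lj n j) (DA α (Lj n j) w) = 0 := DA_DA hα hL w
      rw [← h1, map_add] at h2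
      exact neg_eq_of_add_eq_zero_right h2
  · -- surjectivity
    rintro y ⟨hy1, hy2⟩
    have hy2' : DA α (Aj n j) y = 0 := hy2
    have hyL := YA_mono (Aj_sub_Lj n j) _ _ hy1
    have hh := homotopy (α := α) hj i0 hi0 hyL
    rw [DA_Lj_of_Aj hα hj hy1, hy2', map_zero, add_zero] at hh
    set x := hU i0 (Uj n j (Pi.single ⟨j, hj⟩ d)) y with hx
    have hxL : x ∈ YA I (Lj n j) (p + 1) (m - d) := hU_mem hj i0 hyL
    have hsum := ind_add_ind hj hxL
    have hC : ind I (Aj n j) x ∈ YA I (Aj n j) (p + 1) (m - d) := ind_mem hxL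
    have hDC : DA α (Aj n j) (ind I (Aj n j) x) ∈ YA I (Aj n j) p (m - d + d) := DA_mem hd hC
    have hkey : DA α (Lj n j) (ind I (Aj n (j + 1)) x) = y - DA α (Aj n j) (ind I (Aj n j) x) := by
      rw [← DA_Lj_of_Aj hα hj hC, eq_sub_iff_add_eq, ← map_add,
        add_comm (ind I (Aj n (j + 1)) x), hsum, hh]
    refine ⟨ind I (Aj n (j + 1)) x, ⟨ind_mem hxL, ?_⟩, ?_⟩
    · change DA α (Aj n (j + 1)) (ind I (Aj n (j + 1)) x) = 0
      rw [← ind_DA_Lj hα hj, hh, ind_succ_of_mem hj hy1]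
    · rw [hkey, sub_sub_cancel]
      exact ⟨_, hC, rfl⟩

/-- From the positive to the negative orthant. -/
lemma HA_iterate (hα : ∀ i, 0 ≤ α i) {d : ℤ} (hd : ∀ i, ∑ k, α i k = d)
    (hi : ∀ (j : ℕ) (hj : j < n + 1), ∃ i0 : I, α i0 = Pi.single ⟨j, hj⟩ d) (p : ℕ) (m : ℤ)
    (j : ℕ) (hj : j ≤ n + 1) :
    HA α d (Aj n 0) p m = HA α d (Aj n j) (p + j) (m - j * d) := by
  induction j with
  | zero => simp
  | succ j ih =>
    obtain ⟨i0, hi0⟩ := hi j (by omega)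
    rw [ih (by omega), HA_step hα hd (by omega) i0 hi0]
    congr 1
    push_cast
    ring

end Step

end Pool.Agent.Work.MP_c48073_ag
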