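import Pool.Agent.Work.MP_c48073_ag.Count

/-!
The recursive inequality for the Betti numbers `k_{p,8}(P^8, O(d))`, `d` even.
-/

namespace Pool.Agent.Work.MP_c48073_ag

open Finset MvPolynomial

/-- consecutive dimensions of Koszul cycles -/
theorem step_Z {e k : ℕ} (hk : k + 9 = 2 * e) (s : ℕ) :
    ((s : ℝ) + 2 - (c3 e : ℝ) ^ 2 / 4) *
        (Module.finrank ℂ (LinearMap.ker (koszulDiff (mulForms 8 (2 * e) k) (s + 1))) : ℝ) ≤
      (((8 + 2 * e).choose 8 : ℝ) - s - 1 - 3 * (c3 e : ℝ) ^ 2 / 4) *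
        (Module.finrank ℂ (LinearMap.ker (koszulDiff (mulForms 8 (2 * e) k) s)) : ℝ) := by
  classical
  have he : 1 ≤ e := by omega
  set U : Finset (Fin (8 + 1) →₀ ℕ) :=
    Finset.finsuppAntidiag univ (2 * e) ∪ Finset.finsuppAntidiag univ k with hU
  obtain ⟨x, hx⟩ := exists_GenericPts 8 (2 * e) U
  have hU1 : ∀ β : Fin (8 + 1) →₀ ℕ, β.degree = 2 * e → β ∈ U := by
    intro β hβ
    rw [hU, mem_union]
    exact Or.inl ((mem_antidiag_iff 8 (2 * e) β).2 hβ)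
  have hU2 : ∀ β : Fin (8 + 1) →₀ ℕ, β.degree = k → β ∈ U := by
    intro β hβ
    rw [hU, mem_union]
    exact Or.inr ((mem_antidiag_iff 8 k β).2 hβ)
  obtain ⟨b, hb⟩ := exists_GoodBasis grp9 he hx hU1
  let pos : Mon 8 (2 * e) → ℕ := fun i => (Fintype.equivFin (Mon 8 (2 * e)) i : ℕ) +
    (if ∃ τ, inM grp9 e τ i.1 then 0 else Fintype.card (Mon 8 (2 * e)))
  have hlt : ∀ i, (Fintype.equivFin (Mon 8 (2 * e)) i : ℕ) < Fintype.card (Mon 8 (2 * e)) :=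
    fun i => (Fintype.equivFin (Mon 8 (2 * e)) i).2
  have hpi : Function.Injective pos := by
    intro i j hij
    have hi := hlt i
    have hj := hlt j
    simp only [pos] at hij
    apply (Fintype.equivFin (Mon 8 (2 * e))).injective
    apply Fin.ext
    split_ifs at hij <;> omega
  have hpos : ∀ i j : Mon 8 (2 * e), (∃ τ, inM grp9 e τ i.1) → (¬ ∃ τ, inM grp9 e τ j.1) →
      pos i < pos j := by
    intro i j hi hj
    have := hlt i
    simp only [pos]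
    rw [if_pos hi, if_neg hj]
    omega
  have hstep := lym_step (s := s + 1) (k := k) grp9 hx hU2 hb hpi hpos (c3 e ^ 2)
    (fun τ => by
      have := card_inM_ge (e := e) (d := 2 * e) rfl τ
      convert this)
    (fun α => by
      have hsum : ∑ t, gdeg grp9 t α.1 = k := by rw [sum_gdeg]; exact α.2
      obtain ⟨τ, h1, h2⟩ := exists_tau hk (fun t => gdeg grp9 t α.1) hsum
      refine ⟨τ, h1, le_trans (Nat.mul_le_mul_left 4 ?_) h2⟩
      have := card_wt_le τ α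
      convert this)
  rw [finrank_WS b k (s + 1), finrank_WS b k s]
  rw [card_Mon] at hstep
  push_cast at hstep ⊢
  have e1 : (s : ℝ) + 2 - (c3 e : ℝ) ^ 2 / 4 = (s : ℝ) + 1 + 1 - (c3 e : ℝ) ^ 2 / 4 := by ring
  have e2 : ((8 + 2 * e).choose 8 : ℝ) - s - 1 - 3 * (c3 e : ℝ) ^ 2 / 4 =
    ((8 + 2 * e).choose 8 : ℝ) - (s + 1) - 3 * (c3 e : ℝ) ^ 2 / 4 := by ring
  rw [e1, e2]
  exact hstep

/-- The inequality for Betti numbers. -/
theorem step_p {e k p : ℕ} (hk : k + 9 = 2 * e) (hp : 1 ≤ p)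
    (hR : p + 11 ≤ (8 + 2 * e).choose 8) :
    (((8 + 2 * e).choose 8 : ℝ) - 9 - p - (c3 e : ℝ) ^ 2 / 4) *
        (kPQ 8 (2 * e) (p : ℤ) 8 : ℝ) ≤
      ((p : ℝ) + 10 - 3 * (c3 e : ℝ) ^ 2 / 4) * (kPQ 8 (2 * e) ((p + 1 : ℕ) : ℤ) 8 : ℝ) := by
  obtain ⟨p', rfl⟩ : ∃ p', p = p' + 1 := ⟨p - 1, by omega⟩
  obtain ⟨s, hs⟩ : ∃ s, (8 + 2 * e).choose 8 = p' + 1 + 11 + s := ⟨_, (Nat.add_sub_of_le hR).symm⟩
  have h1 : kPQ 8 (2 * e) ((p' + 1 : ℕ) : ℤ) 8 =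
      Module.finrank ℂ (LinearMap.ker (koszulDiff (mulForms 8 (2 * e) k) (s + 1))) :=
    duality (n := 8) (q := 7) rfl (by omega) (by omega)
  have h2 : kPQ 8 (2 * e) ((p' + 1 + 1 : ℕ) : ℤ) 8 =
      Module.finrank ℂ (LinearMap.ker (koszulDiff (mulForms 8 (2 * e) k) s)) :=
    duality (n := 8) (q := 7) rfl (by omega) (by omega)
  have h3 := step_Z hk s
  have hs' : (((8 + 2 * e).choose 8 : ℕ) : ℝ) = (p' : ℝ) + 1 + 11 + s := by
    rw [hs]; push_cast; ring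
  rw [h1, h2]
  rw [hs'] at h3 ⊢
  push_cast
  have e1 : (p' : ℝ) + 1 + 11 + s - 9 - (p' + 1) - (c3 e : ℝ) ^ 2 / 4 =
    (s : ℝ) + 2 - (c3 e : ℝ) ^ 2 / 4 := by ring
  have e2 : (p' : ℝ) + 1 + 10 - 3 * (c3 e : ℝ) ^ 2 / 4 =
    (p' : ℝ) + 1 + 11 + s - s - 1 - 3 * (c3 e : ℝ) ^ 2 / 4 := by ring
  rw [e1, e2]
  exact h3

end Pool.Agent.Work.MP_c48073_ag
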