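import Pool.Agent.Work.MP_c48073_ag.Block
import Pool.Agent.Work.MP_c48073_ag.Lead

/-!
Koszul cycles in coordinates, leading indices, and the block constraint.
-/

namespace Pool.Agent.Work.MP_c48073_ag

open Finset MvPolynomial
open scoped TensorProduct

section WSpace

variable {n d k : ℕ} {I : Type} [LinearOrder I] [Fintype I]

/-- Koszul cycles in coordinates -/
noncomputable def WS (b : Module.Basis I ℂ (Forms n d)) (k s : ℕ) :
    Submodule ℂ (Finset I → Forms n k) where
  carrier := {f | (∀ F, F.card ≠ s → f F = 0) ∧ kd (fun i => mulForms n d k (b i)) f = 0}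
  add_mem' := by
    rintro f g ⟨hf1, hf2⟩ ⟨hg1, hg2⟩
    refine ⟨fun F hF => ?_, ?_⟩
    · rw [Pi.add_apply, hf1 F hF, hg1 F hF, add_zero]
    · rw [map_add, hf2, hg2, add_zero]
  zero_mem' := ⟨fun _ _ => rfl, map_zero _⟩
  smul_mem' := by
    rintro a f ⟨hf1, hf2⟩
    refine ⟨fun F hF => ?_, ?_⟩
    · rw [Pi.smul_apply, hf1 F hF, smul_zero]
    · rw [map_smul, hf2, smul_zero]

lemma mem_WS {b : Module.Basis I ℂ (Forms n d)} {s : ℕ}
    {f : Finset I → Forms n k} :
    f ∈ WS b k s ↔ (∀ F, F.card ≠ s → f F = 0) ∧ kd (fun i => mulForms n d k (b i)) f = 0 :=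
  Iff.rfl

lemma finrank_WS (b : Module.Basis I ℂ (Forms n d)) (k s : ℕ) :
    Module.finrank ℂ (LinearMap.ker (koszulDiff (mulForms n d k) s)) =
      Module.finrank ℂ (WS b k (s + 1)) := by
  refine finrank_eq_of_bij (K := ℂ)
    (X := (⋀[ℂ]^(s + 1) (Forms n d)) ⊗[ℂ] Forms n k)
    (X' := Finset I → Forms n k) _ _ (coordE b (s + 1)) ?_ ?_ ?_
  · intro z hz
    rw [LinearMap.mem_ker] at hz
    refine ⟨fun F hF => coordE_apply_of_ne b _ z F hF, ?_⟩
    rw [← coordE_koszulDiff, hz, map_zero]
  · intro z _ hz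
    apply coordE_injective b (s + 1)
    rw [hz, map_zero]
  · rintro y ⟨hy1, hy2⟩
    obtain ⟨z, rfl⟩ := mem_range_coordE b (s + 1) y hy1
    refine ⟨z, ?_, rfl⟩
    rw [LinearMap.mem_ker]
    apply coordE_injective b s
    rw [coordE_koszulDiff, hy2, map_zero]

/-- contraction maps cycles to cycles -/
lemma contr_mem {b : Module.Basis I ℂ (Forms n d)} {s : ℕ}
    {f : Finset I → Forms n k} (hf : f ∈ WS b k (s + 1)) (i : I) :
    contr (K := ℂ) i f ∈ WS b k s := by
  obtain ⟨h1, h2⟩ := hf
  refine ⟨fun F hF => ?_, ?_⟩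
  · rw [contr_apply]
    split_ifs with hi
    · rfl
    · rw [h1 _ (by rw [Finset.card_insert_of_notMem hi]; omega), smul_zero]
  · rw [kd_contr, h2, map_zero, neg_zero]

/-- weight of a set -/
def wF (pos : I → ℕ) (F : Finset I) : ℕ := ∑ i ∈ F, 2 ^ pos i

lemma wF_injective {pos : I → ℕ} (hpos : Function.Injective pos) :
    Function.Injective (wF pos) := by
  intro F G h
  have h1 : ∀ F : Finset I, wF pos F = ∑ i ∈ F.map ⟨pos, hpos⟩, 2 ^ i := by
    intro F
    rw [Finset.sum_map]
    rfl
  rw [h1, h1] at h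
  have h2 := Finset.geomSum_injective (n := 2) le_rfl h
  exact Finset.map_injective _ h2

lemma wF_insert {pos : I → ℕ} {i : I} {F : Finset I} (h : i ∉ F) :
    wF pos (insert i F) = 2 ^ pos i + wF pos F := by
  unfold wF
  rw [Finset.sum_insert h]

/-- coefficient functionals -/
noncomputable def cf (ξ : Finset I × Mon n k) :
    (Finset I → Forms n k) →ₗ[ℂ] ℂ where
  toFun f := coeff ξ.2.1 (f ξ.1).1
  map_add' f g := by rw [Pi.add_apply, Submodule.coe_add, coeff_add]
  map_smul' a f := by rw [Pi.smul_apply, Submodule.coe_smul, coeff_smul]; rfl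

lemma cf_apply (F : Finset I) (α : Mon n k) (f : Finset I → Forms n k) :
    cf (F, α) f = coeff α.1 (f F).1 := rfl

lemma forms_eq_zero (g : Forms n k) (h : ∀ α : Mon n k, coeff α.1 g.1 = 0) : g = 0 := by
  apply (coefEquiv n k).injective
  rw [map_zero]
  ext α
  exact h α

/-- key of an index -/
noncomputable def keyX (pos : I → ℕ) (ξ : Finset I × Mon n k) : ℕ :=
  wF pos ξ.1 * Fintype.card (Mon n k) + (Fintype.equivFin (Mon n k) ξ.2 : ℕ)

lemma keyX_injective {pos : I → ℕ} (hpos : Function.Injective pos) :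
    Function.Injective (keyX (n := n) (k := k) pos) := by
  rintro ⟨F, α⟩ ⟨G, β⟩ h
  unfold keyX at h
  simp only at h
  have ha := (Fintype.equivFin (Mon n k) α).2
  have hb := (Fintype.equivFin (Mon n k) β).2
  set K := Fintype.card (Mon n k) with hK
  have hKpos : 0 < K := lt_of_le_of_lt (Nat.zero_le _) ha
  have h1 : wF pos F = wF pos G := by
    have e1 : (wF pos F * K + (Fintype.equivFin (Mon n k) α : ℕ)) / K =
        (wF pos G * K + (Fintype.equivFin (Mon n k) β : ℕ)) / K := by rw [h]
    rw [mul_comm, mul_comm (wF pos G)] at e1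
    rw [Nat.mul_add_div hKpos, Nat.mul_add_div hKpos, Nat.div_eq_of_lt ha,
      Nat.div_eq_of_lt hb] at e1
    simpa using e1
  rw [h1] at h
  have h2 := Nat.add_left_cancel h
  rw [wF_injective hpos h1, (Fintype.equivFin (Mon n k)).injective (Fin.ext h2)]

lemma keyX_lt_of_wF {pos : I → ℕ} {F G : Finset I} (α β : Mon n k)
    (h : wF pos F < wF pos G) : keyX pos (F, α) < keyX pos (G, β) := by
  unfold keyX
  simp only
  have ha := (Fintype.equivFin (Mon n k) α).2
  calc wF pos F * Fintype.card (Mon n k) + (Fintype.equivFin (Mon n k) α : ℕ)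
      < wF pos F * Fintype.card (Mon n k) + Fintype.card (Mon n k) := by omega
    _ = (wF pos F + 1) * Fintype.card (Mon n k) := by ring
    _ ≤ wF pos G * Fintype.card (Mon n k) := Nat.mul_le_mul_right _ h
    _ ≤ _ := Nat.le_add_right _ _

/-- leading indices -/
def Ld (b : Module.Basis I ℂ (Forms n d)) (pos : I → ℕ) (k s : ℕ)
    (ξ : Finset I × Mon n k) : Prop :=
  IsLead (WS b k s) (fun ξ => cf ξ) (keyX pos) ξ

open Classical in
lemma finrank_WS_eq_card (b : Module.Basis I ℂ (Forms n d)) {pos : I → ℕ}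
    (hpos : Function.Injective pos) (k s : ℕ) :
    Module.finrank ℂ (WS b k s) =
      (univ.filter (fun ξ : Finset I × Mon n k => Ld b pos k s ξ)).card := by
  rw [finrank_eq_card_lead (WS b k s) (fun ξ : Finset I × Mon n k => cf ξ) (keyX pos)
    (keyX_injective hpos)]
  · rfl
  · intro f _ h
    ext F : 1
    exact forms_eq_zero (f F) (fun α => h (F, α))

/-- leading indices are closed under removing elements -/
lemma Ld_erase {b : Module.Basis I ℂ (Forms n d)} {pos : I → ℕ} {s : ℕ}
    {F : Finset I} {α : Mon n k} (h : Ld b pos k (s + 1) (F, α)) {i : I}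
    (hi : i ∈ F) : Ld b pos k s (F.erase i, α) := by
  obtain ⟨f, hf, hne, hmax⟩ := h
  refine ⟨contr (K := ℂ) i f, contr_mem hf i, ?_, ?_⟩
  · rw [cf_apply, contr_apply, if_neg (Finset.notMem_erase _ _), Finset.insert_erase hi]
    rw [cf_apply] at hne
    intro h0
    apply hne
    have h1 : (f F).1 = sg i (F.erase i) • (sg i (F.erase i) • (f F).1) := by
      rw [smul_smul, sg_mul_self, one_smul]
    rw [h1]
    have h2 : coeff α.1 (sg i (F.erase i) • (sg i (F.erase i) • (f F).1)) =
        sg i (F.erase i) • coeff α.1 (sg i (F.erase i) • (f F).1) := by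
      rcases (by
        unfold sg
        exact neg_one_pow_eq_or ℤ _ : sg i (F.erase i) = 1 ∨ sg i (F.erase i) = -1) with h | h
      · rw [h]; simp
      · rw [h]; simp
    rw [h2]
    have h3 : coeff α.1 (sg i (F.erase i) • (f F).1) = 0 := h0
    rw [h3, smul_zero]
  · rintro ⟨G, β⟩ hlt
    rw [cf_apply, contr_apply]
    by_cases hiG : i ∈ G
    · rw [if_pos hiG]; simp
    · rw [if_neg hiG]
      have h1 : keyX pos (F, α) < keyX pos (insert i G, β) := by
        have e1 : wF pos F = 2 ^ pos i + wF pos (F.erase i) := by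
          rw [← wF_insert (Finset.notMem_erase _ _), Finset.insert_erase hi]
        unfold keyX at hlt ⊢
        simp only at hlt ⊢
        rw [e1, wF_insert hiG, add_mul, add_mul]
        omega
      have h2 := hmax (insert i G, β) h1
      have h3 : coeff β.1 (f (insert i G)).1 = 0 := h2
      have h4 : coeff β.1 (sg i G • (f (insert i G)) : Forms n k).1 =
          sg i G • coeff β.1 (f (insert i G)).1 := by
        rcases (by
          unfold sg
          exact neg_one_pow_eq_or ℤ _ : sg i G = 1 ∨ sg i G = -1) with h | h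
        · rw [h]; simp
        · rw [h]; simp
      rw [h4, h3, smul_zero]

end WSpace

end Pool.Agent.Work.MP_c48073_ag
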